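import Pool.Agent.R143.MDS.HW

/-! Averaging the deterministic inequality. -/

namespace Pool.Agent.R143.MDS

open Finset Submodule Module

variable {F : Type} [Field F] [Fintype F] [DecidableEq F] {n k : ℕ}

/-- Normalised expected number of bad lines. -/
noncomputable def mu (F : Type) [Field F] [Fintype F] [DecidableEq F] (n k : ℕ) : ℝ :=
  (Fintype.card F : ℝ) ^ k * (ZZ F n k : ℝ) /
    ((Fintype.card F : ℝ) ^ n * ((Fintype.card F : ℝ) - 1))

/-- Proportion of independent tuples. -/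
noncomputable def al (F : Type) [Field F] [Fintype F] (k r : ℕ) : ℝ :=
  (ci F k r : ℝ) / (Fintype.card F : ℝ) ^ (k * r)

/-- Comparison parameter. -/
noncomputable def Lam (F : Type) [Fintype F] (n k : ℕ) : ℝ :=
  (n.choose k : ℝ) / ((Fintype.card F : ℝ) - 1)

lemma card_pos' (F : Type) [Field F] [Fintype F] : 0 < (Fintype.card F : ℝ) := by
  have : 0 < Fintype.card F := Fintype.card_pos
  exact_mod_cast this

lemma sum_II (r : ℕ) :
    ∑ A : Fin n → Fin k → F, II F (Yset A) r =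
      (Fintype.card F : ℝ) ^ (n * k) * (al F k r * mu F n k ^ r / (r.factorial : ℝ)) := by
  have hq := card_pos' F
  have hq1 := q_sub_one_pos F
  have h1 := card_T_sum (F := F) (n := n) (k := k) r
  have h2 : (∑ A : Fin n → Fin k → F, ((T F (Yset A) r).card : ℝ)) *
      (Fintype.card F : ℝ) ^ (n * r) =
      (ci F k r : ℝ) * ((Fintype.card F : ℝ) ^ (n * k) * (ZZ F n k : ℝ) ^ r) := by
    exact_mod_cast h1
  unfold II
  rw [← Finset.sum_div]
  have h3 : (∑ A : Fin n → Fin k → F, ((T F (Yset A) r).card : ℝ)) =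
      (ci F k r : ℝ) * ((Fintype.card F : ℝ) ^ (n * k) * (ZZ F n k : ℝ) ^ r) /
      (Fintype.card F : ℝ) ^ (n * r) := by
    rw [eq_div_iff (by positivity)]; exact h2
  rw [h3]
  unfold al mu
  have hf : (r.factorial : ℝ) ≠ 0 := by positivity
  rw [div_pow, mul_pow, mul_pow, ← pow_mul, ← pow_mul]
  have hqn : (Fintype.card F : ℝ) ≠ 0 := hq.ne'
  have hq1n : (Fintype.card F : ℝ) - 1 ≠ 0 := hq1.ne'
  field_simp

open Classical in
/-- The averaged inequality. -/
lemma avg_ineq (hk : 1 ≤ k) (hkn : k < n) {R : ℕ} {τ : ℝ} (h0 : 0 < τ)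
    (h1 : τ ≤ 1) (hτ : τ ^ (2 * R) = 1 / (Fintype.card F : ℝ)) :
    |gp F n k - ∑ r ∈ Finset.range (R + 1),
        (-1) ^ r * (al F k r * mu F n k ^ r / (r.factorial : ℝ))| ≤
      2 ^ (R + 1) * (al F k (R + 1) * mu F n k ^ (R + 1) / ((R + 1).factorial : ℝ)) +
      ∑ ρ ∈ Finset.range (R + 1), 2 ^ ρ * (Lam F n k * ((1 + τ) ^ (n * R) - 1) *
        (Lam F n k + 1) ^ ρ) := by
  set q : ℝ := (Fintype.card F : ℝ) with hq
  have hq0 : 0 < q := card_pos' F
  have hq1 : 0 < q - 1 := q_sub_one_pos F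
  have hW : ∀ A : Fin n → Fin k → F,
      |(if Yset A = ∅ then (1 : ℝ) else 0) - SR F (Yset A) R| ≤
      2 ^ (R + 1) * II F (Yset A) (R + 1) +
        ∑ ρ ∈ Finset.range (R + 1), 2 ^ ρ * ((Wc A ρ : ℝ) / (q - 1) ^ (ρ + 1)) := by
    intro A
    apply det_ineq (Y := Yset A) (fun v hv => (mem_Yset.1 hv).1) (Yset_smul A) R
      (fun ρ => (Wc A ρ : ℝ) / (q - 1) ^ (ρ + 1)) (fun ρ => by positivity)
    intro _ hv
    have h2 := card_T_le_Wc A hk hkn rfl hv
    have h3 : ((T F (Yset A) (rk F (Yset A))).card : ℝ) * (q - 1) ≤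
        (Wc A (rk F (Yset A)) : ℝ) := by
      rw [hq, ← cast_q_sub F]
      exact_mod_cast h2
    rw [div_le_div_iff₀ (by positivity) (by positivity), pow_succ]
    have : 0 < (q - 1) ^ (rk F (Yset A)) := by positivity
    nlinarith
  have hgp : gp F n k = (∑ A : Fin n → Fin k → F, (if Yset A = ∅ then (1 : ℝ) else 0)) /
      q ^ (n * k) := by
    unfold gp
    congr 1
    rw [Nat.card_eq_fintype_card, Fintype.card_subtype, Finset.card_filter]
    push_cast
    apply Finset.sum_congr rfl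
    intro A _
    by_cases h : Yset A = ∅
    · rw [if_pos h, if_pos ((good_iff_Yset A).2 h)]
    · rw [if_neg h, if_neg (fun h' => h ((good_iff_Yset A).1 h'))]
  have hSR : ∑ r ∈ Finset.range (R + 1), (-1) ^ r * (al F k r * mu F n k ^ r / (r.factorial : ℝ))
      = (∑ A : Fin n → Fin k → F, SR F (Yset A) R) / q ^ (n * k) := by
    rw [eq_div_iff (by positivity)]
    unfold SR
    rw [Finset.sum_comm, Finset.sum_mul]
    apply Finset.sum_congr rfl
    intro r _
    rw [← Finset.mul_sum, sum_II]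
    ring
  rw [hgp, hSR, ← sub_div, abs_div, abs_of_pos (show 0 < q ^ (n * k) by positivity),
    div_le_iff₀ (by positivity), ← Finset.sum_sub_distrib]
  calc |∑ A : Fin n → Fin k → F, ((if Yset A = ∅ then (1 : ℝ) else 0) - SR F (Yset A) R)| ≤
      ∑ A : Fin n → Fin k → F, |(if Yset A = ∅ then (1 : ℝ) else 0) - SR F (Yset A) R| :=
        Finset.abs_sum_le_sum_abs _ _
    _ ≤ ∑ A : Fin n → Fin k → F, (2 ^ (R + 1) * II F (Yset A) (R + 1) +
        ∑ ρ ∈ Finset.range (R + 1), 2 ^ ρ * ((Wc A ρ : ℝ) / (q - 1) ^ (ρ + 1))) :=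
        Finset.sum_le_sum fun A _ => hW A
    _ = 2 ^ (R + 1) * (∑ A : Fin n → Fin k → F, II F (Yset A) (R + 1)) +
        ∑ ρ ∈ Finset.range (R + 1), 2 ^ ρ * ((∑ A : Fin n → Fin k → F, (Wc A ρ : ℝ)) /
          (q - 1) ^ (ρ + 1)) := by
        rw [Finset.sum_add_distrib, ← Finset.mul_sum, Finset.sum_comm]
        congr 1
        apply Finset.sum_congr rfl
        intro ρ _
        rw [← Finset.mul_sum, Finset.sum_div]
    _ ≤ 2 ^ (R + 1) * (q ^ (n * k) * (al F k (R + 1) * mu F n k ^ (R + 1) /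
          ((R + 1).factorial : ℝ))) +
        ∑ ρ ∈ Finset.range (R + 1), 2 ^ ρ * ((q ^ (n * k) * ((n.choose k : ℝ) *
          ((1 + τ) ^ (n * R) - 1) * ((n.choose k : ℝ) + (q - 1)) ^ ρ)) /
          (q - 1) ^ (ρ + 1)) := by
        rw [sum_II]
        gcongr with ρ hρ
        exact sum_Wc (by rw [Finset.mem_range] at hρ; omega) h0 h1 hτ
    _ = _ := by
        rw [add_mul, Finset.sum_mul]
        congr 1
        · ring
        · apply Finset.sum_congr rfl
          intro ρ _
          unfold Lam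
          have e1 : ((n.choose k : ℝ) + (q - 1)) ^ ρ =
              ((n.choose k : ℝ) / (q - 1) + 1) ^ ρ * (q - 1) ^ ρ := by
            rw [← mul_pow]
            congr 1
            field_simp
          rw [e1, ← hq]
          have : (q - 1) ≠ 0 := hq1.ne'
          field_simp
          ring

end Pool.Agent.R143.MDS
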