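import Mathlib

/-! Independent tuples inside a finite scaling-closed set of vectors over a finite field. -/

namespace Pool.Agent.R143.MDS

open Finset Submodule Module

variable {F V : Type} [Field F] [Fintype F] [AddCommGroup V] [Module F V] [Fintype V]

open Classical in
/-- Linearly independent `r`-tuples with entries in `Y`. -/
noncomputable def T (F : Type) {V : Type} [Field F] [AddCommGroup V] [Module F V] [Fintype V]
    (Y : Finset V) (r : ℕ) : Finset (Fin r → V) :=
  Finset.univ.filter fun u => LinearIndependent F u ∧ ∀ i, u i ∈ Y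

lemma mem_T {Y : Finset V} {r : ℕ} {u : Fin r → V} :
    u ∈ T F Y r ↔ LinearIndependent F u ∧ ∀ i, u i ∈ Y := by
  simp [T]

lemma card_T_zero (Y : Finset V) : (T F Y 0).card = 1 := by
  have : T F Y 0 = {fun i => i.elim0} := by
    ext u
    simp only [mem_T, mem_singleton]
    constructor
    · intro _; exact Subsingleton.elim _ _
    · rintro rfl
      exact ⟨linearIndependent_empty_type, fun i => i.elim0⟩
  rw [this, card_singleton]

open Classical in
lemma card_T_succ (Y : Finset V) (r : ℕ) :
    (T F Y (r + 1)).card = ∑ u ∈ T F Y r, (Y.filter fun v => v ∉ span F (Set.range u)).card := by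
  have hmaps : ∀ w ∈ T F Y (r + 1), Fin.tail w ∈ T F Y r := by
    intro w hw
    rw [mem_T] at hw ⊢
    have h1 : LinearIndependent F (Fin.cons (w 0) (Fin.tail w) : Fin (r + 1) → V) := by
      rw [Fin.cons_self_tail]; exact hw.1
    exact ⟨(linearIndependent_finCons.1 h1).1, fun i => hw.2 _⟩
  rw [Finset.card_eq_sum_card_fiberwise (f := Fin.tail) (s := T F Y (r + 1)) (t := T F Y r)
    (fun w hw => hmaps w hw)]
  apply Finset.sum_congr rfl
  intro u hu
  rw [mem_T] at hu
  refine Finset.card_bij' (fun w _ => w 0) (fun v _ => Fin.cons v u) ?_ ?_ ?_ ?_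
  · intro w hw
    rw [mem_filter, mem_T] at hw
    rw [mem_filter]
    have h1 : LinearIndependent F (Fin.cons (w 0) (Fin.tail w) : Fin (r + 1) → V) := by
      rw [Fin.cons_self_tail]; exact hw.1.1
    have h2 := (linearIndependent_finCons.1 h1).2
    rw [hw.2] at h2
    exact ⟨hw.1.2 0, h2⟩
  · intro v hv
    rw [mem_filter] at hv
    rw [mem_filter, mem_T]
    refine ⟨⟨linearIndependent_finCons.2 ⟨hu.1, hv.2⟩, fun i => ?_⟩, by simp⟩
    refine Fin.cases ?_ (fun i => ?_) i
    · simpa using hv.1
    · simpa using hu.2 i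
  · intro w hw
    rw [mem_filter] at hw
    rw [← hw.2, Fin.cons_self_tail]
  · intro v hv
    simp

/-- Rank of `Y`. -/
noncomputable def rk (F : Type) {V : Type} [Field F] [AddCommGroup V] [Module F V]
    (Y : Finset V) : ℕ := finrank F (span F (Y : Set V))

lemma rk_empty : rk F (∅ : Finset V) = 0 := by
  unfold rk
  rw [Finset.coe_empty, span_empty]
  exact finrank_bot F V

lemma T_eq_empty {Y : Finset V} {r : ℕ} (h : rk F Y < r) : T F Y r = ∅ := by
  rw [Finset.eq_empty_iff_forall_notMem]
  intro u hu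
  rw [mem_T] at hu
  have h1 : finrank F (span F (Set.range u)) = r := by
    rw [finrank_span_eq_card hu.1, Fintype.card_fin]
  have h2 : span F (Set.range u) ≤ span F (Y : Set V) := by
    apply span_mono
    rintro _ ⟨i, rfl⟩
    exact hu.2 i
  have h3 := Submodule.finrank_mono h2
  unfold rk at h
  omega

open Classical in
/-- Lower bound for the number of extensions. -/
lemma ext_lower {Y : Finset V} (hY : ∀ c : F, c ≠ 0 → ∀ v ∈ Y, c • v ∈ Y) {r N : ℕ}
    (hN : N ≤ rk F Y) {u : Fin r → V} (hu : u ∈ T F Y r) :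
    (Fintype.card F - 1) * (N - r) ≤ (Y.filter fun v => v ∉ span F (Set.range u)).card := by
  rw [mem_T] at hu
  have hst : Set.range u ⊆ (Y : Set V) := by
    rintro _ ⟨i, rfl⟩
    exact hu.2 i
  obtain ⟨b, hbY, hub, hYb, hb⟩ := exists_linearIndepOn_id_extension
    (hu.1.linearIndepOn_id) hst
  have hbfin : b.Finite := Set.toFinite b
  set bf : Finset V := hbfin.toFinset with hbf
  have hbmem : ∀ x, x ∈ bf ↔ x ∈ b := fun x => hbfin.mem_toFinset
  have hcardb : N ≤ bf.card := by
    have h1 : span F (Y : Set V) ≤ span F b := span_le.2 hYb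
    have h2 := Submodule.finrank_mono h1
    have h3 : finrank F (span F b) ≤ bf.card := by
      have := finrank_span_finset_le_card (R := F) bf
      have e : (bf : Set V) = b := hbfin.coe_toFinset
      rw [Set.finrank, e] at this
      exact this
    exact hN.trans (h2.trans h3)
  set D : Finset V := bf \ (Finset.univ.image u) with hD
  have hDcard : N - r ≤ D.card := by
    have h1 := Finset.le_card_sdiff (Finset.univ.image u) bf
    have h2 : (Finset.univ.image u).card ≤ r := by
      have := Finset.card_image_le (s := (Finset.univ : Finset (Fin r))) (f := u)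
      simpa using this
    rw [hD]
    omega
  have hnot : ∀ v ∈ b, ∀ s : Set V, s ⊆ b → v ∉ s → v ∉ span F s := by
    intro v hv s hs hvs hmem
    have h1 : LinearIndepOn F id (insert v s) := hb.mono (Set.insert_subset hv hs)
    exact (h1.notMem_span_of_insert hvs) (by simpa using hmem)
  set C : Finset F := Finset.univ.filter (fun c => c ≠ 0) with hC
  have hCcard : C.card = Fintype.card F - 1 := by
    rw [hC, Finset.filter_ne' Finset.univ (0 : F), Finset.card_erase_of_mem (Finset.mem_univ _),
      Finset.card_univ]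
  calc (Fintype.card F - 1) * (N - r) ≤ C.card * D.card := by
        rw [hCcard]; exact Nat.mul_le_mul_left _ hDcard
    _ = (C ×ˢ D).card := (Finset.card_product _ _).symm
    _ = ((C ×ˢ D).image fun p => p.1 • p.2).card := by
        rw [Finset.card_image_of_injOn]
        rintro ⟨c, v⟩ h1 ⟨c', v'⟩ h2 h
        simp only [hC, hD, coe_product, Set.mem_prod, mem_coe, mem_filter, mem_univ, true_and,
          mem_sdiff, hbmem] at h1 h2
        simp only at h
        have hvv : v = v' := by
          by_contra hne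
          have h3 : v ∉ span F {v'} := hnot v h1.2.1 {v'} (by simpa using h2.2.1) (by simpa using hne)
          apply h3
          rw [mem_span_singleton]
          refine ⟨c⁻¹ * c', ?_⟩
          rw [mul_smul, ← h, smul_smul, inv_mul_cancel₀ h1.1, one_smul]
        subst hvv
        have hv0 : v ≠ 0 := by
          intro h0
          have := hnot v h1.2.1 ∅ (Set.empty_subset _) (by simp)
          apply this
          rw [h0]; exact zero_mem _
        have hcc : c = c' := by
          by_contra hne
          have : (c - c') • v = 0 := by rw [sub_smul, h, sub_self]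
          rcases smul_eq_zero.1 this with h4 | h4
          · exact hne (sub_eq_zero.1 h4)
          · exact hv0 h4
        rw [hcc]
    _ ≤ _ := by
        apply Finset.card_le_card
        intro x hx
        rw [mem_image] at hx
        obtain ⟨⟨c, v⟩, h1, rfl⟩ := hx
        simp only [hC, hD, mem_product, mem_filter, mem_univ, true_and, mem_sdiff, hbmem,
          mem_image, not_exists] at h1
        rw [mem_filter]
        refine ⟨hY c h1.1 v (hbY h1.2.1), ?_⟩
        intro hmem
        have h2 : v ∈ span F (Set.range u) := by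
          have := Submodule.smul_mem _ c⁻¹ hmem
          simpa [smul_smul, inv_mul_cancel₀ h1.1] using this
        refine hnot v h1.2.1 (Set.range u) hub ?_ h2
        rintro ⟨i, hi⟩
        exact h1.2.2 i hi

open Classical in
/-- Upper bound for the number of extensions when `Y` consists of the multiples of an independent
family. -/
lemma ext_upper {Y : Finset V} {ρ : ℕ} {e : Fin ρ → V} (he : LinearIndependent F e)
    (heY : ∀ v ∈ Y, v ≠ 0 ∧ ∃ i, ∃ c : F, v = c • e i) {r : ℕ} {u : Fin r → V}
    (hu : u ∈ T F Y r) :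
    (Y.filter fun v => v ∉ span F (Set.range u)).card ≤ (Fintype.card F - 1) * (ρ - r) := by
  rw [mem_T] at hu
  choose σ c hσ using fun j => (heY (u j) (hu.2 j)).2
  have hσinj : Function.Injective σ := by
    intro a b hab
    by_contra hne
    have h1 := hu.1
    have hcb : c b ≠ 0 := by
      intro h0
      have := (heY (u b) (hu.2 b)).1
      rw [hσ b, h0, zero_smul] at this
      exact this rfl
    -- `u a` is a multiple of `u b`
    have h2 : u a = (c a * (c b)⁻¹) • u b := by
      rw [hσ a, hσ b, smul_smul, mul_assoc, inv_mul_cancel₀ hcb, mul_one, hab]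
    have h3 : u a ∈ span F (u '' {b}) := by
      rw [Set.image_singleton, mem_span_singleton]
      exact ⟨_, h2.symm⟩
    exact h1.notMem_span_image (s := {b}) (by simpa using hne) h3
  have hmem : ∀ j, e (σ j) ∈ span F (Set.range u) := by
    intro j
    have hcj : c j ≠ 0 := by
      intro h0
      have := (heY (u j) (hu.2 j)).1
      rw [hσ j, h0, zero_smul] at this
      exact this rfl
    have : e (σ j) = (c j)⁻¹ • u j := by
      rw [hσ j, smul_smul, inv_mul_cancel₀ hcj, one_smul]
    rw [this]
    exact Submodule.smul_mem _ _ (subset_span ⟨j, rfl⟩)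
  set C : Finset F := Finset.univ.filter (fun c => c ≠ 0) with hC
  have hCcard : C.card = Fintype.card F - 1 := by
    rw [hC, Finset.filter_ne' Finset.univ (0 : F), Finset.card_erase_of_mem (Finset.mem_univ _),
      Finset.card_univ]
  set D : Finset (Fin ρ) := Finset.univ \ (Finset.univ.image σ) with hD
  have hDcard : D.card = ρ - r := by
    rw [hD, Finset.card_sdiff_of_subset (Finset.subset_univ _),
      Finset.card_image_of_injective _ hσinj]
    simp
  calc _ ≤ ((C ×ˢ D).image fun p => p.1 • e p.2).card := by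
        apply Finset.card_le_card
        intro v hv
        rw [mem_filter] at hv
        obtain ⟨hv0, i, d, hvi⟩ := heY v hv.1
        rw [mem_image]
        refine ⟨(d, i), ?_, hvi.symm⟩
        rw [mem_product, hC, hD]
        simp only [mem_filter, mem_univ, true_and, mem_sdiff, mem_image, not_exists]
        constructor
        · rintro rfl
          exact hv0 (by rw [hvi, zero_smul])
        · intro j hj
          apply hv.2
          rw [hvi, ← hj]
          exact Submodule.smul_mem _ _ (hmem j)
    _ ≤ (C ×ˢ D).card := Finset.card_image_le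
    _ = (Fintype.card F - 1) * (ρ - r) := by rw [Finset.card_product, hCcard, hDcard]

/-- Number of independent tuples, free case. -/
lemma card_T_free {Y : Finset V} (hY : ∀ c : F, c ≠ 0 → ∀ v ∈ Y, c • v ∈ Y) {ρ : ℕ}
    {e : Fin ρ → V} (he : LinearIndependent F e)
    (heY : ∀ v ∈ Y, v ≠ 0 ∧ ∃ i, ∃ c : F, v = c • e i) (heY' : ∀ i, e i ∈ Y) (r : ℕ) :
    (T F Y r).card = (Fintype.card F - 1) ^ r * ρ.descFactorial r := by
  classical
  have hrk : ρ ≤ rk F Y := by
    have h1 : finrank F (span F (Set.range e)) = ρ := by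
      rw [finrank_span_eq_card he, Fintype.card_fin]
    have h2 : span F (Set.range e) ≤ span F (Y : Set V) := by
      apply span_mono
      rintro _ ⟨i, rfl⟩
      exact heY' i
    have h3 := Submodule.finrank_mono h2
    unfold rk
    omega
  induction r with
  | zero => simp [card_T_zero]
  | succ r ih =>
    rw [card_T_succ]
    have : ∀ u ∈ T F Y r, (Y.filter fun v => v ∉ span F (Set.range u)).card =
        (Fintype.card F - 1) * (ρ - r) := fun u hu =>
      le_antisymm (ext_upper he heY hu) (ext_lower hY hrk hu)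
    rw [Finset.sum_congr rfl this, Finset.sum_const, ih, smul_eq_mul, Nat.descFactorial_succ]
    ring

lemma card_T_lower {Y : Finset V} (hY : ∀ c : F, c ≠ 0 → ∀ v ∈ Y, c • v ∈ Y) {N : ℕ}
    (hN : N ≤ rk F Y) (r : ℕ) :
    (T F Y r).card * ((Fintype.card F - 1) * (N - r)) ≤ (T F Y (r + 1)).card := by
  classical
  rw [card_T_succ, ← smul_eq_mul, ← Finset.sum_const]
  exact Finset.sum_le_sum fun u hu => ext_lower hY hN hu

/-- Normalised number of independent `r`-sets of lines. -/
noncomputable def II (F : Type) {V : Type} [Field F] [Fintype F] [AddCommGroup V] [Module F V]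
    [Fintype V] (Y : Finset V) (r : ℕ) : ℝ :=
  ((T F Y r).card : ℝ) / (((Fintype.card F : ℝ) - 1) ^ r * (r.factorial : ℝ))

lemma q_sub_one_pos (F : Type) [Field F] [Fintype F] : 0 < (Fintype.card F : ℝ) - 1 := by
  have : 1 < Fintype.card F := Fintype.one_lt_card
  have : (1 : ℝ) < (Fintype.card F : ℝ) := by exact_mod_cast this
  linarith

lemma cast_q_sub (F : Type) [Field F] [Fintype F] :
    ((Fintype.card F - 1 : ℕ) : ℝ) = (Fintype.card F : ℝ) - 1 := by
  rw [Nat.cast_sub Fintype.one_lt_card.le, Nat.cast_one]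

lemma II_nonneg (Y : Finset V) (r : ℕ) : 0 ≤ II F Y r := by
  have := q_sub_one_pos F
  unfold II
  positivity

lemma II_free {Y : Finset V} (hY : ∀ c : F, c ≠ 0 → ∀ v ∈ Y, c • v ∈ Y) {ρ : ℕ}
    {e : Fin ρ → V} (he : LinearIndependent F e)
    (heY : ∀ v ∈ Y, v ≠ 0 ∧ ∃ i, ∃ c : F, v = c • e i) (heY' : ∀ i, e i ∈ Y) (r : ℕ) :
    II F Y r = (ρ.choose r : ℝ) := by
  have hq := q_sub_one_pos F
  unfold II
  rw [card_T_free hY he heY heY', Nat.descFactorial_eq_factorial_mul_choose]
  push_cast
  rw [cast_q_sub]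
  have : (r.factorial : ℝ) ≠ 0 := by positivity
  field_simp

lemma II_step {Y : Finset V} (hY : ∀ c : F, c ≠ 0 → ∀ v ∈ Y, c • v ∈ Y) {N : ℕ}
    (hN : N ≤ rk F Y) {r : ℕ} (hr : r ≤ N) :
    II F Y r * ((N : ℝ) - r) ≤ ((r : ℝ) + 1) * II F Y (r + 1) := by
  have hq := q_sub_one_pos F
  have h := card_T_lower hY hN r
  have h' : ((T F Y r).card : ℝ) * (((Fintype.card F : ℝ) - 1) * ((N : ℝ) - r)) ≤
      ((T F Y (r + 1)).card : ℝ) := by
    have : (((T F Y r).card * ((Fintype.card F - 1) * (N - r)) : ℕ) : ℝ) ≤
      ((T F Y (r + 1)).card : ℝ) := by exact_mod_cast h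
    push_cast at this
    rw [cast_q_sub, Nat.cast_sub hr] at this
    exact this
  unfold II
  rw [Nat.factorial_succ]
  push_cast
  have hf : (0 : ℝ) < (r.factorial : ℝ) := by positivity
  have e1 : ((T F Y r).card : ℝ) / (((Fintype.card F : ℝ) - 1) ^ r * (r.factorial : ℝ)) *
      ((N : ℝ) - r) = (((T F Y r).card : ℝ) * (((Fintype.card F : ℝ) - 1) * ((N : ℝ) - r))) /
        (((Fintype.card F : ℝ) - 1) ^ (r + 1) * (r.factorial : ℝ)) := by
    field_simp
    ring
  have e2 : ((r : ℝ) + 1) * (((T F Y (r + 1)).card : ℝ) /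
      (((Fintype.card F : ℝ) - 1) ^ (r + 1) * (((r : ℝ) + 1) * (r.factorial : ℝ)))) =
      ((T F Y (r + 1)).card : ℝ) / (((Fintype.card F : ℝ) - 1) ^ (r + 1) * (r.factorial : ℝ)) := by
    field_simp
  rw [e1, e2]
  gcongr

lemma II_le {Y : Finset V} (hY : ∀ c : F, c ≠ 0 → ∀ v ∈ Y, c • v ∈ Y) {N : ℕ}
    (hN : N ≤ rk F Y) {r : ℕ} (hr : r ≤ N) : II F Y r ≤ (N.choose r : ℝ) * II F Y N := by
  induction hd : N - r generalizing r with
  | zero =>
    have : r = N := by omega
    subst this
    simp
  | succ d ih =>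
    have hr' : r + 1 ≤ N := by omega
    have h1 := ih hr' (by omega)
    have h2 := II_step hY hN hr
    have h3 : ((N.choose (r + 1) : ℝ)) * ((r : ℝ) + 1) = (N.choose r : ℝ) * ((N : ℝ) - r) := by
      have := Nat.choose_succ_right_eq N r
      have h4 : ((N.choose (r + 1) * (r + 1) : ℕ) : ℝ) = ((N.choose r * (N - r) : ℕ) : ℝ) := by
        exact_mod_cast this
      push_cast at h4
      rw [Nat.cast_sub hr] at h4
      exact h4
    have h5 : (0 : ℝ) < (N : ℝ) - r := by
      have : (r : ℝ) + 1 ≤ N := by exact_mod_cast hr'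
      linarith
    have h6 : II F Y r * ((N : ℝ) - r) ≤ ((N.choose r : ℝ) * II F Y N) * ((N : ℝ) - r) := by
      calc II F Y r * ((N : ℝ) - r) ≤ ((r : ℝ) + 1) * II F Y (r + 1) := h2
        _ ≤ ((r : ℝ) + 1) * ((N.choose (r + 1) : ℝ) * II F Y N) := by gcongr
        _ = ((N.choose (r + 1) : ℝ) * ((r : ℝ) + 1)) * II F Y N := by ring
        _ = _ := by rw [h3]; ring
    exact le_of_mul_le_mul_right h6 h5

/-- Truncated alternating sum. -/
noncomputable def SR (F : Type) {V : Type} [Field F] [Fintype F] [AddCommGroup V] [Module F V]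
    [Fintype V] (Y : Finset V) (R : ℕ) : ℝ := ∑ r ∈ Finset.range (R + 1), (-1) ^ r * II F Y r

lemma abs_SR_le {Y : Finset V} (hY : ∀ c : F, c ≠ 0 → ∀ v ∈ Y, c • v ∈ Y) {N R : ℕ}
    (hN : N ≤ rk F Y) (h : ∀ r ∈ Finset.range (R + 1), N < r → II F Y r = 0) :
    |SR F Y R| ≤ 2 ^ N * II F Y N := by
  calc |SR F Y R| ≤ ∑ r ∈ Finset.range (R + 1), |(-1) ^ r * II F Y r| :=
        Finset.abs_sum_le_sum_abs _ _
    _ = ∑ r ∈ Finset.range (R + 1), II F Y r := by
        apply Finset.sum_congr rfl
        intro r _
        rw [abs_mul, abs_pow, abs_neg, abs_one, one_pow, one_mul, abs_of_nonneg (II_nonneg Y r)]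
    _ ≤ ∑ r ∈ Finset.range (R + 1), (N.choose r : ℝ) * II F Y N := by
        apply Finset.sum_le_sum
        intro r hr
        rcases le_or_gt r N with h' | h'
        · exact II_le hY hN h'
        · rw [h r hr h']
          exact mul_nonneg (by positivity) (II_nonneg Y N)
    _ = (∑ r ∈ Finset.range (R + 1), (N.choose r : ℝ)) * II F Y N := by rw [Finset.sum_mul]
    _ ≤ 2 ^ N * II F Y N := by
        apply mul_le_mul_of_nonneg_right _ (II_nonneg Y N)
        have h1 : ∑ r ∈ Finset.range (R + 1), (N.choose r : ℝ) ≤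
            ∑ r ∈ Finset.range (N + 1), (N.choose r : ℝ) := by
          have h2 : ∑ r ∈ Finset.range (R + 1), (N.choose r : ℝ) ≤
              ∑ r ∈ Finset.range (max R N + 1), (N.choose r : ℝ) := by
            apply Finset.sum_le_sum_of_subset_of_nonneg
            · intro r hr
              rw [Finset.mem_range] at hr ⊢
              have := le_max_left R N
              omega
            · intros; positivity
          refine h2.trans (le_of_eq ?_)
          symm
          apply Finset.sum_subset
          · intro r hr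
            rw [Finset.mem_range] at hr ⊢
            have := le_max_right R N
            omega
          · intro r _ hr
            rw [Finset.mem_range] at hr
            rw [Nat.choose_eq_zero_of_lt (by omega)]; simp
        refine h1.trans (le_of_eq ?_)
        have := Nat.sum_range_choose N
        exact_mod_cast this

lemma SR_free {Y : Finset V} (hY : ∀ c : F, c ≠ 0 → ∀ v ∈ Y, c • v ∈ Y) {ρ R : ℕ}
    (hρ : ρ ≤ R) {e : Fin ρ → V} (he : LinearIndependent F e)
    (heY : ∀ v ∈ Y, v ≠ 0 ∧ ∃ i, ∃ c : F, v = c • e i) (heY' : ∀ i, e i ∈ Y) :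
    SR F Y R = if ρ = 0 then 1 else 0 := by
  unfold SR
  have h1 : ∀ r ∈ Finset.range (R + 1), (-1) ^ r * II F Y r = (-1) ^ r * (ρ.choose r : ℝ) :=
    fun r _ => by rw [II_free hY he heY heY']
  rw [Finset.sum_congr rfl h1]
  have h2 : ∑ r ∈ Finset.range (R + 1), (-1) ^ r * (ρ.choose r : ℝ) =
      ∑ r ∈ Finset.range (ρ + 1), (-1) ^ r * (ρ.choose r : ℝ) := by
    symm
    apply Finset.sum_subset
    · intro r hr
      rw [Finset.mem_range] at hr ⊢
      omega
    · intro r _ hr
      rw [Finset.mem_range] at hr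
      rw [Nat.choose_eq_zero_of_lt (by omega)]; simp
  rw [h2]
  have h3 := @Int.alternating_sum_range_choose ρ
  have h4 : ((∑ r ∈ Finset.range (ρ + 1), (-1) ^ r * (ρ.choose r : ℤ) : ℤ) : ℝ) =
      ((if ρ = 0 then 1 else 0 : ℤ) : ℝ) := by rw [h3]
  push_cast at h4
  exact h4

/-- Deterministic inequality. `W ρ` is any quantity bounding the number of bases of `Y` when `Y`
is not free. -/
lemma det_ineq {Y : Finset V} (hY0 : ∀ v ∈ Y, v ≠ 0)
    (hY : ∀ c : F, c ≠ 0 → ∀ v ∈ Y, c • v ∈ Y) (R : ℕ) (W : ℕ → ℝ) (hW0 : ∀ ρ, 0 ≤ W ρ)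
    (hW : rk F Y ≤ R → (∀ u ∈ T F Y (rk F Y), ∃ v ∈ Y, ∀ i, ∀ c : F, v ≠ c • u i) →
      ((T F Y (rk F Y)).card : ℝ) / ((Fintype.card F : ℝ) - 1) ^ (rk F Y) ≤ W (rk F Y))
    [Decidable (Y = ∅)] :
    |(if Y = ∅ then (1 : ℝ) else 0) - SR F Y R| ≤
      2 ^ (R + 1) * II F Y (R + 1) + ∑ ρ ∈ Finset.range (R + 1), 2 ^ ρ * W ρ := by
  have hsum0 : 0 ≤ ∑ ρ ∈ Finset.range (R + 1), 2 ^ ρ * W ρ :=
    Finset.sum_nonneg fun ρ _ => mul_nonneg (by positivity) (hW0 ρ)
  have hI0 : 0 ≤ 2 ^ (R + 1) * II F Y (R + 1) := mul_nonneg (by positivity) (II_nonneg _ _)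
  rcases Nat.lt_or_ge R (rk F Y) with hcase | hcase
  · have hne : Y ≠ ∅ := by
      rintro rfl
      rw [rk_empty] at hcase
      omega
    rw [if_neg hne, zero_sub, abs_neg]
    have := abs_SR_le hY (N := R + 1) (R := R) hcase (fun r hr h => by
      rw [Finset.mem_range] at hr; omega)
    linarith
  · by_cases hfree : ∃ u ∈ T F Y (rk F Y), ∀ v ∈ Y, ∃ i, ∃ c : F, v = c • u i
    · obtain ⟨u, hu, hv⟩ := hfree
      have hu' := mem_T.1 hu
      have h1 := SR_free hY hcase hu'.1 (fun v hv' => ⟨hY0 v hv', hv v hv'⟩) hu'.2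
      have h2 : Y = ∅ ↔ rk F Y = 0 := by
        constructor
        · intro h
          rw [h]
          exact rk_empty
        · intro h
          rw [Finset.eq_empty_iff_forall_notMem]
          intro v hvY
          obtain ⟨i, _⟩ := hv v hvY
          exact (Fin.cast h i).elim0
      rw [h1]
      simp only [h2]
      by_cases h3 : rk F Y = 0
      · simp only [h3, if_true, sub_self, abs_zero]; linarith
      · simp only [h3, if_false, sub_self, abs_zero]; linarith
    · push Not at hfree
      have h1 := hW hcase hfree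
      have hne : Y ≠ ∅ := by
        rintro rfl
        have hrk0 : rk F (∅ : Finset V) = 0 := rk_empty
        obtain ⟨v, hv, _⟩ := hfree (fun i => (Fin.cast hrk0 i).elim0) (by
          rw [mem_T]
          have : IsEmpty (Fin (rk F (∅ : Finset V))) := by rw [hrk0]; infer_instance
          exact ⟨linearIndependent_empty_type, fun i => (Fin.cast hrk0 i).elim0⟩)
        simp at hv
      rw [if_neg hne, zero_sub, abs_neg]
      have h2 := abs_SR_le hY (N := rk F Y) (R := R) le_rfl (fun r hr h => by
        unfold II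
        rw [T_eq_empty h]; simp)
      have h3 : II F Y (rk F Y) ≤ W (rk F Y) := by
        refine le_trans ?_ h1
        unfold II
        have hq := q_sub_one_pos F
        apply div_le_div_of_nonneg_left (by positivity) (by positivity)
        have : (1 : ℝ) ≤ ((rk F Y).factorial : ℝ) := by exact_mod_cast Nat.factorial_pos _
        nlinarith [pow_pos hq (rk F Y)]
      have h4 : 2 ^ (rk F Y) * W (rk F Y) ≤ ∑ ρ ∈ Finset.range (R + 1), 2 ^ ρ * W ρ := by
        apply Finset.single_le_sum (f := fun ρ => 2 ^ ρ * W ρ)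
          (fun ρ _ => mul_nonneg (by positivity) (hW0 ρ))
        rw [Finset.mem_range]; omega
      have h5 : (2 : ℝ) ^ (rk F Y) * II F Y (rk F Y) ≤ 2 ^ (rk F Y) * W (rk F Y) := by gcongr
      linarith

end Pool.Agent.R143.MDS
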