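import Pool.Agent.R143.MDS.Defs
import Pool.Agent.R143.MDS.Det

/-! Counting matrices. -/

namespace Pool.Agent.R143.MDS

open Finset Submodule Module

variable {F : Type} [Field F] [Fintype F] [DecidableEq F] {n k : ℕ}

/-- Table of inner products. -/
def tab {ρ : ℕ} (A : Fin n → Fin k → F) (u : Fin ρ → Fin k → F) : Fin n → Fin ρ → F :=
  fun x i => u i ⬝ᵥ A x

lemma col_surjective {ρ : ℕ} {u : Fin ρ → Fin k → F} (hu : LinearIndependent F u) :
    Function.Surjective (fun a : Fin k → F => fun i => u i ⬝ᵥ a) := by
  set M : Matrix (Fin ρ) (Fin k) F := Matrix.of u with hM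
  have h1 : M.rank = Fintype.card (Fin ρ) := LinearIndependent.rank_matrix (M := M) hu
  have h2 : LinearMap.range M.mulVecLin = ⊤ := by
    apply Submodule.eq_top_of_finrank_eq
    rw [Module.finrank_fintype_fun_eq_card]
    exact h1
  have h3 := LinearMap.range_eq_top.1 h2
  intro b
  obtain ⟨a, ha⟩ := h3 b
  exact ⟨a, ha⟩

/-- `tab` as an additive homomorphism. -/
def tabHom {ρ : ℕ} (u : Fin ρ → Fin k → F) : (Fin n → Fin k → F) →+ (Fin n → Fin ρ → F) where
  toFun A := tab A u
  map_zero' := by
    funext x i; simp [tab]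
  map_add' A A' := by
    funext x i; simp [tab, dotProduct_add]

lemma tabHom_surjective {ρ : ℕ} {u : Fin ρ → Fin k → F} (hu : LinearIndependent F u) :
    Function.Surjective (tabHom (n := n) u) := by
  intro B
  choose a ha using fun x => col_surjective hu (B x)
  exact ⟨a, funext fun x => ha x⟩

open Classical in
/-- Uniformity of the table of inner products. -/
lemma card_tab {ρ : ℕ} {u : Fin ρ → Fin k → F} (hu : LinearIndependent F u)
    (P : (Fin n → Fin ρ → F) → Prop) :
    (Finset.univ.filter fun A : Fin n → Fin k → F => P (tab A u)).card *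
        (Fintype.card F) ^ (n * ρ) =
      (Fintype.card F) ^ (n * k) * (Finset.univ.filter P).card := by
  set c : ℕ := (Finset.univ.filter fun A : Fin n → Fin k → F => tabHom u A = 0).card with hc
  have hfib : ∀ B : Fin n → Fin ρ → F,
      (Finset.univ.filter fun A : Fin n → Fin k → F => tabHom u A = B).card = c := by
    intro B
    exact AddMonoidHom.card_fiber_eq_of_mem_range (tabHom u) (tabHom_surjective hu B)
      (tabHom_surjective hu 0)
  have hgen : ∀ P : (Fin n → Fin ρ → F) → Prop,
      (Finset.univ.filter fun A : Fin n → Fin k → F => P (tab A u)).card =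
        (Finset.univ.filter P).card * c := by
    intro P
    rw [Finset.card_eq_sum_card_fiberwise (f := fun A : Fin n → Fin k → F => tabHom u A)
      (t := Finset.univ.filter P) (fun A hA => by
        simp only [coe_filter, mem_univ, true_and, Set.mem_ofPred_eq] at hA ⊢
        exact hA)]
    rw [← smul_eq_mul, ← Finset.sum_const]
    apply Finset.sum_congr rfl
    intro B hB
    rw [← hfib B]
    congr 1
    ext A
    simp only [mem_filter, mem_univ, true_and] at hB ⊢
    constructor
    · exact fun h => h.2
    · intro h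
      refine ⟨?_, h⟩
      have : tab A u = B := h
      rw [this]; exact hB
  have htot := hgen (fun _ => True)
  simp only [Finset.filter_true, Finset.card_univ, Fintype.card_fun, Fintype.card_fin] at htot
  rw [hgen P]
  have e1 : (Fintype.card F) ^ (n * k) = ((Fintype.card F) ^ k) ^ n := by rw [← pow_mul, mul_comm]
  have e2 : (Fintype.card F) ^ (n * ρ) = ((Fintype.card F) ^ ρ) ^ n := by rw [← pow_mul, mul_comm]
  rw [e1, e2, htot]
  ring

/-- The set of nonzero `u` whose codeword has at least `k` zeros. -/
def Yset (A : Fin n → Fin k → F) : Finset (Fin k → F) :=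
  Finset.univ.filter fun u => u ≠ 0 ∧ k ≤ (zset A u).card

lemma mem_Yset {A : Fin n → Fin k → F} {u : Fin k → F} :
    u ∈ Yset A ↔ u ≠ 0 ∧ k ≤ (zset A u).card := by simp [Yset]

lemma mem_zset {A : Fin n → Fin k → F} {u : Fin k → F} {x : Fin n} :
    x ∈ zset A u ↔ u ⬝ᵥ A x = 0 := by simp [zset]

lemma zset_smul (A : Fin n → Fin k → F) {c : F} (hc : c ≠ 0) (u : Fin k → F) :
    zset A (c • u) = zset A u := by
  ext x
  rw [mem_zset, mem_zset, smul_dotProduct, smul_eq_mul]
  simp [hc]

lemma Yset_smul (A : Fin n → Fin k → F) : ∀ c : F, c ≠ 0 → ∀ v ∈ Yset A, c • v ∈ Yset A := by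
  intro c hc v hv
  rw [mem_Yset] at hv ⊢
  rw [zset_smul A hc]
  exact ⟨smul_ne_zero hc hv.1, hv.2⟩

lemma good_iff_Yset (A : Fin n → Fin k → F) : Good A ↔ Yset A = ∅ := by
  rw [Finset.eq_empty_iff_forall_notMem]
  constructor
  · intro h u hu
    rw [mem_Yset] at hu
    exact absurd (h u hu.1) (by omega)
  · intro h u hu
    by_contra hcon
    exact h u (mem_Yset.2 ⟨hu, by omega⟩)

/-- Number of vectors of `F ^ n` with at least `k` zeros. -/
def ZZ (F : Type) [Field F] [Fintype F] [DecidableEq F] (n k : ℕ) : ℕ :=
  (Finset.univ.filter fun x : Fin n → F => k ≤ (Finset.univ.filter fun i => x i = 0).card).card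

open Classical in
/-- Number of independent tuples. -/
noncomputable def ci (F : Type) [Field F] [Fintype F] (k r : ℕ) : ℕ :=
  (Finset.univ.filter fun u : Fin r → Fin k → F => LinearIndependent F u).card

open Classical in
lemma card_rows (r : ℕ) :
    (Finset.univ.filter fun B : Fin n → Fin r → F =>
      ∀ i, k ≤ (Finset.univ.filter fun x => B x i = 0).card).card = ZZ F n k ^ r := by
  have h1 : (Fintype.piFinset fun _ : Fin r => (Finset.univ.filter fun x : Fin n → F =>
      k ≤ (Finset.univ.filter fun i => x i = 0).card)).card = ZZ F n k ^ r := by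
    rw [Fintype.card_piFinset_const]; rfl
  rw [← h1]
  refine Finset.card_bij' (fun B _ => fun i x => B x i) (fun C _ => fun x i => C i x) ?_ ?_ ?_ ?_
  · intro B hB
    simp only [mem_filter, mem_univ, true_and, Fintype.mem_piFinset] at hB ⊢
    exact hB
  · intro C hC
    simp only [mem_filter, mem_univ, true_and, Fintype.mem_piFinset] at hC ⊢
    exact hC
  · intro _ _; rfl
  · intro _ _; rfl

open Classical in
lemma card_T_sum (r : ℕ) :
    (∑ A : Fin n → Fin k → F, (T F (Yset A) r).card) * (Fintype.card F) ^ (n * r) =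
      ci F k r * ((Fintype.card F) ^ (n * k) * ZZ F n k ^ r) := by
  have h1 : ∑ A : Fin n → Fin k → F, (T F (Yset A) r).card =
      ∑ u ∈ (Finset.univ.filter fun u : Fin r → Fin k → F => LinearIndependent F u),
        (Finset.univ.filter fun A : Fin n → Fin k → F =>
          ∀ i, k ≤ (Finset.univ.filter fun x => tab A u x i = 0).card).card := by
    have e1 : ∀ A : Fin n → Fin k → F, (T F (Yset A) r).card =
        ∑ u ∈ (Finset.univ.filter fun u : Fin r → Fin k → F => LinearIndependent F u),
          if (∀ i, k ≤ (Finset.univ.filter fun x => tab A u x i = 0).card) then 1 else 0 := by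
      intro A
      rw [← Finset.card_filter, Finset.filter_filter]
      congr 1
      ext u
      rw [mem_T]
      simp only [mem_filter, mem_univ, true_and]
      constructor
      · rintro ⟨h, h'⟩
        exact ⟨h, fun i => (mem_Yset.1 (h' i)).2⟩
      · rintro ⟨h, h'⟩
        exact ⟨h, fun i => mem_Yset.2 ⟨h.ne_zero i, h' i⟩⟩
    simp_rw [e1]
    rw [Finset.sum_comm]
    apply Finset.sum_congr rfl
    intro u _
    rw [Finset.card_filter]
  rw [h1, Finset.sum_mul]
  have h2 : ∀ u ∈ (Finset.univ.filter fun u : Fin r → Fin k → F => LinearIndependent F u),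
      (Finset.univ.filter fun A : Fin n → Fin k → F =>
          ∀ i, k ≤ (Finset.univ.filter fun x => tab A u x i = 0).card).card *
        (Fintype.card F) ^ (n * r) = (Fintype.card F) ^ (n * k) * ZZ F n k ^ r := by
    intro u hu
    rw [mem_filter] at hu
    have h3 := card_tab (n := n) hu.2
      (fun B => ∀ i, k ≤ (Finset.univ.filter fun x => B x i = 0).card)
    have h4 := card_rows (F := F) (n := n) (k := k) r
    rw [← h4]
    convert h3
  rw [Finset.sum_congr rfl h2, Finset.sum_const, smul_eq_mul]
  rfl

end Pool.Agent.R143.MDS
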