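import Mathlib

/-! Random linear codes and MDS codes: definitions. -/

namespace Pool.Agent.R143.MDS

open Filter Topology

/-- `C` is maximum distance separable: its minimum Hamming distance is `n - dim C + 1`. -/
def IsMDS {F : Type} [Field F] [DecidableEq F] {n : ℕ} (C : Submodule F (Fin n → F)) : Prop :=
  IsLeast {d : ℕ | ∃ x ∈ C, ∃ y ∈ C, x ≠ y ∧ hammingDist x y = d}
    (n - Module.finrank F C + 1)

/-- The probability that a uniformly random `k`-dimensional subspace of `F ^ n` is MDS. -/
noncomputable def mdsProb (F : Type) [Field F] [Fintype F] [DecidableEq F] (n k : ℕ) : ℝ :=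
  (Nat.card {C : Submodule F (Fin n → F) // Module.finrank F C = k ∧ IsMDS C} : ℝ) /
    (Nat.card {C : Submodule F (Fin n → F) // Module.finrank F C = k} : ℝ)

/-- For a `k × n` matrix given by its columns `A i`, the set of zero coordinates of the codeword
`u ᵀ A`. -/
def zset {F : Type} [Field F] [DecidableEq F] {n k : ℕ} (A : Fin n → Fin k → F)
    (u : Fin k → F) : Finset (Fin n) := Finset.univ.filter fun i => u ⬝ᵥ A i = 0

/-- No nonzero `u ᵀ A` has `k` or more zero coordinates (equivalently every `k` columns are
linearly independent). -/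
def Good {F : Type} [Field F] [DecidableEq F] {n k : ℕ} (A : Fin n → Fin k → F) : Prop :=
  ∀ u : Fin k → F, u ≠ 0 → (zset A u).card < k

/-- The probability that a uniformly random matrix is good. -/
noncomputable def gp (F : Type) [Field F] [Fintype F] [DecidableEq F] (n k : ℕ) : ℝ :=
  (Nat.card {A : Fin n → Fin k → F // Good A} : ℝ) / (Fintype.card F : ℝ) ^ (n * k)

end Pool.Agent.R143.MDS
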