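import Mathlib
import Pool.Agent.R143.MDS.Defs

/-! Singleton bound and the weight criterion for MDS codes (helper971). -/

namespace Pool.Agent.R143.MDS

open Filter Topology

variable {F : Type} [Field F] [DecidableEq F]

omit [DecidableEq F] in
/-- A code of dimension larger than `card R` has a nonzero word vanishing on `R`. -/
theorem exists_vanish {n : ℕ} (C : Submodule F (Fin n → F)) (R : Finset (Fin n))
    (h : R.card < Module.finrank F C) : ∃ x ∈ C, x ≠ 0 ∧ ∀ i ∈ R, x i = 0 := by
  let ρ : C →ₗ[F] (R → F) := (LinearMap.funLeft F F (fun i : R => (i : Fin n))).comp C.subtype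
  have hk : LinearMap.ker ρ ≠ ⊥ := LinearMap.ker_ne_bot_of_finrank_lt (by simpa using h)
  obtain ⟨x, hx, hx0⟩ := (Submodule.ne_bot_iff _).1 hk
  refine ⟨x.1, x.2, fun h0 => hx0 (Subtype.ext h0), fun i hi => ?_⟩
  have := congrFun (LinearMap.mem_ker.1 hx) ⟨i, hi⟩
  simpa [ρ, LinearMap.funLeft_apply] using this

theorem hammingNorm_add_zeros {n : ℕ} (x : Fin n → F) :
    hammingNorm x + (Finset.univ.filter fun i => x i = 0).card = n := by
  unfold hammingNorm
  have := Finset.card_filter_add_card_filter_not (s := (Finset.univ : Finset (Fin n)))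
    (fun i => x i ≠ 0)
  simpa using this

theorem isMDS_iff {n k : ℕ} (hk : 1 ≤ k) (hkn : k ≤ n) (C : Submodule F (Fin n → F))
    (hC : Module.finrank F C = k) :
    IsMDS C ↔ ∀ x ∈ C, x ≠ 0 → n - k + 1 ≤ hammingNorm x := by
  unfold IsMDS
  rw [hC]
  constructor
  · intro h x hx hx0
    exact h.2 ⟨x, hx, 0, C.zero_mem, hx0, by rw [hammingDist_zero_right]⟩
  · intro h
    constructor
    · obtain ⟨R, -, hR⟩ := Finset.exists_subset_card_eq
        (s := (Finset.univ : Finset (Fin n))) (n := k - 1) (by simp; omega)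
      obtain ⟨x, hx, hx0, hxR⟩ := exists_vanish C R (by rw [hR, hC]; omega)
      refine ⟨x, hx, 0, C.zero_mem, hx0, ?_⟩
      rw [hammingDist_zero_right]
      have h1 := h x hx hx0
      have h2 := hammingNorm_add_zeros x
      have h3 : R.card ≤ (Finset.univ.filter fun i => x i = 0).card :=
        Finset.card_le_card fun i hi => by simpa using hxR i hi
      omega
    · rintro d ⟨x, hx, y, hy, hxy, rfl⟩
      rw [hammingDist_eq_hammingNorm]
      exact h _ (C.add_mem (C.neg_mem hx) hy) (fun h0 => hxy (neg_add_eq_zero.1 h0))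

end Pool.Agent.R143.MDS
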