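import Mathlib
import Pool.Agent.R143.MDS.Defs
import Pool.Agent.R143.MDS.Sing

/-! Duality of MDS codes (helper971). -/

namespace Pool.Agent.R143.MDS

open Filter Topology

variable {F : Type} [Field F] [DecidableEq F]

/-- The dot product as a bilinear form. -/
noncomputable def dotB (F : Type) [Field F] (n : ℕ) : LinearMap.BilinForm F (Fin n → F) :=
  Matrix.toBilin' (1 : Matrix (Fin n) (Fin n) F)

omit [DecidableEq F] in
theorem dotB_apply {n : ℕ} (x y : Fin n → F) : dotB F n x y = x ⬝ᵥ y := by
  unfold dotB
  rw [Matrix.toBilin'_apply']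
  simp

omit [DecidableEq F] in
theorem dotB_nondeg (n : ℕ) : (dotB F n).Nondegenerate :=
  LinearMap.BilinForm.nondegenerate_toBilin'_of_det_ne_zero' _ (by simp)

omit [DecidableEq F] in
theorem dotB_refl (n : ℕ) : (dotB F n).IsRefl := by
  intro x y h
  rw [dotB_apply] at h ⊢
  rw [dotProduct_comm]
  exact h

/-- The dual code. -/
noncomputable def dual {n : ℕ} (C : Submodule F (Fin n → F)) : Submodule F (Fin n → F) :=
  (dotB F n).orthogonal C

omit [DecidableEq F] in
theorem dual_dual {n : ℕ} (C : Submodule F (Fin n → F)) : dual (dual C) = C :=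
  LinearMap.BilinForm.orthogonal_orthogonal (dotB_nondeg n) (dotB_refl n) C

omit [DecidableEq F] in
theorem finrank_dual {n : ℕ} (C : Submodule F (Fin n → F)) :
    Module.finrank F (dual C) = n - Module.finrank F C := by
  have := LinearMap.BilinForm.finrank_orthogonal (dotB_nondeg (F := F) n) C
  rw [Module.finrank_fin_fun] at this
  exact this

theorem dual_weight {n k : ℕ} (hkn : k ≤ n) (C : Submodule F (Fin n → F))
    (hC : Module.finrank F C = k) (h : ∀ x ∈ C, x ≠ 0 → n - k + 1 ≤ hammingNorm x) :
    ∀ y ∈ dual C, y ≠ 0 → k + 1 ≤ hammingNorm y := by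
  intro y hy hy0
  by_contra hlt
  push Not at hlt
  have h1 : (Finset.univ.filter fun i => y i ≠ 0).card ≤ k := by
    have : hammingNorm y = (Finset.univ.filter fun i => y i ≠ 0).card := rfl
    omega
  obtain ⟨S, hS, -, hSc⟩ := Finset.exists_subsuperset_card_eq
    (Finset.subset_univ (Finset.univ.filter fun i => y i ≠ 0)) h1 (by simpa using hkn)
  let ρ : C →ₗ[F] (S → F) := (LinearMap.funLeft F F (fun i : S => (i : Fin n))).comp C.subtype
  have hinj : Function.Injective ρ := by
    rw [← LinearMap.ker_eq_bot, Submodule.eq_bot_iff]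
    intro x hx
    by_contra hx0
    have h2 := h x.1 x.2 (fun h0 => hx0 (Subtype.ext h0))
    have h3 := hammingNorm_add_zeros x.1
    have h4 : S.card ≤ (Finset.univ.filter fun i => x.1 i = 0).card := by
      refine Finset.card_le_card fun i hi => ?_
      have := congrFun (LinearMap.mem_ker.1 hx) ⟨i, hi⟩
      simpa [ρ, LinearMap.funLeft_apply] using this
    omega
  have hsurj : Function.Surjective ρ := by
    have : Module.finrank F C = Module.finrank F (S → F) := by
      rw [hC, Module.finrank_fintype_fun_eq_card]; simp [hSc]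
    exact (LinearMap.injective_iff_surjective_of_finrank_eq_finrank this).1 hinj
  apply hy0
  funext i
  by_cases hi : i ∈ S
  · obtain ⟨x, hx⟩ := hsurj (Pi.single ⟨i, hi⟩ 1)
    have h5 : x.1 ⬝ᵥ y = 0 := by
      have := (LinearMap.BilinForm.mem_orthogonal_iff).1 hy x.1 x.2
      rw [dotB_apply] at this
      exact this
    have h6 : x.1 ⬝ᵥ y = y i := by
      unfold dotProduct
      rw [Finset.sum_eq_single i]
      · have := congrFun hx ⟨i, hi⟩
        have h7 : x.1 i = 1 := by simpa [ρ, LinearMap.funLeft_apply] using this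
        rw [h7, one_mul]
      · intro j _ hj
        by_cases hjS : j ∈ S
        · have := congrFun hx ⟨j, hjS⟩
          have h7 : x.1 j = 0 := by
            have h8 : (⟨j, hjS⟩ : S) ≠ ⟨i, hi⟩ := fun h => hj (congrArg Subtype.val h)
            simpa [ρ, LinearMap.funLeft_apply, Pi.single_eq_of_ne h8] using this
          rw [h7, zero_mul]
        · have : y j = 0 := by
            by_contra hne
            exact hjS (hS (by simpa using hne))
          rw [this, mul_zero]
      · intro h; exact absurd (Finset.mem_univ _) h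
    rw [← h6, h5]; rfl
  · by_contra hne
    exact hi (hS (by simpa using hne))

theorem isMDS_dual_of {n k : ℕ} (hk : 1 ≤ k) (hkn : k < n) (C : Submodule F (Fin n → F))
    (hC : Module.finrank F C = k) (h : IsMDS C) : IsMDS (dual C) := by
  rw [isMDS_iff hk hkn.le C hC] at h
  have hd : Module.finrank F (dual C) = n - k := by rw [finrank_dual, hC]
  rw [isMDS_iff (by omega) (Nat.sub_le _ _) (dual C) hd]
  intro y hy hy0
  have := dual_weight hkn.le C hC h y hy hy0
  omega

theorem mdsProb_dual (F : Type) [Field F] [Fintype F] [DecidableEq F] {n k : ℕ} (hk : 1 ≤ k)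
    (hkn : k < n) : mdsProb F n (n - k) = mdsProb F n k := by
  let e : Submodule F (Fin n → F) ≃ Submodule F (Fin n → F) :=
    ⟨dual, dual, dual_dual, dual_dual⟩
  have he : ∀ C, e C = dual C := fun _ => rfl
  have hf : ∀ C : Submodule F (Fin n → F),
      Module.finrank F C = n - k ↔ Module.finrank F (e C) = k := by
    intro C
    have h1 : Module.finrank F C ≤ n := by
      have := Submodule.finrank_le C
      simpa using this
    rw [he, finrank_dual]
    omega
  have h1 : Nat.card {C : Submodule F (Fin n → F) // Module.finrank F C = n - k} =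
      Nat.card {C : Submodule F (Fin n → F) // Module.finrank F C = k} :=
    Nat.card_congr (e.subtypeEquiv hf)
  have h2 : Nat.card {C : Submodule F (Fin n → F) // Module.finrank F C = n - k ∧ IsMDS C} =
      Nat.card {C : Submodule F (Fin n → F) // Module.finrank F C = k ∧ IsMDS C} := by
    refine Nat.card_congr (e.subtypeEquiv fun C => ?_)
    constructor
    · rintro ⟨ha, hb⟩
      exact ⟨(hf C).1 ha, isMDS_dual_of (by omega) (by omega) C ha hb⟩
    · rintro ⟨ha, hb⟩
      refine ⟨(hf C).2 ha, ?_⟩
      have := isMDS_dual_of hk hkn (e C) ha hb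
      rwa [he, dual_dual] at this
  unfold mdsProb
  rw [h1, h2]

end Pool.Agent.R143.MDS
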