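import Pool.Agent.R143.MDS.Defs

/-! Task MDS-P3 (proved by helper62): the limit for a fixed number of rows. -/

set_option autoImplicit false
set_option linter.unusedSectionVars false

namespace Pool.Agent.R143.MDS

open Filter Topology Finset

namespace Fixed

section field

variable {F : Type} [Field F] {m k : ℕ}

/-- every set of at most `k` columns is linearly independent -/
def Arc (v : Fin m → Fin k → F) : Prop :=
  ∀ S : Finset (Fin m), S.card ≤ k → LinearIndepOn F v (S : Set (Fin m))

/-- `x` is in none of the spans of fewer than `k` columns -/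
def Ext (v : Fin m → Fin k → F) (x : Fin k → F) : Prop :=
  ∀ R : Finset (Fin m), R.card + 1 ≤ k → x ∉ Submodule.span F (v '' (R : Set (Fin m)))

theorem cons_image (x : Fin k → F) (v : Fin m → Fin k → F) (R : Set (Fin m)) :
    (Fin.cons x v : Fin (m + 1) → Fin k → F) '' (Fin.succ '' R) = v '' R := by
  rw [← Set.image_comp]
  rfl

theorem arc_cons (x : Fin k → F) (v : Fin m → Fin k → F) :
    Arc (Fin.cons x v : Fin (m + 1) → Fin k → F) ↔ Arc v ∧ Ext v x := by
  have h0 : ∀ R : Set (Fin m), (0 : Fin (m + 1)) ∉ Fin.succ '' R := by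
    rintro R ⟨i, _, hi⟩
    exact absurd hi (Fin.succ_ne_zero i)
  constructor
  · intro h
    constructor
    · intro S hS
      have h1 := h (S.map (Fin.succEmb m)) (by rwa [card_map])
      rw [coe_map] at h1
      exact LinearIndepOn.comp_of_image (v := (Fin.cons x v : Fin (m + 1) → Fin k → F))
        (f := Fin.succ) h1 (Fin.succ_injective m).injOn
    · intro R hR
      have hn : (0 : Fin (m + 1)) ∉ R.map (Fin.succEmb m) := by
        intro hc
        rw [Finset.mem_map] at hc
        obtain ⟨i, _, hi⟩ := hc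
        exact absurd hi (Fin.succ_ne_zero i)
      have h1 := h (insert 0 (R.map (Fin.succEmb m))) (by
        rw [card_insert_of_notMem hn, card_map]
        exact hR)
      rw [coe_insert, coe_map] at h1
      have h2 := ((linearIndepOn_insert (h0 R)).1 h1).2
      change x ∉ _ at h2
      rwa [cons_image] at h2
  · rintro ⟨h1, h2⟩ S hS
    set R : Finset (Fin m) := univ.filter (fun i => Fin.succ i ∈ S) with hR
    have hsub : R.map (Fin.succEmb m) ⊆ S := by
      intro i hi
      rw [Finset.mem_map] at hi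
      obtain ⟨j, hj, rfl⟩ := hi
      exact (mem_filter.1 hj).2
    have h3 : LinearIndepOn F v (R : Set (Fin m)) :=
      h1 R (le_trans (by rw [← card_map (Fin.succEmb m)]; exact card_le_card hsub) hS)
    have h4 : LinearIndepOn F (Fin.cons x v : Fin (m + 1) → Fin k → F) (Fin.succ '' (R : Set (Fin m))) :=
      LinearIndepOn.image_of_comp Fin.succ _ h3
    by_cases hz : (0 : Fin (m + 1)) ∈ S
    · have hS' : (S : Set (Fin (m + 1))) = insert 0 (Fin.succ '' (R : Set (Fin m))) := by
        ext i
        rw [Set.mem_insert_iff]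
        refine Fin.cases ?_ (fun j => ?_) i
        · simp [hz]
        · simp [hR, Fin.succ_ne_zero]
      have hn : (0 : Fin (m + 1)) ∉ R.map (Fin.succEmb m) := by
        intro hc
        rw [Finset.mem_map] at hc
        obtain ⟨i, _, hi⟩ := hc
        exact absurd hi (Fin.succ_ne_zero i)
      have hc : R.card + 1 ≤ k := by
        refine le_trans ?_ hS
        rw [← card_map (Fin.succEmb m), ← card_insert_of_notMem hn]
        exact card_le_card (insert_subset hz hsub)
      rw [hS', linearIndepOn_insert (h0 R)]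
      refine ⟨h4, ?_⟩
      rw [cons_image]
      exact h2 R hc
    · have hS' : (S : Set (Fin (m + 1))) = Fin.succ '' (R : Set (Fin m)) := by
        ext i
        refine Fin.cases ?_ (fun j => ?_) i
        · simp [hz]
        · simp [hR]
      rw [hS']
      exact h4

/-- decomposition of the arcs of length `m + 1` -/
def arcEquiv : {f : Fin (m + 1) → Fin k → F // Arc f} ≃
    Σ v : {v : Fin m → Fin k → F // Arc v}, {x : Fin k → F // Ext v.1 x} where
  toFun f := ⟨⟨Fin.tail f.1, ((arc_cons (f.1 0) (Fin.tail f.1)).1 (by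
      rw [Fin.cons_self_tail]; exact f.2)).1⟩, ⟨f.1 0, ((arc_cons (f.1 0) (Fin.tail f.1)).1 (by
      rw [Fin.cons_self_tail]; exact f.2)).2⟩⟩
  invFun p := ⟨Fin.cons p.2.1 p.1.1, (arc_cons _ _).2 ⟨p.1.2, p.2.2⟩⟩
  left_inv f := by
    apply Subtype.ext
    exact Fin.cons_self_tail f.1
  right_inv p := by
    rfl

variable [Fintype F]

/-- the number of arcs of length `m` -/
noncomputable def na (F : Type) [Field F] (m k : ℕ) : ℕ :=
  Nat.card {v : Fin m → Fin k → F // Arc v}

theorem na_succ_le (U : ℝ) (h : ∀ v : Fin m → Fin k → F, Arc v →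
    (Nat.card {x : Fin k → F // Ext v x} : ℝ) ≤ U) : (na F (m + 1) k : ℝ) ≤ na F m k * U := by
  classical
  unfold na
  rw [Nat.card_congr arcEquiv, Nat.card_sigma]
  push_cast
  refine (Finset.sum_le_sum fun v _ => h v.1 v.2).trans ?_
  rw [Finset.sum_const, nsmul_eq_mul, Finset.card_univ, Nat.card_eq_fintype_card]

theorem le_na_succ (L : ℝ) (h : ∀ v : Fin m → Fin k → F, Arc v →
    L ≤ (Nat.card {x : Fin k → F // Ext v x} : ℝ)) : na F m k * L ≤ (na F (m + 1) k : ℝ) := by
  classical
  unfold na
  rw [Nat.card_congr (arcEquiv (m := m)), Nat.card_sigma]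
  push_cast
  refine le_trans ?_ (Finset.sum_le_sum fun v _ => h v.1 v.2)
  rw [Finset.sum_const, nsmul_eq_mul, Finset.card_univ, Nat.card_eq_fintype_card]

/-! ### counting bad vectors -/

open Classical in
/-- the vectors in a subspace -/
noncomputable def fs (W : Submodule F (Fin k → F)) : Finset (Fin k → F) :=
  univ.filter fun x => x ∈ W

theorem card_fs (W : Submodule F (Fin k → F)) :
    (fs W).card = Fintype.card F ^ Module.finrank F W := by
  classical
  unfold fs
  rw [← Fintype.card_subtype, ← Module.card_eq_pow_finrank (K := F) (V := W)]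

theorem finrank_span {v : Fin m → Fin k → F} {R : Finset (Fin m)}
    (h : LinearIndepOn F v (R : Set (Fin m))) :
    Module.finrank F (Submodule.span F (v '' (R : Set (Fin m)))) = R.card := by
  classical
  have h1 := finrank_span_eq_card (R := F) (b := fun i : (R : Set (Fin m)) => v i) h
  rw [Set.image_eq_range, h1]
  simp

/-- the vectors in the spans of `k - 1` columns -/
noncomputable def bad (v : Fin m → Fin k → F) : Finset (Fin k → F) := by
  classical exact (univ.filter fun x => ¬ Ext v x)

theorem card_ext (v : Fin m → Fin k → F) :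
    Nat.card {x : Fin k → F // Ext v x} + (bad v).card = Fintype.card F ^ k := by
  classical
  unfold bad
  rw [Nat.card_eq_fintype_card, Fintype.card_subtype, Finset.card_filter_add_card_filter_not,
    Finset.card_univ, Fintype.card_fun, Fintype.card_fin]

theorem bad_eq (hk : 1 ≤ k) (hm : k ≤ m + 1) (v : Fin m → Fin k → F) [DecidableEq (Fin k → F)] :
    bad v = (powersetCard (k - 1) (univ : Finset (Fin m))).biUnion fun R =>
      fs (Submodule.span F (v '' (R : Set (Fin m)))) := by
  classical
  ext x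
  unfold bad fs
  simp only [mem_filter, mem_univ, true_and, mem_biUnion, mem_powersetCard_univ]
  unfold Ext
  push Not
  constructor
  · rintro ⟨R, hR, hx⟩
    obtain ⟨R', h1, h2⟩ := Finset.exists_superset_card_eq (s := R) (n := k - 1) (by omega) (by
      rw [Fintype.card_fin]; omega)
    exact ⟨R', h2, Submodule.span_mono (Set.image_mono (by exact_mod_cast h1)) hx⟩
  · rintro ⟨R, hR, hx⟩
    exact ⟨R, by omega, hx⟩

theorem bad_small (hm : m < k) (v : Fin m → Fin k → F) :
    bad v = fs (Submodule.span F (v '' ((univ : Finset (Fin m)) : Set (Fin m)))) := by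
  classical
  ext x
  unfold bad fs
  simp only [mem_filter, mem_univ, true_and]
  unfold Ext
  push Not
  constructor
  · rintro ⟨R, hR, hx⟩
    exact Submodule.span_mono (Set.image_mono (by simp)) hx
  · intro hx
    exact ⟨univ, by rw [card_univ, Fintype.card_fin]; omega, hx⟩

theorem card_inter (hk : 1 ≤ k) (v : Fin m → Fin k → F) (hv : Arc v) (R R' : Finset (Fin m))
    (hR : R.card = k - 1) (hR' : R'.card = k - 1) (hne : R ≠ R') [DecidableEq (Fin k → F)] :
    (fs (Submodule.span F (v '' (R : Set (Fin m)))) ∩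
      fs (Submodule.span F (v '' (R' : Set (Fin m))))).card ≤ Fintype.card F ^ (k - 2) := by
  classical
  have h1 : fs (Submodule.span F (v '' (R : Set (Fin m)))) ∩
      fs (Submodule.span F (v '' (R' : Set (Fin m)))) =
      fs (Submodule.span F (v '' (R : Set (Fin m))) ⊓ Submodule.span F (v '' (R' : Set (Fin m)))) := by
    ext x
    simp [fs]
  rw [h1, card_fs]
  refine Nat.pow_le_pow_right Fintype.card_pos ?_
  have h2 := Submodule.finrank_sup_add_finrank_inf_eq (Submodule.span F (v '' (R : Set (Fin m))))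
    (Submodule.span F (v '' (R' : Set (Fin m))))
  rw [finrank_span (hv R (by omega)), finrank_span (hv R' (by omega)), hR, hR'] at h2
  obtain ⟨i, hi, hi'⟩ : ∃ i ∈ R', i ∉ R := by
    by_contra hc
    push Not at hc
    exact hne (Finset.eq_of_subset_of_card_le hc (by omega)).symm
  have h3 : (insert i R).card = k := by
    rw [card_insert_of_notMem hi', hR]; omega
  have h4 := finrank_span (hv (insert i R) h3.le)
  rw [h3] at h4
  have h5 : Submodule.span F (v '' ((insert i R : Finset (Fin m)) : Set (Fin m))) ≤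
      Submodule.span F (v '' (R : Set (Fin m))) ⊔ Submodule.span F (v '' (R' : Set (Fin m))) := by
    rw [Submodule.span_le]
    rintro _ ⟨j, hj, rfl⟩
    rw [coe_insert, Set.mem_insert_iff] at hj
    rcases hj with rfl | hj
    · exact Submodule.mem_sup_right (Submodule.subset_span ⟨_, hi, rfl⟩)
    · exact Submodule.mem_sup_left (Submodule.subset_span ⟨_, hj, rfl⟩)
  have h6 := Submodule.finrank_mono h5
  omega

/-- a lower bound for the cardinality of a union -/
theorem card_biUnion_ge {ι α : Type} [DecidableEq ι] [DecidableEq α] (s : Finset ι)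
    (t : ι → Finset α) (a b : ℕ) (ha : ∀ i ∈ s, a ≤ (t i).card)
    (hb : ∀ i ∈ s, ∀ j ∈ s, i ≠ j → (t i ∩ t j).card ≤ b) :
    s.card * a ≤ (s.biUnion t).card + s.card * (s.card * b) := by
  have h1 : ∀ i ∈ s, a ≤ (t i \ (s.erase i).biUnion t).card + s.card * b := by
    intro i hi
    have h2 : (t i ∩ (s.erase i).biUnion t).card ≤ s.card * b := by
      rw [inter_biUnion]
      refine card_biUnion_le.trans ?_
      refine (Finset.sum_le_card_nsmul _ _ b fun j hj => ?_).trans ?_
      · rw [mem_erase] at hj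
        exact hb i hi j hj.2 (Ne.symm hj.1)
      · rw [smul_eq_mul]
        exact Nat.mul_le_mul_right _ (card_le_card (erase_subset _ _))
    have h3 := card_sdiff_add_card_inter (t i) ((s.erase i).biUnion t)
    have := ha i hi
    omega
  have h4 : (s.biUnion fun i => t i \ (s.erase i).biUnion t).card =
      ∑ i ∈ s, (t i \ (s.erase i).biUnion t).card := by
    apply card_biUnion
    intro i hi j hj hij
    change Disjoint (t i \ (s.erase i).biUnion t) (t j \ (s.erase j).biUnion t)
    rw [Finset.disjoint_left]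
    intro x hx hx'
    rw [Finset.mem_sdiff] at hx hx'
    exact hx.2 (mem_biUnion.2 ⟨j, mem_erase.2 ⟨Ne.symm hij, hj⟩, hx'.1⟩)
  have h5 : (s.biUnion fun i => t i \ (s.erase i).biUnion t).card ≤ (s.biUnion t).card := by
    apply card_le_card
    exact biUnion_mono fun i _ => sdiff_subset
  have h6 : ∑ _i ∈ s, a ≤ ∑ i ∈ s, ((t i \ (s.erase i).biUnion t).card + s.card * b) :=
    Finset.sum_le_sum h1
  rw [Finset.sum_add_distrib, Finset.sum_const, Finset.sum_const, smul_eq_mul, smul_eq_mul] at h6
  omega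

theorem bad_le (hk : 1 ≤ k) (hm : k ≤ m + 1) (v : Fin m → Fin k → F) (hv : Arc v) :
    (bad v).card ≤ m.choose (k - 1) * Fintype.card F ^ (k - 1) := by
  classical
  rw [bad_eq hk hm]
  refine card_biUnion_le.trans ((Finset.sum_le_card_nsmul _ _ (Fintype.card F ^ (k - 1))
    fun R hR => ?_).trans ?_)
  · rw [mem_powersetCard_univ] at hR
    rw [card_fs, finrank_span (hv R (by omega)), hR]
  · rw [smul_eq_mul, card_powersetCard, card_univ, Fintype.card_fin]

theorem bad_ge (hk : 1 ≤ k) (hm : k ≤ m + 1) (v : Fin m → Fin k → F) (hv : Arc v) (b : ℕ)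
    (hb : 2 ≤ k → Fintype.card F ^ (k - 2) ≤ b) :
    m.choose (k - 1) * Fintype.card F ^ (k - 1) ≤
      (bad v).card + m.choose (k - 1) * (m.choose (k - 1) * b) := by
  classical
  rw [bad_eq hk hm]
  have h := card_biUnion_ge (powersetCard (k - 1) (univ : Finset (Fin m)))
    (fun R => fs (Submodule.span F (v '' (R : Set (Fin m))))) (Fintype.card F ^ (k - 1))
    b (fun R hR => by
      rw [mem_powersetCard_univ] at hR
      rw [card_fs, finrank_span (hv R (by omega)), hR]) (fun R hR R' hR' hne => by
      rw [mem_powersetCard_univ] at hR hR'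
      by_cases h2 : 2 ≤ k
      · exact (card_inter hk v hv R R' hR hR' hne).trans (hb h2)
      · exact absurd ((card_eq_zero.1 (by omega : R.card = 0)).trans
          (card_eq_zero.1 (by omega : R'.card = 0)).symm) hne)
  rw [card_powersetCard, card_univ, Fintype.card_fin] at h
  exact h

theorem bad_small_card (hm : m < k) (v : Fin m → Fin k → F) (hv : Arc v) :
    (bad v).card = Fintype.card F ^ m := by
  rw [bad_small hm, card_fs, finrank_span (hv _ (by rw [card_univ, Fintype.card_fin]; omega)),
    card_univ, Fintype.card_fin]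

/-! ### good matrices are arcs -/

theorem good_iff_arc [DecidableEq F] {n : ℕ} (hkn : k ≤ n) (A : Fin n → Fin k → F) :
    Good A ↔ Arc A := by
  classical
  constructor
  · intro h S hS
    obtain ⟨S', h1, h2⟩ := Finset.exists_superset_card_eq (s := S) (n := k) hS (by
      rw [Fintype.card_fin]; exact hkn)
    refine LinearIndepOn.mono ?_ (show (S : Set (Fin n)) ⊆ S' by exact_mod_cast h1)
    by_contra hc
    have h3 : Submodule.span F (A '' (S' : Set (Fin n))) ≠ ⊤ := by
      intro htop
      apply hc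
      have h4 : LinearIndependent F (fun i : (S' : Set (Fin n)) => A i) := by
        apply linearIndependent_of_top_le_span_of_card_eq_finrank
        · rw [← Set.image_eq_range, htop]
        · rw [Module.finrank_fin_fun]
          simpa using h2
      exact h4
    obtain ⟨f, hf0, hf⟩ := Submodule.exists_le_ker_of_lt_top _ (lt_top_iff_ne_top.2 h3)
    set u : Fin k → F := fun i => f (Pi.single i 1) with hu
    have hfu : ∀ x, f x = u ⬝ᵥ x := by
      intro x
      rw [LinearMap.pi_apply_eq_sum_univ f x, dotProduct]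
      refine Finset.sum_congr rfl fun i _ => ?_
      rw [smul_eq_mul, mul_comm, hu]
      congr 2
      funext j
      rw [Pi.single_apply]
      simp only [eq_comm]
    have hu0 : u ≠ 0 := by
      intro h0
      apply hf0
      ext x
      simp [hfu, h0]
    have h5 := h u hu0
    have h6 : S' ⊆ zset A u := by
      intro i hi
      unfold zset
      rw [mem_filter]
      refine ⟨mem_univ _, ?_⟩
      rw [← hfu]
      exact hf (Submodule.subset_span ⟨i, hi, rfl⟩)
    have := card_le_card h6
    omega
  · intro h u hu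
    by_contra hc
    push Not at hc
    obtain ⟨S, h1, h2⟩ := Finset.exists_subset_card_eq hc
    have h3 := finrank_span (h S h2.le)
    have h4 : Submodule.span F (A '' (S : Set (Fin n))) = ⊤ := by
      apply Submodule.eq_top_of_finrank_eq
      rw [h3, h2, Module.finrank_fin_fun]
    apply hu
    apply dotProduct_eq_zero
    intro x
    have hx : x ∈ Submodule.span F (A '' (S : Set (Fin n))) := by rw [h4]; trivial
    induction hx using Submodule.span_induction with
    | mem y hy =>
      obtain ⟨i, hi, rfl⟩ := hy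
      have := h1 hi
      unfold zset at this
      exact (mem_filter.1 this).2
    | zero => simp
    | add y z _ _ hy hz => rw [dotProduct_add, hy, hz, add_zero]
    | smul c y _ hy => rw [dotProduct_smul, hy, smul_zero]

theorem gp_eq [DecidableEq F] {n : ℕ} (hkn : k ≤ n) :
    gp F n k = (na F n k : ℝ) / (Fintype.card F : ℝ) ^ (n * k) := by
  unfold gp na
  congr 2
  exact Nat.card_congr (Equiv.subtypeEquivRight fun A => good_iff_arc hkn A)

/-! ### the recursion for the probabilities -/

/-- the proportion of arcs -/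
noncomputable def pr (F : Type) [Field F] [Fintype F] (m k : ℕ) : ℝ :=
  (na F m k : ℝ) / (Fintype.card F : ℝ) ^ (m * k)

theorem pr_zero : pr F 0 k = 1 := by
  unfold pr na
  have : Nat.card {v : Fin 0 → Fin k → F // Arc v} = 1 := by
    rw [Nat.card_eq_one_iff_unique]
    refine ⟨⟨fun a b => Subtype.ext (funext fun i => i.elim0)⟩, ⟨⟨fun i => i.elim0, ?_⟩⟩⟩
    intro S _
    have : S = ∅ := by
      ext i
      exact i.elim0
    rw [this, coe_empty]
    exact linearIndepOn_empty _ _
  rw [this]
  simp

theorem pr_nonneg (m k : ℕ) : 0 ≤ pr F m k := by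
  unfold pr
  positivity

theorem pr_succ_le (t : ℝ) (h : ∀ v : Fin m → Fin k → F, Arc v →
    (Nat.card {x : Fin k → F // Ext v x} : ℝ) ≤ (Fintype.card F : ℝ) ^ k * t) :
    pr F (m + 1) k ≤ pr F m k * t := by
  have hq : (0:ℝ) < (Fintype.card F : ℝ) := by exact_mod_cast Fintype.card_pos
  unfold pr
  have h1 := na_succ_le _ h
  rw [div_le_iff₀ (by positivity)]
  calc (na F (m + 1) k : ℝ) ≤ na F m k * ((Fintype.card F : ℝ) ^ k * t) := h1
    _ = na F m k / (Fintype.card F : ℝ) ^ (m * k) * t * (Fintype.card F : ℝ) ^ ((m + 1) * k) := by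
      rw [add_mul, one_mul, pow_add]
      field_simp

theorem le_pr_succ (t : ℝ) (h : ∀ v : Fin m → Fin k → F, Arc v →
    (Fintype.card F : ℝ) ^ k * t ≤ (Nat.card {x : Fin k → F // Ext v x} : ℝ)) :
    pr F m k * t ≤ pr F (m + 1) k := by
  have hq : (0:ℝ) < (Fintype.card F : ℝ) := by exact_mod_cast Fintype.card_pos
  unfold pr
  have h1 := le_na_succ _ h
  rw [le_div_iff₀ (by positivity)]
  have e : na F m k / (Fintype.card F : ℝ) ^ (m * k) * t * (Fintype.card F : ℝ) ^ ((m + 1) * k) =
      na F m k * ((Fintype.card F : ℝ) ^ k * t) := by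
    rw [add_mul, one_mul, pow_add]
    field_simp
  rw [e]
  exact h1

theorem ext_real (v : Fin m → Fin k → F) :
    (Nat.card {x : Fin k → F // Ext v x} : ℝ) = (Fintype.card F : ℝ) ^ k - (bad v).card := by
  have h := card_ext v
  have h' : ((Nat.card {x : Fin k → F // Ext v x} + (bad v).card : ℕ) : ℝ) =
      ((Fintype.card F ^ k : ℕ) : ℝ) := by rw [h]
  push_cast at h'
  linarith

theorem upper_step {κ : ℕ} (m : ℕ) (x : ℝ) (hx : x = (m.choose κ : ℝ) / Fintype.card F) :
    pr F (m + 1) (κ + 1) ≤ pr F m (κ + 1) * Real.exp (-x + x ^ 2) := by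
  have hq : (0:ℝ) < (Fintype.card F : ℝ) := by exact_mod_cast Fintype.card_pos
  have hexp : 1 - x + x ^ 2 ≤ Real.exp (-x + x ^ 2) := by
    have := Real.add_one_le_exp (-x + x ^ 2)
    linarith
  refine pr_succ_le _ fun v hv => ?_
  rw [ext_real]
  refine le_trans ?_ (mul_le_mul_of_nonneg_left hexp (by positivity))
  by_cases hm : κ + 1 ≤ m + 1
  · have h1 : ((m.choose κ : ℝ) * ((Fintype.card F : ℝ) ^ (κ + 1) / Fintype.card F)) ≤
        (bad v).card + (m.choose κ : ℝ) * ((m.choose κ : ℝ) *
          ((Fintype.card F : ℝ) ^ (κ + 1) / (Fintype.card F : ℝ) ^ 2)) := by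
      rcases Nat.eq_zero_or_pos κ with h0 | h0
      · subst h0
        have h := bad_ge (le_refl 1) (by simp) v hv 0 (by omega)
        have h' : ((m.choose 0 * Fintype.card F ^ 0 : ℕ) : ℝ) ≤ (((bad v).card + 0 : ℕ) : ℝ) := by
          exact_mod_cast (by simpa using h)
        have h3 : (0:ℝ) ≤ (m.choose 0 : ℝ) * ((m.choose 0 : ℝ) *
          ((Fintype.card F : ℝ) ^ (0 + 1) / (Fintype.card F : ℝ) ^ 2)) := by positivity
        have h4 : (Fintype.card F : ℝ) ^ (0 + 1) / (Fintype.card F : ℝ) = 1 := by
          rw [zero_add, pow_one, div_self hq.ne']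
        rw [h4]
        push_cast at h'
        simp only [Nat.choose_zero_right, Nat.cast_one, pow_zero, mul_one, add_zero] at h' h3 ⊢
        linarith
      · have h := bad_ge (k := κ + 1) (by omega) hm v hv (Fintype.card F ^ (κ - 1)) (by
          intro _
          rw [show κ + 1 - 2 = κ - 1 by omega])
        rw [show κ + 1 - 1 = κ by omega] at h
        have h' : (((m.choose κ) * Fintype.card F ^ κ : ℕ) : ℝ) ≤
            (((bad v).card + m.choose κ * (m.choose κ * Fintype.card F ^ (κ - 1)) : ℕ) : ℝ) := by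
          exact_mod_cast h
        push_cast at h'
        have e1 : (Fintype.card F : ℝ) ^ (κ + 1) / (Fintype.card F : ℝ) =
            (Fintype.card F : ℝ) ^ κ := by
          rw [pow_succ]; field_simp
        have e2 : (Fintype.card F : ℝ) ^ (κ + 1) / (Fintype.card F : ℝ) ^ 2 =
            (Fintype.card F : ℝ) ^ (κ - 1) := by
          rw [show κ + 1 = (κ - 1) + 2 by omega, pow_add]; field_simp
        rw [e1, e2]
        exact h'
    have h2 : (Fintype.card F : ℝ) ^ (κ + 1) * (1 - x + x ^ 2) = (Fintype.card F : ℝ) ^ (κ + 1) -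
        ((m.choose κ : ℝ) * ((Fintype.card F : ℝ) ^ (κ + 1) / Fintype.card F)) +
        (m.choose κ : ℝ) * ((m.choose κ : ℝ) *
          ((Fintype.card F : ℝ) ^ (κ + 1) / (Fintype.card F : ℝ) ^ 2)) := by
      rw [hx]
      field_simp
    rw [h2]
    linarith
  · have h0 : m.choose κ = 0 := Nat.choose_eq_zero_of_lt (by omega)
    rw [h0, Nat.cast_zero, zero_div] at hx
    rw [hx]
    have : (0:ℝ) ≤ (bad v).card := by positivity
    simp only [sub_zero, ne_eq, OfNat.ofNat_ne_zero, not_false_eq_true, zero_pow, add_zero, mul_one]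
    linarith

theorem exp_le_one_sub {x : ℝ} (h0 : 0 ≤ x) (h1 : x ≤ 1 / 2) : Real.exp (-(x + x ^ 2)) ≤ 1 - x := by
  have h2 := Real.quadratic_le_exp_of_nonneg (show 0 ≤ x + x ^ 2 by positivity)
  rw [Real.exp_neg, inv_le_comm₀ (Real.exp_pos _) (by linarith)]
  refine le_trans ?_ h2
  rw [inv_le_iff_one_le_mul₀ (by linarith)]
  nlinarith [mul_nonneg h0 h0, mul_nonneg (mul_nonneg h0 h0) h0, mul_nonneg h0 (sub_nonneg.2 h1),
    mul_nonneg (mul_nonneg h0 h0) (sub_nonneg.2 h1),
    mul_nonneg (mul_nonneg (mul_nonneg h0 h0) h0) (sub_nonneg.2 h1)]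

theorem lower_step {κ : ℕ} (m : ℕ) (x z : ℝ) (hx : x = (m.choose κ : ℝ) / Fintype.card F)
    (hx1 : x ≤ 1 / 2) (hz : z = if m < κ then 2 / (Fintype.card F : ℝ) else 0) :
    pr F m (κ + 1) * Real.exp (-(x + x ^ 2) - z) ≤ pr F (m + 1) (κ + 1) := by
  have hq : (0:ℝ) < (Fintype.card F : ℝ) := by exact_mod_cast Fintype.card_pos
  have hq2 : (2:ℝ) ≤ (Fintype.card F : ℝ) := by exact_mod_cast (Fintype.one_lt_card : 1 < Fintype.card F)
  have hx0 : 0 ≤ x := by rw [hx]; positivity
  refine le_pr_succ _ fun v hv => ?_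
  rw [ext_real]
  by_cases hm : κ + 1 ≤ m + 1
  · rw [if_neg (by omega)] at hz
    rw [hz, sub_zero]
    refine (mul_le_mul_of_nonneg_left (exp_le_one_sub hx0 hx1) (by positivity)).trans ?_
    have h := bad_le (k := κ + 1) (by omega) hm v hv
    rw [show κ + 1 - 1 = κ by omega] at h
    have h' : ((bad v).card : ℝ) ≤ (((m.choose κ) * Fintype.card F ^ κ : ℕ) : ℝ) := by
      exact_mod_cast h
    push_cast at h'
    have e : (Fintype.card F : ℝ) ^ (κ + 1) * (1 - x) = (Fintype.card F : ℝ) ^ (κ + 1) -
        (m.choose κ : ℝ) * (Fintype.card F : ℝ) ^ κ := by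
      rw [hx, pow_succ]
      field_simp
    rw [e]
    linarith
  · have h0 : m.choose κ = 0 := Nat.choose_eq_zero_of_lt (by omega)
    rw [h0, Nat.cast_zero, zero_div] at hx
    rw [if_pos (by omega)] at hz
    have h1 : (bad v).card ≤ Fintype.card F ^ κ := by
      rw [bad_small_card (by omega) v hv]
      exact Nat.pow_le_pow_right Fintype.card_pos (by omega)
    have h1' : ((bad v).card : ℝ) ≤ (Fintype.card F : ℝ) ^ κ := by exact_mod_cast h1
    have h2 : Real.exp (-(x + x ^ 2) - z) ≤ 1 - 1 / (Fintype.card F : ℝ) := by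
      refine le_trans ?_ (exp_le_one_sub (x := 1 / (Fintype.card F : ℝ)) (by positivity) (by
        rw [div_le_div_iff₀ hq (by norm_num)]; linarith))
      apply Real.exp_le_exp.2
      rw [hx, hz]
      have h3 : (1 / (Fintype.card F : ℝ)) ^ 2 ≤ 1 / (Fintype.card F : ℝ) := by
        have h4 : 1 / (Fintype.card F : ℝ) ≤ 1 := by
          rw [div_le_one hq]; linarith
        have h5 : 0 ≤ 1 / (Fintype.card F : ℝ) := by positivity
        nlinarith
      have h6 : 2 / (Fintype.card F : ℝ) = 1 / (Fintype.card F : ℝ) + 1 / (Fintype.card F : ℝ) := by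
        ring
      rw [h6]
      linarith
    refine (mul_le_mul_of_nonneg_left h2 (by positivity)).trans ?_
    have e : (Fintype.card F : ℝ) ^ (κ + 1) * (1 - 1 / (Fintype.card F : ℝ)) =
        (Fintype.card F : ℝ) ^ (κ + 1) - (Fintype.card F : ℝ) ^ κ := by
      rw [pow_succ]
      field_simp
    rw [e]
    linarith

theorem upper_all {κ : ℕ} (n : ℕ) :
    pr F n (κ + 1) ≤ Real.exp (∑ i ∈ range n, (-((i.choose κ : ℝ) / Fintype.card F) +
      ((i.choose κ : ℝ) / Fintype.card F) ^ 2)) := by
  induction n with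
  | zero => rw [pr_zero]; simp
  | succ n ih =>
    rw [Finset.sum_range_succ, Real.exp_add]
    exact (upper_step n _ rfl).trans (mul_le_mul_of_nonneg_right ih (Real.exp_pos _).le)

theorem lower_all {κ : ℕ} (n : ℕ) (h : ∀ i < n, (i.choose κ : ℝ) / Fintype.card F ≤ 1 / 2) :
    Real.exp (∑ i ∈ range n, (-((i.choose κ : ℝ) / Fintype.card F +
      ((i.choose κ : ℝ) / Fintype.card F) ^ 2) - if i < κ then 2 / (Fintype.card F : ℝ) else 0)) ≤
      pr F n (κ + 1) := by
  induction n with
  | zero => rw [pr_zero]; simp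
  | succ n ih =>
    rw [Finset.sum_range_succ, Real.exp_add]
    exact (mul_le_mul_of_nonneg_right (ih fun i hi => h i (by omega)) (Real.exp_pos _).le).trans
      (lower_step n _ _ rfl (h n (by omega)) rfl)

theorem sum_choose (κ n : ℕ) : ∑ i ∈ range n, i.choose κ = n.choose (κ + 1) := by
  induction n with
  | zero => simp
  | succ n ih => rw [Finset.sum_range_succ, ih, Nat.choose_succ_succ, add_comm]

theorem two_bounds {κ : ℕ} (n : ℕ) (s M : ℝ) (hs : s = (n.choose (κ + 1) : ℝ) / Fintype.card F)
    (hM : M = (n.choose κ : ℝ) / Fintype.card F) (hM1 : M ≤ 1 / 2) :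
    Real.exp (-s - M * s - 2 * κ / (Fintype.card F : ℝ)) ≤ pr F n (κ + 1) ∧
      pr F n (κ + 1) ≤ Real.exp (-s + M * s) := by
  have hq : (0:ℝ) < (Fintype.card F : ℝ) := by exact_mod_cast Fintype.card_pos
  have hsum : ∑ i ∈ range n, (i.choose κ : ℝ) / Fintype.card F = s := by
    rw [← Finset.sum_div, hs, ← sum_choose]
    push_cast
    rfl
  have hle : ∀ i ∈ range n, (i.choose κ : ℝ) / Fintype.card F ≤ M := by
    intro i hi
    rw [Finset.mem_range] at hi
    rw [hM]
    have : i.choose κ ≤ n.choose κ := Nat.choose_le_choose κ hi.le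
    have h' : (i.choose κ : ℝ) ≤ (n.choose κ : ℝ) := by exact_mod_cast this
    exact div_le_div_of_nonneg_right h' hq.le
  have hsq : ∑ i ∈ range n, ((i.choose κ : ℝ) / Fintype.card F) ^ 2 ≤ M * s := by
    rw [← hsum, Finset.mul_sum]
    refine Finset.sum_le_sum fun i hi => ?_
    rw [sq]
    exact mul_le_mul_of_nonneg_right (hle i hi) (by positivity)
  have hz : ∑ i ∈ range n, (if i < κ then 2 / (Fintype.card F : ℝ) else 0) ≤
      2 * κ / (Fintype.card F : ℝ) := by
    rw [← Finset.sum_filter, Finset.sum_const, nsmul_eq_mul]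
    have h1 : ((range n).filter fun i => i < κ).card ≤ κ := by
      refine (card_le_card (t := range κ) fun i hi => ?_).trans (card_range κ).le
      exact Finset.mem_range.2 (mem_filter.1 hi).2
    have h1' : (((range n).filter fun i => i < κ).card : ℝ) ≤ (κ : ℝ) := by exact_mod_cast h1
    calc (((range n).filter fun i => i < κ).card : ℝ) * (2 / (Fintype.card F : ℝ))
        ≤ (κ : ℝ) * (2 / (Fintype.card F : ℝ)) :=
          mul_le_mul_of_nonneg_right h1' (by positivity)
      _ = 2 * κ / (Fintype.card F : ℝ) := by ring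
  constructor
  · refine le_trans (Real.exp_le_exp.2 ?_) (lower_all n fun i hi =>
      (hle i (Finset.mem_range.2 hi)).trans hM1)
    rw [Finset.sum_sub_distrib, Finset.sum_neg_distrib, Finset.sum_add_distrib, hsum]
    linarith
  · refine (upper_all n).trans (Real.exp_le_exp.2 ?_)
    rw [Finset.sum_add_distrib, Finset.sum_neg_distrib, hsum]
    linarith

end field

end Fixed

open Fixed in
theorem gp_fixed (k : ℕ) (hk : 1 ≤ k) (lam : ℝ) (hlam : 0 < lam) (n : ℕ → ℕ) (F : ℕ → Type)
    [∀ j, Field (F j)] [∀ j, Fintype (F j)] [∀ j, DecidableEq (F j)]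
    (hn : Tendsto n atTop atTop) (hq : Tendsto (fun j => Fintype.card (F j)) atTop atTop)
    (h : Tendsto (fun j => ((n j).choose k : ℝ) / (Fintype.card (F j) : ℝ)) atTop (𝓝 lam)) :
    Tendsto (fun j => gp (F j) (n j) k) atTop (𝓝 (Real.exp (-lam))) := by
  obtain ⟨κ, rfl⟩ : ∃ κ, k = κ + 1 := ⟨k - 1, by omega⟩
  set s : ℕ → ℝ := fun j => ((n j).choose (κ + 1) : ℝ) / (Fintype.card (F j) : ℝ) with hs
  set M : ℕ → ℝ := fun j => ((n j).choose κ : ℝ) / (Fintype.card (F j) : ℝ) with hM
  have hnκ : Tendsto (fun j => ((n j : ℝ) - κ)) atTop atTop :=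
    tendsto_atTop_add_const_right _ _ (tendsto_natCast_atTop_atTop.comp hn)
  have hM0 : Tendsto M atTop (𝓝 0) := by
    have h1 : Tendsto (fun j => (κ + 1 : ℝ) * s j / ((n j : ℝ) - κ)) atTop (𝓝 0) :=
      (h.const_mul _).div_atTop hnκ
    refine h1.congr' ?_
    filter_upwards [hn.eventually_gt_atTop κ] with j hj
    have h2 := Nat.choose_succ_right_eq (n j) κ
    have h3 : (((n j).choose (κ + 1) * (κ + 1) : ℕ) : ℝ) = (((n j).choose κ * (n j - κ) : ℕ) : ℝ) := by
      rw [h2]
    rw [Nat.cast_mul, Nat.cast_mul, Nat.cast_sub hj.le] at h3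
    push_cast at h3
    have h4 : (0:ℝ) < (n j : ℝ) - κ := by
      have : (κ : ℝ) < (n j : ℝ) := by exact_mod_cast hj
      linarith
    simp only [hs, hM]
    rw [mul_div_assoc', div_div, div_eq_div_iff (by
      have : (0:ℝ) < (Fintype.card (F j) : ℝ) := by exact_mod_cast Fintype.card_pos
      positivity) (by
      have : (0:ℝ) < (Fintype.card (F j) : ℝ) := by exact_mod_cast Fintype.card_pos
      positivity)]
    linear_combination (Fintype.card (F j) : ℝ) * h3
  have hqi : Tendsto (fun j => 2 * (κ : ℝ) / (Fintype.card (F j) : ℝ)) atTop (𝓝 0) :=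
    tendsto_const_nhds.div_atTop (tendsto_natCast_atTop_atTop.comp hq)
  have hlow : Tendsto (fun j => Real.exp (-s j - M j * s j - 2 * κ / (Fintype.card (F j) : ℝ)))
      atTop (𝓝 (Real.exp (-lam))) := by
    have h1 : Tendsto (fun j => -s j - M j * s j - 2 * κ / (Fintype.card (F j) : ℝ)) atTop
        (𝓝 (-lam - 0 * lam - 0)) := ((h.neg).sub (hM0.mul h)).sub hqi
    rw [show -lam - 0 * lam - 0 = -lam by ring] at h1
    exact (Real.continuous_exp.tendsto _).comp h1
  have hupp : Tendsto (fun j => Real.exp (-s j + M j * s j)) atTop (𝓝 (Real.exp (-lam))) := by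
    have h1 : Tendsto (fun j => -s j + M j * s j) atTop (𝓝 (-lam + 0 * lam)) :=
      (h.neg).add (hM0.mul h)
    rw [show -lam + 0 * lam = -lam by ring] at h1
    exact (Real.continuous_exp.tendsto _).comp h1
  have hb : ∀ᶠ j in atTop, M j ≤ 1 / 2 := by
    filter_upwards [hM0.eventually (gt_mem_nhds (show (0:ℝ) < 1 / 2 by norm_num))] with j hj
    exact hj.le
  have hb' : ∀ᶠ j in atTop, κ + 1 ≤ n j := hn.eventually_ge_atTop _
  refine tendsto_of_tendsto_of_tendsto_of_le_of_le' hlow hupp ?_ ?_
  · filter_upwards [hb, hb'] with j hj hj'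
    rw [gp_eq hj']
    exact (two_bounds (n j) (s j) (M j) rfl rfl hj).1
  · filter_upwards [hb, hb'] with j hj hj'
    rw [gp_eq hj']
    exact (two_bounds (n j) (s j) (M j) rfl rfl hj).2

end Pool.Agent.R143.MDS
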