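import Pool.Agent.R143.MDS.WSum

/-! Bases of a non-free set of rows give bad configurations. -/

namespace Pool.Agent.R143.MDS

open Finset Submodule Module

variable {F : Type} [Field F] [Fintype F] [DecidableEq F] {n k : ℕ}

omit [Fintype F] [DecidableEq F] in
lemma sum_smul_dot {ρ : ℕ} (w : Fin ρ → F) (u : Fin ρ → Fin k → F) (a : Fin k → F) :
    (∑ i, w i • u i) ⬝ᵥ a = ∑ i, w i * (u i ⬝ᵥ a) := by
  rw [sum_dotProduct]
  apply Finset.sum_congr rfl
  intro i _
  rw [smul_dotProduct, smul_eq_mul]

lemma exists_coeff {A : Fin n → Fin k → F} {ρ : ℕ} (hρ : ρ = rk F (Yset A))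
    {u : Fin ρ → Fin k → F} (hu : u ∈ T F (Yset A) ρ) {v : Fin k → F} (hv : v ∈ Yset A) :
    ∃ w : Fin ρ → F, ∑ i, w i • u i = v := by
  rw [mem_T] at hu
  have h1 : span F (Set.range u) ≤ span F ((Yset A : Finset (Fin k → F)) : Set (Fin k → F)) := by
    apply Submodule.span_mono
    rintro _ ⟨i, rfl⟩
    exact Finset.mem_coe.2 (hu.2 i)
  have h2 : span F (Set.range u) = span F ((Yset A : Finset (Fin k → F)) : Set (Fin k → F)) := by
    apply Submodule.eq_of_le_of_finrank_eq h1
    rw [finrank_span_eq_card hu.1, Fintype.card_fin, hρ]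
    rfl
  have h3 : v ∈ span F (Set.range u) := by
    rw [h2]
    exact Submodule.subset_span (Finset.mem_coe.2 hv)
  exact (Submodule.mem_span_range_iff_exists_fun F).1 h3

omit [Fintype F] [DecidableEq F] in
lemma Qp_smul {ρ : ℕ} {B : Fin n → Fin ρ → F} {w : Fin ρ → F} (h : Qp k B w) {c : F}
    (hc : c ≠ 0) : Qp k B (c • w) := by
  obtain ⟨S, U, h1, h2, h3, h4, i, hi, hi'⟩ := h
  refine ⟨S, U, h1, h2, h3, ?_, i, ?_, hi'⟩
  · intro x hx
    have := h4 x hx
    calc ∑ i, (c • w) i * B x i = c * ∑ i, w i * B x i := by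
          rw [Finset.mul_sum]
          apply Finset.sum_congr rfl
          intro i _
          simp [mul_assoc]
      _ = 0 := by rw [this, mul_zero]
  · simp [hc, hi]

lemma exists_Qp {A : Fin n → Fin k → F} (hk : 1 ≤ k) (hkn : k < n) {ρ : ℕ}
    (hρ : ρ = rk F (Yset A)) {u : Fin ρ → Fin k → F} (hu : u ∈ T F (Yset A) ρ)
    (hv : ∃ v ∈ Yset A, ∀ i, ∀ c : F, v ≠ c • u i) :
    ∃ w : Fin ρ → F, w ≠ 0 ∧ Qp k (tab A u) w := by
  have hu' := mem_T.1 hu
  by_cases hG : ∃ v0 : Fin k → F, v0 ≠ 0 ∧ k < (zset A v0).card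
  · obtain ⟨v0, h0, hc⟩ := hG
    have hv0 : v0 ∈ Yset A := mem_Yset.2 ⟨h0, hc.le⟩
    obtain ⟨w, hw⟩ := exists_coeff hρ hu hv0
    have hw0 : w ≠ 0 := by
      rintro rfl
      apply h0
      rw [← hw]
      simp
    obtain ⟨i0, hi0⟩ : ∃ i, w i ≠ 0 := by
      by_contra hcon
      push Not at hcon
      exact hw0 (funext hcon)
    have hS : ∀ i, ∃ S ⊆ zset A (u i), S.card = k := fun i =>
      Finset.exists_subset_card_eq (mem_Yset.1 (hu'.2 i)).2
    choose S hS1 hS2 using hS
    obtain ⟨x, hx, hx'⟩ : ∃ x ∈ zset A v0, x ∉ S i0 := by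
      by_contra hcon
      push Not at hcon
      have := Finset.card_le_card (show zset A v0 ⊆ S i0 from hcon)
      rw [hS2] at this
      omega
    obtain ⟨U, hU1, hU2, hU3⟩ := Finset.exists_subsuperset_card_eq
      (s := {x}) (t := zset A v0) (n := k) (by simpa using hx) (by simpa using hk) hc.le
    refine ⟨w, hw0, S, U, hS2, hU3, ?_, ?_, i0, hi0, ?_⟩
    · intro i x hx
      exact mem_zset.1 (hS1 i hx)
    · intro y hy
      have := mem_zset.1 (hU2 hy)
      rw [← hw, sum_smul_dot] at this
      exact this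
    · intro hsub
      exact hx' (hsub (hU1 (by simp)))
  · push Not at hG
    obtain ⟨v, hvY, hvn⟩ := hv
    have hvY' := mem_Yset.1 hvY
    obtain ⟨w, hw⟩ := exists_coeff hρ hu hvY
    have hw0 : w ≠ 0 := by
      rintro rfl
      apply hvY'.1
      rw [← hw]
      simp
    have hcardU : (zset A v).card = k := le_antisymm (hG v hvY'.1) hvY'.2
    have hcardS : ∀ i, (zset A (u i)).card = k := fun i =>
      le_antisymm (hG _ (mem_Yset.1 (hu'.2 i)).1) (mem_Yset.1 (hu'.2 i)).2
    refine ⟨w, hw0, fun i => zset A (u i), zset A v, hcardS, hcardU, ?_, ?_, ?_⟩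
    · intro i x hx
      exact mem_zset.1 hx
    · intro x hx
      have := mem_zset.1 hx
      rw [← hw, sum_smul_dot] at this
      exact this
    · by_contra hcon
      push Not at hcon
      obtain ⟨i, hi⟩ : ∃ i, w i ≠ 0 := by
        by_contra hcon
        push Not at hcon
        exact hw0 (funext hcon)
      obtain ⟨i', hi', hii'⟩ : ∃ i', w i' ≠ 0 ∧ i' ≠ i := by
        by_contra hcon'
        push Not at hcon'
        apply hvn i (w i)
        rw [← hw]
        apply Finset.sum_eq_single_of_mem i (Finset.mem_univ _)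
        intro j _ hj
        have : w j = 0 := by
          by_contra h
          exact hj (hcon' j h)
        rw [this, zero_smul]
      have e1 : zset A v = zset A (u i) :=
        Finset.eq_of_subset_of_card_le (hcon i hi) (by rw [hcardS, hcardU])
      have e2 : zset A v = zset A (u i') :=
        Finset.eq_of_subset_of_card_le (hcon i' hi') (by rw [hcardS, hcardU])
      obtain ⟨y, hy⟩ : ∃ y, y ∉ zset A v := by
        by_contra hcon'
        push Not at hcon'
        have : zset A v = Finset.univ := Finset.eq_univ_iff_forall.2 hcon'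
        rw [this, Finset.card_univ, Fintype.card_fin] at hcardU
        omega
      set a := u i' ⬝ᵥ A y with ha
      set b := u i ⬝ᵥ A y with hb
      have ha0 : a ≠ 0 := by
        intro h
        apply hy
        rw [e2, mem_zset]
        exact h
      have hne : a • u i - b • u i' ≠ 0 := by
        intro h
        have hinj : Function.Injective (![i, i'] : Fin 2 → Fin ρ) := by
          intro p q hpq
          fin_cases p <;> fin_cases q
          · rfl
          · exact absurd hpq.symm hii'
          · exact absurd hpq hii'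
          · rfl
        have hli := hu'.1.comp _ hinj
        have h2 : u ∘ ![i, i'] = ![u i, u i'] := by
          funext p
          fin_cases p <;> rfl
        rw [h2, LinearIndependent.pair_iff] at hli
        have h3 := hli a (-b) (by rw [neg_smul, ← sub_eq_add_neg]; exact h)
        exact ha0 h3.1
      have h3 := hG _ hne
      have h4 : insert y (zset A v) ⊆ zset A (a • u i - b • u i') := by
        intro x hx
        rw [Finset.mem_insert] at hx
        rw [mem_zset, sub_dotProduct, smul_dotProduct, smul_dotProduct, smul_eq_mul, smul_eq_mul]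
        rcases hx with rfl | hx
        · rw [← ha, ← hb]; ring
        · have h5 : u i ⬝ᵥ A x = 0 := by rw [e1] at hx; exact mem_zset.1 hx
          have h6 : u i' ⬝ᵥ A x = 0 := by rw [e2] at hx; exact mem_zset.1 hx
          rw [h5, h6]; ring
      have h5 := Finset.card_le_card h4
      rw [Finset.card_insert_of_notMem hy, hcardU] at h5
      omega

lemma card_T_le_Wc (A : Fin n → Fin k → F) (hk : 1 ≤ k) (hkn : k < n) {ρ : ℕ}
    (hρ : ρ = rk F (Yset A))
    (hv : ∀ u ∈ T F (Yset A) ρ, ∃ v ∈ Yset A, ∀ i, ∀ c : F, v ≠ c • u i) :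
    (T F (Yset A) ρ).card * (Fintype.card F - 1) ≤ Wc A ρ := by
  classical
  have h1 : ∀ u : Fin ρ → Fin k → F, ∃ w : Fin ρ → F, u ∈ T F (Yset A) ρ →
      w ≠ 0 ∧ Qp k (tab A u) w := by
    intro u
    by_cases hu : u ∈ T F (Yset A) ρ
    · obtain ⟨w, hw⟩ := exists_Qp hk hkn hρ hu (hv u hu)
      exact ⟨w, fun _ => hw⟩
    · exact ⟨0, fun h => absurd h hu⟩
  choose w hw using h1
  have h2 : (Fintype.card F - 1) = (Finset.univ.erase (0 : F)).card := by
    rw [Finset.card_erase_of_mem (Finset.mem_univ _), Finset.card_univ]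
  rw [h2, ← Finset.card_product]
  unfold Wc
  apply Finset.card_le_card_of_injOn (fun p => (p.1, p.2 • w p.1))
  · intro p hp
    rw [Finset.mem_coe, Finset.mem_product, Finset.mem_erase] at hp
    rw [Finset.mem_coe, Finset.mem_filter]
    exact ⟨Finset.mem_univ _, (mem_T.1 hp.1).1, Qp_smul (hw p.1 hp.1).2 hp.2.1⟩
  · rintro ⟨u, c⟩ hp ⟨u', c'⟩ hp' heq
    simp only [Prod.mk.injEq] at heq
    obtain ⟨rfl, h3⟩ := heq
    rw [Finset.mem_coe, Finset.mem_product, Finset.mem_erase] at hp
    have h4 := (hw u hp.1).1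
    have h5 : (c - c') • w u = 0 := by rw [sub_smul, h3, sub_self]
    rcases smul_eq_zero.1 h5 with h6 | h6
    · rw [sub_eq_zero.1 h6]
    · exact absurd h6 h4

end Pool.Agent.R143.MDS
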