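import Pool.Agent.R143.MDS.Avg

/-! Bounds for the parameters. -/

namespace Pool.Agent.R143.MDS

open Finset Submodule Module Filter Topology

variable {F : Type} [Field F] [Fintype F] [DecidableEq F] {n k : ℕ}

lemma card_vanish (S : Finset (Fin n)) :
    (Finset.univ.filter fun x : Fin n → F => ∀ i ∈ S, x i = 0).card =
      (Fintype.card F) ^ (n - S.card) := by
  classical
  have h1 : (Finset.univ.filter fun x : Fin n → F => ∀ i ∈ S, x i = 0) =
      Fintype.piFinset (fun i => if i ∈ S then {0} else Finset.univ) := by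
    ext x
    simp only [mem_filter, mem_univ, true_and, Fintype.mem_piFinset]
    constructor
    · intro h i
      by_cases hi : i ∈ S
      · simp [hi, h i hi]
      · simp [hi]
    · intro h i hi
      have := h i
      simpa [hi] using this
  rw [h1, Fintype.card_piFinset]
  have h2 : ∀ i : Fin n, (if i ∈ S then ({0} : Finset F) else Finset.univ).card =
      if i ∈ S then 1 else Fintype.card F := by
    intro i
    split_ifs <;> simp
  simp_rw [h2]
  rw [Finset.prod_ite, Finset.prod_const_one, one_mul, Finset.prod_const]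
  congr 1
  have h3 : (Finset.univ.filter fun i => i ∉ S) = Sᶜ := by ext; simp
  rw [h3, Finset.card_compl, Fintype.card_fin]

lemma card_exact (S : Finset (Fin n)) :
    (Finset.univ.filter fun x : Fin n → F => (Finset.univ.filter fun i => x i = 0) = S).card =
      (Fintype.card F - 1) ^ (n - S.card) := by
  classical
  have h1 : (Finset.univ.filter fun x : Fin n → F => (Finset.univ.filter fun i => x i = 0) = S) =
      Fintype.piFinset (fun i => if i ∈ S then {0} else Finset.univ.erase 0) := by
    ext x
    simp only [mem_filter, mem_univ, true_and, Fintype.mem_piFinset]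
    constructor
    · rintro rfl i
      by_cases hi : x i = 0
      · simp [hi]
      · simp [hi]
    · intro h
      ext i
      have := h i
      by_cases hi : i ∈ S
      · simpa [hi] using this
      · simpa [hi] using this
  rw [h1, Fintype.card_piFinset]
  have h2 : ∀ i : Fin n, (if i ∈ S then ({0} : Finset F) else Finset.univ.erase 0).card =
      if i ∈ S then 1 else (Fintype.card F - 1) := by
    intro i
    split_ifs
    · simp
    · rw [Finset.card_erase_of_mem (Finset.mem_univ _), Finset.card_univ]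
  simp_rw [h2]
  rw [Finset.prod_ite, Finset.prod_const_one, one_mul, Finset.prod_const]
  congr 1
  have h3 : (Finset.univ.filter fun i => i ∉ S) = Sᶜ := by ext; simp
  rw [h3, Finset.card_compl, Fintype.card_fin]

lemma ZZ_le : ZZ F n k ≤ n.choose k * (Fintype.card F) ^ (n - k) := by
  classical
  unfold ZZ
  have h1 : (Finset.univ.filter fun x : Fin n → F =>
      k ≤ (Finset.univ.filter fun i => x i = 0).card) ⊆
      (Finset.powersetCard k (Finset.univ : Finset (Fin n))).biUnion fun S =>
        (Finset.univ.filter fun x : Fin n → F => ∀ i ∈ S, x i = 0) := by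
    intro x hx
    rw [mem_filter] at hx
    obtain ⟨S, hS, hS'⟩ := Finset.exists_subset_card_eq hx.2
    rw [mem_biUnion]
    refine ⟨S, Finset.mem_powersetCard.2 ⟨Finset.subset_univ _, hS'⟩, ?_⟩
    rw [mem_filter]
    refine ⟨mem_univ _, fun i hi => ?_⟩
    have := hS hi
    rw [mem_filter] at this
    exact this.2
  refine (Finset.card_le_card h1).trans (Finset.card_biUnion_le.trans ?_)
  have h2 : ∀ S ∈ Finset.powersetCard k (Finset.univ : Finset (Fin n)),
      (Finset.univ.filter fun x : Fin n → F => ∀ i ∈ S, x i = 0).card =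
        (Fintype.card F) ^ (n - k) := by
    intro S hS
    rw [card_vanish, (Finset.mem_powersetCard.1 hS).2]
  rw [Finset.sum_congr rfl h2, Finset.sum_const, Finset.card_powersetCard, Finset.card_univ,
    Fintype.card_fin, smul_eq_mul]

lemma le_ZZ : n.choose k * (Fintype.card F - 1) ^ (n - k) ≤ ZZ F n k := by
  classical
  unfold ZZ
  have h2 : ∀ S ∈ Finset.powersetCard k (Finset.univ : Finset (Fin n)),
      (Finset.univ.filter fun x : Fin n → F =>
        (Finset.univ.filter fun i => x i = 0) = S).card =
        (Fintype.card F - 1) ^ (n - k) := by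
    intro S hS
    rw [card_exact, (Finset.mem_powersetCard.1 hS).2]
  calc n.choose k * (Fintype.card F - 1) ^ (n - k) =
      ∑ S ∈ Finset.powersetCard k (Finset.univ : Finset (Fin n)),
        (Finset.univ.filter fun x : Fin n → F =>
          (Finset.univ.filter fun i => x i = 0) = S).card := by
        rw [Finset.sum_congr rfl h2, Finset.sum_const, Finset.card_powersetCard,
          Finset.card_univ, Fintype.card_fin, smul_eq_mul]
    _ = ((Finset.powersetCard k (Finset.univ : Finset (Fin n))).biUnion fun S =>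
          (Finset.univ.filter fun x : Fin n → F =>
            (Finset.univ.filter fun i => x i = 0) = S)).card := by
        rw [Finset.card_biUnion]
        intro S _ S' _ hSS
        rw [Function.onFun, Finset.disjoint_left]
        intro x hx hx'
        rw [mem_filter] at hx hx'
        exact hSS (hx.2.symm.trans hx'.2)
    _ ≤ _ := by
        apply Finset.card_le_card
        intro x hx
        rw [mem_biUnion] at hx
        obtain ⟨S, hS, hx⟩ := hx
        rw [mem_filter] at hx ⊢
        refine ⟨mem_univ _, ?_⟩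
        rw [hx.2, (Finset.mem_powersetCard.1 hS).2]

lemma mu_le (hkn : k ≤ n) : mu F n k ≤ Lam F n k := by
  have hq := card_pos' F
  have hq1 := q_sub_one_pos F
  have h1 : (ZZ F n k : ℝ) ≤ (n.choose k : ℝ) * (Fintype.card F : ℝ) ^ (n - k) := by
    exact_mod_cast (ZZ_le (F := F) (n := n) (k := k))
  unfold mu Lam
  rw [div_le_div_iff₀ (by positivity) hq1]
  have h2 : (Fintype.card F : ℝ) ^ n = (Fintype.card F : ℝ) ^ k * (Fintype.card F : ℝ) ^ (n - k) := by
    rw [← pow_add]; congr 1; omega
  rw [h2]
  have h3 : (Fintype.card F : ℝ) ^ k * (ZZ F n k : ℝ) ≤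
      (Fintype.card F : ℝ) ^ k * ((n.choose k : ℝ) * (Fintype.card F : ℝ) ^ (n - k)) := by gcongr
  nlinarith

lemma mu_nonneg : 0 ≤ mu F n k := by
  have hq := card_pos' F
  have hq1 := q_sub_one_pos F
  unfold mu
  positivity

lemma le_mu (hkn : k ≤ n) : Lam F n k * (1 - (n : ℝ) / (Fintype.card F : ℝ)) ≤ mu F n k := by
  have hq := card_pos' F
  have hq1 := q_sub_one_pos F
  have h1 : (n.choose k : ℝ) * ((Fintype.card F : ℝ) - 1) ^ (n - k) ≤ (ZZ F n k : ℝ) := by
    rw [← cast_q_sub]
    exact_mod_cast (le_ZZ (F := F) (n := n) (k := k))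
  have h2 : (Fintype.card F : ℝ) ^ n = (Fintype.card F : ℝ) ^ k * (Fintype.card F : ℝ) ^ (n - k) := by
    rw [← pow_add]; congr 1; omega
  have h3 : (1 - (n : ℝ) / (Fintype.card F : ℝ)) ≤
      (((Fintype.card F : ℝ) - 1) / (Fintype.card F : ℝ)) ^ (n - k) := by
    have h4 : ((Fintype.card F : ℝ) - 1) / (Fintype.card F : ℝ) = 1 + -(1 / (Fintype.card F : ℝ)) := by
      field_simp
      ring
    have h5 : 1 / (Fintype.card F : ℝ) ≤ 1 := by
      rw [div_le_one hq]; linarith
    have h6 := one_add_mul_le_pow (a := -(1 / (Fintype.card F : ℝ))) (by linarith) (n - k)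
    rw [h4]
    refine le_trans ?_ h6
    have h7 : ((n - k : ℕ) : ℝ) ≤ (n : ℝ) := by exact_mod_cast Nat.sub_le n k
    have h8 : ((n - k : ℕ) : ℝ) * (1 / (Fintype.card F : ℝ)) ≤ (n : ℝ) * (1 / (Fintype.card F : ℝ)) := by
      gcongr
    have h9 : (n : ℝ) / (Fintype.card F : ℝ) = (n : ℝ) * (1 / (Fintype.card F : ℝ)) := by ring
    rw [h9]
    linarith
  have hL : 0 ≤ Lam F n k := by unfold Lam; positivity
  calc Lam F n k * (1 - (n : ℝ) / (Fintype.card F : ℝ)) ≤
      Lam F n k * (((Fintype.card F : ℝ) - 1) / (Fintype.card F : ℝ)) ^ (n - k) := by gcongr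
    _ = (Fintype.card F : ℝ) ^ k * ((n.choose k : ℝ) * ((Fintype.card F : ℝ) - 1) ^ (n - k)) /
        ((Fintype.card F : ℝ) ^ n * ((Fintype.card F : ℝ) - 1)) := by
        rw [h2, div_pow]
        unfold Lam
        have : (Fintype.card F : ℝ) ≠ 0 := hq.ne'
        have : (Fintype.card F : ℝ) - 1 ≠ 0 := hq1.ne'
        field_simp
    _ ≤ _ := by
        unfold mu
        gcongr

lemma al_le_one (r : ℕ) : al F k r ≤ 1 := by
  have hq := card_pos' F
  unfold al
  rw [div_le_one (by positivity)]
  exact ci_le r

omit [DecidableEq F] in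
lemma al_nonneg (r : ℕ) : 0 ≤ al F k r := by
  have hq := card_pos' F
  unfold al
  positivity

lemma le_al {r : ℕ} (hr : r ≤ k) : 1 - (r : ℝ) / (Fintype.card F : ℝ) ≤ al F k r := by
  classical
  have hq := card_pos' F
  have hq1 := q_sub_one_pos F
  have h1 : ci F k r = ∏ i : Fin r, ((Fintype.card F) ^ k - (Fintype.card F) ^ (i : ℕ)) := by
    have h2 := card_linearIndependent (K := F) (V := Fin k → F) (k := r)
      (by rw [Module.finrank_fintype_fun_eq_card, Fintype.card_fin]; exact hr)
    rw [Module.finrank_fintype_fun_eq_card, Fintype.card_fin] at h2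
    rw [← h2]
    unfold ci
    rw [Nat.card_eq_fintype_card, Fintype.card_subtype]
  have h3 : (ci F k r : ℝ) = ∏ i : Fin r, ((Fintype.card F : ℝ) ^ k - (Fintype.card F : ℝ) ^ (i : ℕ)) := by
    rw [h1]
    push_cast
    apply Finset.prod_congr rfl
    intro i _
    rw [Nat.cast_sub]
    · push_cast; rfl
    · exact Nat.pow_le_pow_right Fintype.card_pos (by omega)
  unfold al
  rw [h3, pow_mul]
  have h4 : ((Fintype.card F : ℝ) ^ k) ^ r = ∏ _i : Fin r, (Fintype.card F : ℝ) ^ k := by
    simp
  rw [h4, ← Finset.prod_div_distrib]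
  have h5 : ∀ i : Fin r, 1 - 1 / (Fintype.card F : ℝ) ≤
      ((Fintype.card F : ℝ) ^ k - (Fintype.card F : ℝ) ^ (i : ℕ)) / (Fintype.card F : ℝ) ^ k := by
    intro i
    rw [sub_div, div_self (by positivity)]
    have h6 : (Fintype.card F : ℝ) ^ (i : ℕ) / (Fintype.card F : ℝ) ^ k ≤ 1 / (Fintype.card F : ℝ) := by
      rw [div_le_div_iff₀ (by positivity) hq, ← pow_succ, one_mul]
      apply pow_le_pow_right₀ (by linarith)
      have := i.2
      omega
    linarith
  have h5' : 1 / (Fintype.card F : ℝ) ≤ 1 := by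
    rw [div_le_one hq]; linarith
  calc 1 - (r : ℝ) / (Fintype.card F : ℝ) = 1 + (r : ℝ) * (-(1 / (Fintype.card F : ℝ))) := by ring
    _ ≤ (1 + -(1 / (Fintype.card F : ℝ))) ^ r := one_add_mul_le_pow (by linarith) r
    _ = ∏ _i : Fin r, (1 - 1 / (Fintype.card F : ℝ)) := by
        simp [sub_eq_add_neg]
    _ ≤ _ := Finset.prod_le_prod (fun _ _ => by linarith) (fun i _ => h5 i)

/-- Unimodality of binomial coefficients. -/
lemma choose_mono_half {m k n : ℕ} (h1 : m ≤ k) (h2 : k ≤ n / 2) : n.choose m ≤ n.choose k := by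
  induction k, h1 using Nat.le_induction with
  | base => exact le_rfl
  | succ k _ ih => exact (ih (by omega)).trans (Nat.choose_le_succ_of_lt_half_left (by omega))

lemma choose_min {m k n : ℕ} (hkn : k ≤ n) (h : m ≤ min k (n - k)) : n.choose m ≤ n.choose k := by
  rw [le_min_iff] at h
  by_cases hk : k ≤ n / 2
  · exact choose_mono_half h.1 hk
  · rw [← Nat.choose_symm hkn]
    exact choose_mono_half h.2 (by omega)

end Pool.Agent.R143.MDS
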