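import Mathlib
import Pool.Agent.R143.MDS.Defs
import Pool.Agent.R143.MDS.Sing

/-! Random subspaces versus random matrices (helper971). -/

namespace Pool.Agent.R143.MDS

open Filter Topology

variable {F : Type} [Field F] [DecidableEq F]

/-- Linear maps with prescribed range. -/
noncomputable def rangeEquiv {n k : ℕ} (C : Submodule F (Fin n → F)) :
    ((Fin k → F) ≃ₗ[F] C) ≃
      {T : (Fin k → F) →ₗ[F] (Fin n → F) // Function.Injective T ∧ LinearMap.range T = C} := by
  refine Equiv.ofBijective (fun e => ⟨C.subtype.comp e.toLinearMap, ?_, ?_⟩) ⟨?_, ?_⟩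
  · intro x y hxy
    apply e.injective
    apply Subtype.ext
    exact hxy
  · ext z
    constructor
    · rintro ⟨x, rfl⟩
      exact (e x).2
    · intro hz
      exact ⟨e.symm ⟨z, hz⟩, by simp⟩
  · intro e e' h
    ext x : 1
    have := LinearMap.congr_fun (congrArg Subtype.val h) x
    exact Subtype.ext this
  · rintro ⟨T, hT, rfl⟩
    refine ⟨LinearEquiv.ofInjective T hT, ?_⟩
    apply Subtype.ext
    ext x
    rfl

omit [DecidableEq F] in
theorem card_range [Fintype F] {n k : ℕ} (C : Submodule F (Fin n → F))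
    (hC : Module.finrank F C = k) :
    Nat.card {T : (Fin k → F) →ₗ[F] (Fin n → F) // Function.Injective T ∧ LinearMap.range T = C} =
      Nat.card ((Fin k → F) ≃ₗ[F] (Fin k → F)) := by
  classical
  rw [← Nat.card_congr (rangeEquiv C)]
  have e0 : C ≃ₗ[F] (Fin k → F) := LinearEquiv.ofFinrankEq _ _ (by simp [hC])
  exact Nat.card_congr ⟨fun e => e.trans e0, fun e => e.trans e0.symm,
    fun e => by ext x; simp, fun e => by ext x; simp⟩

omit [DecidableEq F] in
theorem card_inj [Fintype F] {n k : ℕ} (P : Submodule F (Fin n → F) → Prop) :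
    Nat.card {T : (Fin k → F) →ₗ[F] (Fin n → F) // Function.Injective T ∧ P (LinearMap.range T)} =
      Nat.card {C : Submodule F (Fin n → F) // Module.finrank F C = k ∧ P C} *
        Nat.card ((Fin k → F) ≃ₗ[F] (Fin k → F)) := by
  classical
  have : Finite ((Fin k → F) →ₗ[F] (Fin n → F)) :=
    Finite.of_injective (fun T => (T : (Fin k → F) → (Fin n → F))) DFunLike.coe_injective
  have : Finite (Submodule F (Fin n → F)) :=
    Finite.of_injective (fun C => (C : Set (Fin n → F))) SetLike.coe_injective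
  have : Fintype {C : Submodule F (Fin n → F) // Module.finrank F C = k ∧ P C} :=
    Fintype.ofFinite _
  let e : {T : (Fin k → F) →ₗ[F] (Fin n → F) // Function.Injective T ∧ P (LinearMap.range T)} ≃
      Σ C : {C : Submodule F (Fin n → F) // Module.finrank F C = k ∧ P C},
        {T : (Fin k → F) →ₗ[F] (Fin n → F) // Function.Injective T ∧ LinearMap.range T = C} :=
    { toFun := fun T => ⟨⟨LinearMap.range T.1, by
          rw [LinearMap.finrank_range_of_inj T.2.1]; simp, T.2.2⟩, ⟨T.1, T.2.1, rfl⟩⟩
      invFun := fun x => ⟨x.2.1, x.2.2.1, by rw [x.2.2.2]; exact x.1.2.2⟩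
      left_inv := fun T => rfl
      right_inv := by
        rintro ⟨⟨C, hC⟩, ⟨T, hT, hr⟩⟩
        change LinearMap.range T = C at hr
        subst hr
        rfl }
  rw [Nat.card_congr e, Nat.card_sigma]
  rw [Finset.sum_congr rfl fun C _ => card_range C.1 C.2.1]
  simp

/-- The linear map of a matrix. -/
noncomputable def TT {n k : ℕ} : (Fin n → Fin k → F) ≃ ((Fin k → F) →ₗ[F] (Fin n → F)) :=
  (Matrix.of (m := Fin n) (n := Fin k) (α := F)).trans
    (Matrix.toLin' (R := F) (m := Fin n) (n := Fin k)).toEquiv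

omit [DecidableEq F] in
theorem TT_apply {n k : ℕ} (A : Fin n → Fin k → F) (u : Fin k → F) (i : Fin n) :
    TT A u i = u ⬝ᵥ A i := by
  rw [dotProduct_comm]
  rfl

theorem zset_card {n k : ℕ} (A : Fin n → Fin k → F) (u : Fin k → F) :
    hammingNorm (TT A u) + (zset A u).card = n := by
  have := hammingNorm_add_zeros (TT A u)
  convert this using 3
  unfold zset
  simp only [TT_apply]

theorem good_iff {n k : ℕ} (hk : 1 ≤ k) (hkn : k < n) (A : Fin n → Fin k → F) :
    Good A ↔ Function.Injective (TT A) ∧ IsMDS (LinearMap.range (TT A)) := by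
  have key : Good A → Function.Injective (TT A) := by
    intro h
    rw [← LinearMap.ker_eq_bot, Submodule.eq_bot_iff]
    intro u hu
    by_contra hu0
    have h1 := h u hu0
    have h2 := zset_card A u
    rw [LinearMap.mem_ker.1 hu, hammingNorm_zero] at h2
    omega
  constructor
  · intro h
    refine ⟨key h, ?_⟩
    rw [isMDS_iff hk hkn.le _ (by rw [LinearMap.finrank_range_of_inj (key h)]; simp)]
    rintro _ ⟨u, rfl⟩ hu
    have hu0 : u ≠ 0 := by
      rintro rfl
      exact hu (map_zero _)
    have h1 := h u hu0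
    have h2 := zset_card A u
    omega
  · rintro ⟨hi, hm⟩ u hu
    rw [isMDS_iff hk hkn.le _ (by rw [LinearMap.finrank_range_of_inj hi]; simp)] at hm
    have h1 := hm (TT A u) ⟨u, rfl⟩ (fun h0 => hu (hi (by rw [h0, map_zero])))
    have h2 := zset_card A u
    omega

omit [DecidableEq F] in
/-- Number of vectors orthogonal to a nonzero vector. -/
theorem card_orth [Fintype F] {k : ℕ} (u : Fin k → F) (hu : u ≠ 0) :
    Nat.card {a : Fin k → F // u ⬝ᵥ a = 0} = Fintype.card F ^ (k - 1) := by
  classical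
  let φ : (Fin k → F) →ₗ[F] F :=
    { toFun := fun a => u ⬝ᵥ a
      map_add' := fun a b => dotProduct_add _ _ _
      map_smul' := fun c a => dotProduct_smul _ _ _ }
  have hφ : φ ≠ 0 := by
    intro h0
    apply hu
    funext i
    have := LinearMap.congr_fun h0 (Pi.single i 1)
    simpa [φ] using this
  have hr : LinearMap.range φ = ⊤ := LinearMap.range_eq_top.2 (LinearMap.surjective_of_ne_zero hφ)
  have h1 := LinearMap.finrank_range_add_finrank_ker φ
  rw [hr, finrank_top, Module.finrank_self, Module.finrank_fin_fun] at h1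
  have h2 : Nat.card (LinearMap.ker φ) = Fintype.card F ^ Module.finrank F (LinearMap.ker φ) := by
    rw [Nat.card_eq_fintype_card, Module.card_eq_pow_finrank (K := F)]
  have h3 : Module.finrank F (LinearMap.ker φ) = k - 1 := by omega
  rw [h3] at h2
  rw [← h2]
  exact Nat.card_congr (Equiv.refl _)

theorem card_notInj [Fintype F] {n k : ℕ} :
    Nat.card {A : Fin n → Fin k → F // ¬ Function.Injective (TT A)} ≤
      Fintype.card F ^ k * (Fintype.card F ^ (k - 1)) ^ n := by
  classical
  have h1 : Nat.card (Σ u : {u : Fin k → F // u ≠ 0}, {A : Fin n → Fin k → F // TT A u.1 = 0}) ≤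
      Fintype.card F ^ k * (Fintype.card F ^ (k - 1)) ^ n := by
    rw [Nat.card_sigma]
    have h2 : ∀ u : {u : Fin k → F // u ≠ 0},
        Nat.card {A : Fin n → Fin k → F // TT A u.1 = 0} = (Fintype.card F ^ (k - 1)) ^ n := by
      intro u
      let e : {A : Fin n → Fin k → F // TT A u.1 = 0} ≃
          (Fin n → {a : Fin k → F // u.1 ⬝ᵥ a = 0}) :=
        { toFun := fun A i => ⟨A.1 i, by rw [← TT_apply, A.2]; rfl⟩
          invFun := fun B => ⟨fun i => (B i).1, by
            funext i; rw [TT_apply]; exact (B i).2⟩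
          left_inv := fun A => rfl
          right_inv := fun B => rfl }
      rw [Nat.card_congr e, Nat.card_fun, card_orth u.1 u.2]
      simp
    rw [Finset.sum_congr rfl fun u _ => h2 u]
    rw [Finset.sum_const, smul_eq_mul]
    refine Nat.mul_le_mul_right _ ?_
    rw [Finset.card_univ]
    calc Fintype.card {u : Fin k → F // u ≠ 0} ≤ Fintype.card (Fin k → F) :=
          Fintype.card_subtype_le _
      _ = Fintype.card F ^ k := by simp
  refine le_trans ?_ h1
  have h3 : ∀ A : {A : Fin n → Fin k → F // ¬ Function.Injective (TT A)},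
      ∃ u : Fin k → F, u ≠ 0 ∧ TT A.1 u = 0 := by
    intro A
    have := A.2
    rw [← LinearMap.ker_eq_bot] at this
    obtain ⟨u, hu, hu0⟩ := (Submodule.ne_bot_iff _).1 this
    exact ⟨u, hu0, hu⟩
  choose f hf using h3
  refine Nat.card_le_card_of_injective
    (fun A => (⟨⟨f A, (hf A).1⟩, ⟨A.1, (hf A).2⟩⟩ :
      Σ u : {u : Fin k → F // u ≠ 0}, {A : Fin n → Fin k → F // TT A u.1 = 0})) ?_
  intro A B hAB
  have hv : ∀ x y : (Σ u : {u : Fin k → F // u ≠ 0}, {A : Fin n → Fin k → F // TT A u.1 = 0}),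
      x = y → x.2.1 = y.2.1 := by
    rintro x y rfl; rfl
  exact Subtype.ext (hv _ _ hAB)

theorem mdsProb_near (F : Type) [Field F] [Fintype F] [DecidableEq F] {n k : ℕ} (hk : 1 ≤ k)
    (hkn : k < n) : |mdsProb F n k - gp F n k| ≤ 2 / (Fintype.card F : ℝ) := by
  classical
  have : Finite ((Fin k → F) ≃ₗ[F] (Fin k → F)) :=
    Finite.of_injective (fun T => (T : (Fin k → F) → (Fin k → F))) DFunLike.coe_injective
  set g := Nat.card ((Fin k → F) ≃ₗ[F] (Fin k → F)) with hg
  have hg0 : 0 < g := by
    have : Nonempty ((Fin k → F) ≃ₗ[F] (Fin k → F)) := ⟨LinearEquiv.refl _ _⟩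
    exact Nat.card_pos
  set q := Fintype.card F with hq
  have hq1 : 0 < q := Fintype.card_pos
  set a := Nat.card {A : Fin n → Fin k → F // Good A} with ha
  set b := Nat.card {A : Fin n → Fin k → F // Function.Injective (TT A)} with hb
  have ea : a = Nat.card {C : Submodule F (Fin n → F) // Module.finrank F C = k ∧ IsMDS C} * g := by
    rw [← card_inj (k := k) (fun C => IsMDS C)]
    exact Nat.card_congr (TT.subtypeEquiv fun A => good_iff hk hkn A)
  have eb : b = Nat.card {C : Submodule F (Fin n → F) // Module.finrank F C = k} * g := by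
    have h1 := card_inj (F := F) (n := n) (k := k) (fun _ => True)
    simp only [and_true] at h1
    rw [← h1]
    exact Nat.card_congr (TT.subtypeEquiv fun A => Iff.rfl)
  have hm : mdsProb F n k = (a : ℝ) / b := by
    unfold mdsProb
    rw [ea, eb]
    have : (g:ℝ) ≠ 0 := by exact_mod_cast hg0.ne'
    push_cast
    rw [mul_div_mul_right _ _ this]
  have hab : a ≤ b :=
    Nat.card_le_card_of_injective
      (fun A : {A : Fin n → Fin k → F // Good A} =>
        (⟨A.1, ((good_iff hk hkn A.1).1 A.2).1⟩ :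
          {A : Fin n → Fin k → F // Function.Injective (TT A)}))
      (fun A B h => Subtype.ext (Subtype.mk.inj h))
  have htot : b + Nat.card {A : Fin n → Fin k → F // ¬ Function.Injective (TT A)} =
      q ^ (n * k) := by
    have h1 := Fintype.card_subtype_compl (fun A : Fin n → Fin k → F => Function.Injective (TT A))
    have h2 := Fintype.card_subtype_le (fun A : Fin n → Fin k → F => Function.Injective (TT A))
    rw [hb, Nat.card_eq_fintype_card, Nat.card_eq_fintype_card, h1, Nat.add_sub_cancel' h2]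
    simp only [Fintype.card_fun, Fintype.card_fin]
    rw [← pow_mul, mul_comm]
  have hni := card_notInj (F := F) (n := n) (k := k)
  have hcq : Nat.card {A : Fin n → Fin k → F // ¬ Function.Injective (TT A)} * q ≤
      q ^ (n * k) := by
    calc _ ≤ (q ^ k * (q ^ (k - 1)) ^ n) * q := Nat.mul_le_mul_right _ hni
      _ = q ^ (k + (k - 1) * n + 1) := by
          rw [← pow_mul, ← pow_add, ← pow_succ]
      _ ≤ q ^ (n * k) := by
          apply Nat.pow_le_pow_right hq1
          obtain ⟨k, rfl⟩ : ∃ m, k = m + 1 := ⟨k - 1, by omega⟩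
          simp only [Nat.add_sub_cancel]
          nlinarith
  set c' := Nat.card {A : Fin n → Fin k → F // ¬ Function.Injective (TT A)} with hc'
  have hqR : (0:ℝ) < q := by exact_mod_cast hq1
  have hcR : (0:ℝ) < (q:ℝ) ^ (n * k) := by positivity
  have htR : (b:ℝ) + c' = (q:ℝ) ^ (n * k) := by exact_mod_cast htot
  have hcqR : (c':ℝ) * q ≤ (q:ℝ) ^ (n * k) := by exact_mod_cast hcq
  have habR : (a:ℝ) ≤ b := by exact_mod_cast hab
  have ha0 : (0:ℝ) ≤ a := Nat.cast_nonneg _
  have hc0 : (0:ℝ) ≤ c' := Nat.cast_nonneg _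
  have hgp : gp F n k = (a:ℝ) / (q:ℝ) ^ (n * k) := rfl
  rw [hm, hgp]
  have hcc : (c':ℝ) / (q:ℝ) ^ (n * k) ≤ 1 / q := by
    rw [div_le_div_iff₀ hcR hqR]
    linarith
  have hq2 : (0:ℝ) ≤ 1 / q := by positivity
  rcases (Nat.cast_nonneg b : (0:ℝ) ≤ b).eq_or_lt with hb0 | hb0
  · have : (a:ℝ) = 0 := by linarith
    rw [this, zero_div, zero_div, sub_zero, abs_zero]
    positivity
  · have e : (a:ℝ) / b - a / (q:ℝ) ^ (n * k) = (a / b) * (c' / (q:ℝ) ^ (n * k)) := by
      rw [← htR]
      have : (b:ℝ) + c' ≠ 0 := by positivity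
      field_simp
      ring
    rw [e, abs_of_nonneg (by positivity)]
    have h1 : (a:ℝ) / b ≤ 1 := (div_le_one hb0).2 habR
    calc (a:ℝ) / b * (c' / (q:ℝ) ^ (n * k)) ≤ 1 * (1 / q) :=
          mul_le_mul h1 hcc (by positivity) zero_le_one
      _ ≤ 2 / q := by
          rw [one_mul]
          apply div_le_div_of_nonneg_right _ hqR.le
          norm_num

end Pool.Agent.R143.MDS
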