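import Pool.Agent.R143.MDS.Moment
import Pool.Agent.R143.MDS.Near
import Pool.Agent.R143.MDS.Dual
import Pool.Agent.R143.MDS.Fixed

/-! The Poisson limit. -/

namespace Pool.Agent.R143.MDS

open Filter Topology

/-- Passing from `gp` to `mdsProb`. -/
lemma mds_of_gp (lam : ℝ) (n k : ℕ → ℕ) (F : ℕ → Type)
    [∀ j, Field (F j)] [∀ j, Fintype (F j)] [∀ j, DecidableEq (F j)]
    (hk1 : ∀ᶠ j in atTop, 1 ≤ k j) (hkn : ∀ᶠ j in atTop, k j < n j)
    (hq : Tendsto (fun j => Fintype.card (F j)) atTop atTop)
    (h : Tendsto (fun j => gp (F j) (n j) (k j)) atTop (𝓝 (Real.exp (-lam)))) :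
    Tendsto (fun j => mdsProb (F j) (n j) (k j)) atTop (𝓝 (Real.exp (-lam))) := by
  have hqR : Tendsto (fun j => (Fintype.card (F j) : ℝ)) atTop atTop :=
    tendsto_natCast_atTop_atTop.comp hq
  have h2 : Tendsto (fun j => 2 / (Fintype.card (F j) : ℝ)) atTop (𝓝 0) :=
    tendsto_const_nhds.div_atTop hqR
  have h3 : Tendsto (fun j => mdsProb (F j) (n j) (k j) - gp (F j) (n j) (k j)) atTop (𝓝 0) := by
    apply squeeze_zero_norm' _ h2
    filter_upwards [hk1, hkn] with j h1 h2
    rw [Real.norm_eq_abs]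
    exact mdsProb_near (F j) h1 h2
  have h4 := h3.add h
  simpa using h4

theorem main (lam : ℝ) (hlam : 0 < lam) (n k : ℕ → ℕ) (F : ℕ → Type)
    [∀ j, Field (F j)] [∀ j, Fintype (F j)] [∀ j, DecidableEq (F j)]
    (hk1 : ∀ j, 1 ≤ k j) (hkn : ∀ j, k j ≤ n j) (hn : Tendsto n atTop atTop)
    (hq : Tendsto (fun j => Fintype.card (F j)) atTop atTop)
    (h : Tendsto (fun j => ((n j).choose (k j) : ℝ) / (Fintype.card (F j) : ℝ)) atTop (𝓝 lam)) :
    Tendsto (fun j => mdsProb (F j) (n j) (k j)) atTop (𝓝 (Real.exp (-lam))) := by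
  have hqR : Tendsto (fun j => (Fintype.card (F j) : ℝ)) atTop atTop :=
    tendsto_natCast_atTop_atTop.comp hq
  -- eventually k < n
  have hlt : ∀ᶠ j in atTop, k j < n j := by
    have h1 : Tendsto (fun j => 1 / (Fintype.card (F j) : ℝ)) atTop (𝓝 0) :=
      tendsto_const_nhds.div_atTop hqR
    have h2 := h1.eventually_lt_const (show (0 : ℝ) < lam / 2 by positivity)
    have h3 := h.eventually_const_lt (show lam / 2 < lam by linarith)
    filter_upwards [h2, h3] with j h2 h3
    rcases (hkn j).lt_or_eq with h4 | h4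
    · exact h4
    · rw [h4, Nat.choose_self, Nat.cast_one] at h3
      linarith
  apply tendsto_of_subseq_tendsto
  intro ns hns
  by_cases hcase : ∀ M : ℕ, ∃ᶠ j in atTop, M ≤ min (k (ns j)) (n (ns j) - k (ns j))
  · obtain ⟨φ, hφ, hφ'⟩ := Filter.extraction_forall_of_frequently hcase
    refine ⟨φ, ?_⟩
    have hsub : Tendsto (fun j => ns (φ j)) atTop atTop := hns.comp hφ.tendsto_atTop
    have h1 := gp_moment lam hlam (fun j => n (ns (φ j))) (fun j => k (ns (φ j)))
      (fun j => F (ns (φ j))) (fun j => hkn _) (tendsto_atTop_mono hφ' tendsto_id)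
      (hq.comp hsub) (h.comp hsub)
    exact mds_of_gp lam (fun j => n (ns (φ j))) (fun j => k (ns (φ j)))
      (fun j => F (ns (φ j))) (Eventually.of_forall fun j => hk1 _) (hsub.eventually hlt)
      (hq.comp hsub) h1
  · push Not at hcase
    obtain ⟨M, hM⟩ := hcase
    have hv : ∃ v < M, ∃ᶠ j in atTop, k (ns j) = v ∨ n (ns j) - k (ns j) = v := by
      by_contra hcon
      push Not at hcon
      have h1 : ∀ᶠ j in atTop, ∀ v ∈ Finset.range M,
          ¬ (k (ns j) = v ∨ n (ns j) - k (ns j) = v) := by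
        rw [Finset.eventually_all]
        intro v hv
        have := hcon v (Finset.mem_range.1 hv)
        filter_upwards [this] with j hj
        push Not
        exact hj
      obtain ⟨j, hj1, hj2⟩ := (h1.and hM).exists
      rcases min_lt_iff.1 hj2 with h3 | h3
      · exact hj1 _ (Finset.mem_range.2 h3) (Or.inl rfl)
      · exact hj1 _ (Finset.mem_range.2 h3) (Or.inr rfl)
    obtain ⟨v, _, hv⟩ := hv
    rw [Filter.frequently_or_distrib] at hv
    rcases hv with hv | hv
    · obtain ⟨φ, hφ, hφ'⟩ := Filter.extraction_of_frequently_atTop hv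
      refine ⟨φ, ?_⟩
      have hsub : Tendsto (fun j => ns (φ j)) atTop atTop := hns.comp hφ.tendsto_atTop
      have hv1 : 1 ≤ v := by
        have := hk1 (ns (φ 0))
        rw [hφ' 0] at this
        exact this
      have h2 : Tendsto (fun j => ((n (ns (φ j))).choose v : ℝ) /
          (Fintype.card (F (ns (φ j))) : ℝ)) atTop (𝓝 lam) := by
        refine (h.comp hsub).congr ?_
        intro j
        simp only [Function.comp]
        rw [hφ' j]
      have h1 := gp_fixed v hv1 lam hlam (fun j => n (ns (φ j)))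
        (fun j => F (ns (φ j))) (hn.comp hsub) (hq.comp hsub) h2
      have h3 := mds_of_gp lam (fun j => n (ns (φ j))) (fun _ => v)
        (fun j => F (ns (φ j))) (Eventually.of_forall fun j => hv1)
        ((hn.comp hsub).eventually_gt_atTop v) (hq.comp hsub) h1
      refine h3.congr ?_
      intro j
      rw [← hφ' j]
    · obtain ⟨φ, hφ, hφ'⟩ := Filter.extraction_of_frequently_atTop hv
      refine ⟨φ, ?_⟩
      have hsub : Tendsto (fun j => ns (φ j)) atTop atTop := hns.comp hφ.tendsto_atTop
      have hv1 : 1 ≤ v := by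
        obtain ⟨j, hj⟩ := (hsub.eventually hlt).exists
        have := hφ' j
        omega
      have h2 : Tendsto (fun j => ((n (ns (φ j))).choose v : ℝ) /
          (Fintype.card (F (ns (φ j))) : ℝ)) atTop (𝓝 lam) := by
        refine (h.comp hsub).congr ?_
        intro j
        simp only [Function.comp]
        rw [← hφ' j, Nat.choose_symm (hkn _)]
      have h1 := gp_fixed v hv1 lam hlam (fun j => n (ns (φ j)))
        (fun j => F (ns (φ j))) (hn.comp hsub) (hq.comp hsub) h2
      have h3 := mds_of_gp lam (fun j => n (ns (φ j))) (fun _ => v)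
        (fun j => F (ns (φ j))) (Eventually.of_forall fun j => hv1)
        ((hn.comp hsub).eventually_gt_atTop v) (hq.comp hsub) h1
      refine h3.congr ?_
      intro j
      have h4 := hφ' j
      have h5 := hkn (ns (φ j))
      have h6 := hk1 (ns (φ j))
      have h7 : n (ns (φ j)) - v = k (ns (φ j)) := by omega
      rw [← mdsProb_dual (F (ns (φ j))) hv1 (show v < n (ns (φ j)) by omega), h7]

end Pool.Agent.R143.MDS
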