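import Pool.Agent.R143.MDS.Lim

/-! The Poisson limit by the method of moments. -/

namespace Pool.Agent.R143.MDS

open Finset Submodule Module Filter Topology

/-- Polynomials in `n` are negligible against `q`. -/
lemma pow_div_tendsto (lam : ℝ) (n k : ℕ → ℕ) (q : ℕ → ℝ) (hq0 : ∀ j, 0 < q j)
    (hk : ∀ j, k j ≤ n j) (hm : Tendsto (fun j => min (k j) (n j - k j)) atTop atTop)
    (h : Tendsto (fun j => ((n j).choose (k j) : ℝ) / q j) atTop (𝓝 lam)) (C : ℕ) :
    Tendsto (fun j => (n j : ℝ) ^ C / q j) atTop (𝓝 0) := by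
  have hn : Tendsto n atTop atTop :=
    tendsto_atTop_mono (fun j => (min_le_left _ _).trans (hk j)) hm
  have hnR : Tendsto (fun j => (n j : ℝ)) atTop atTop := tendsto_natCast_atTop_atTop.comp hn
  have h1 : Tendsto (fun j => (n j : ℝ) ^ C / ((n j).choose (k j) : ℝ)) atTop (𝓝 0) := by
    have h2 : Tendsto (fun j => (2 : ℝ) ^ (C + 1) * ((C + 1).factorial : ℝ) / (n j : ℝ)) atTop
        (𝓝 0) := tendsto_const_nhds.div_atTop hnR
    apply squeeze_zero' (Eventually.of_forall fun j => by positivity) _ h2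
    filter_upwards [hm.eventually_ge_atTop (C + 1), hn.eventually_ge_atTop (2 * (C + 1))]
      with j hj hj2
    have h3 : (n j).choose (C + 1) ≤ (n j).choose (k j) := choose_min (hk j) hj
    have h4 := Nat.pow_le_choose (α := ℝ) (C + 1) (n j)
    have h5 : (n j : ℝ) / 2 ≤ ((n j + 1 - (C + 1) : ℕ) : ℝ) := by
      rw [div_le_iff₀ (by norm_num)]
      have : n j ≤ (n j + 1 - (C + 1)) * 2 := by omega
      exact_mod_cast this
    have hnp : (0 : ℝ) < (n j : ℝ) := by
      have : 0 < n j := by omega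
      exact_mod_cast this
    have h6 : ((n j : ℝ) / 2) ^ (C + 1) / ((C + 1).factorial : ℝ) ≤
        ((n j).choose (k j) : ℝ) := by
      calc ((n j : ℝ) / 2) ^ (C + 1) / ((C + 1).factorial : ℝ) ≤
          ((n j + 1 - (C + 1) : ℕ) : ℝ) ^ (C + 1) / ((C + 1).factorial : ℝ) := by gcongr
        _ ≤ ((n j).choose (C + 1) : ℝ) := h4
        _ ≤ _ := by exact_mod_cast h3
    have h7 : 0 < ((n j : ℝ) / 2) ^ (C + 1) / ((C + 1).factorial : ℝ) := by positivity
    calc (n j : ℝ) ^ C / ((n j).choose (k j) : ℝ) ≤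
        (n j : ℝ) ^ C / (((n j : ℝ) / 2) ^ (C + 1) / ((C + 1).factorial : ℝ)) := by gcongr
      _ = _ := by
        rw [div_pow, pow_succ (n j : ℝ)]
        field_simp
  have h8 := h.mul h1
  rw [mul_zero] at h8
  refine h8.congr' ?_
  filter_upwards with j
  have hc : (0 : ℝ) < ((n j).choose (k j) : ℝ) := by
    exact_mod_cast Nat.choose_pos (hk j)
  have := (hq0 j).ne'
  field_simp

theorem gp_moment (lam : ℝ) (hlam : 0 < lam) (n k : ℕ → ℕ) (F : ℕ → Type)
    [∀ j, Field (F j)] [∀ j, Fintype (F j)] [∀ j, DecidableEq (F j)]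
    (hk : ∀ j, k j ≤ n j) (hm : Tendsto (fun j => min (k j) (n j - k j)) atTop atTop)
    (hq : Tendsto (fun j => Fintype.card (F j)) atTop atTop)
    (h : Tendsto (fun j => ((n j).choose (k j) : ℝ) / (Fintype.card (F j) : ℝ)) atTop (𝓝 lam)) :
    Tendsto (fun j => gp (F j) (n j) (k j)) atTop (𝓝 (Real.exp (-lam))) := by
  set q : ℕ → ℝ := fun j => (Fintype.card (F j) : ℝ) with hqdef
  have hq0 : ∀ j, 0 < q j := fun j => card_pos' (F j)
  have hq1 : ∀ j, 0 < q j - 1 := fun j => q_sub_one_pos (F j)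
  have hqR : Tendsto q atTop atTop := tendsto_natCast_atTop_atTop.comp hq
  have hpow := pow_div_tendsto lam n k q hq0 hk hm h
  -- Lam → lam
  have hLam : Tendsto (fun j => Lam (F j) (n j) (k j)) atTop (𝓝 lam) := by
    have h1 : Tendsto (fun j => 1 - 1 / q j) atTop (𝓝 1) := by
      have : Tendsto (fun j => 1 / q j) atTop (𝓝 0) := tendsto_const_nhds.div_atTop hqR
      simpa using tendsto_const_nhds.sub this
    have h2 := h.div h1 one_ne_zero
    rw [div_one] at h2
    refine h2.congr' ?_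
    filter_upwards with j
    have a1 := (hq0 j).ne'
    have a2 := (hq1 j).ne'
    change ((n j).choose (k j) : ℝ) / q j / (1 - 1 / q j) = ((n j).choose (k j) : ℝ) / (q j - 1)
    have a3 : 1 - 1 / q j = (q j - 1) / q j := by field_simp
    rw [a3]
    field_simp
  -- mu → lam
  have hmu : Tendsto (fun j => mu (F j) (n j) (k j)) atTop (𝓝 lam) := by
    have h1 : Tendsto (fun j => Lam (F j) (n j) (k j) * (1 - (n j : ℝ) / q j)) atTop
        (𝓝 lam) := by
      have := hpow 1
      simp only [pow_one] at this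
      have h2 := hLam.mul ((tendsto_const_nhds (x := (1 : ℝ))).sub this)
      simpa using h2
    exact tendsto_of_tendsto_of_tendsto_of_le_of_le h1 hLam
      (fun j => le_mu (hk j)) (fun j => mu_le (hk j))
  -- al → 1
  have hkinf : Tendsto k atTop atTop := tendsto_atTop_mono (fun j => min_le_left _ _) hm
  have hal : ∀ r : ℕ, Tendsto (fun j => al (F j) (k j) r) atTop (𝓝 1) := by
    intro r
    have h1 : Tendsto (fun j => 1 - (r : ℝ) / q j) atTop (𝓝 1) := by
      have : Tendsto (fun j => (r : ℝ) / q j) atTop (𝓝 0) := tendsto_const_nhds.div_atTop hqR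
      simpa using tendsto_const_nhds.sub this
    apply tendsto_of_tendsto_of_tendsto_of_le_of_le' h1 tendsto_const_nhds
    · filter_upwards [hkinf.eventually_ge_atTop r] with j hj
      exact le_al hj
    · exact Eventually.of_forall fun j => al_le_one r
  -- terms
  have hterm : ∀ r : ℕ, Tendsto (fun j => al (F j) (k j) r * mu (F j) (n j) (k j) ^ r /
      (r.factorial : ℝ)) atTop (𝓝 (lam ^ r / (r.factorial : ℝ))) := by
    intro r
    have := ((hal r).mul (hmu.pow r)).div_const (r.factorial : ℝ)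
    simpa using this
  -- tau
  have htau : ∀ R : ℕ, 1 ≤ R → ∃ τ : ℕ → ℝ, (∀ j, 0 < τ j ∧ τ j ≤ 1 ∧
      τ j ^ (2 * R) = 1 / q j) ∧
      Tendsto (fun j => (1 + τ j) ^ (n j * R) - 1) atTop (𝓝 0) := by
    intro R hR
    refine ⟨fun j => (1 / q j) ^ ((1 : ℝ) / (2 * R : ℕ)), fun j => ⟨?_, ?_, ?_⟩, ?_⟩
    · have := hq0 j
      positivity
    · apply Real.rpow_le_one (by have := hq0 j; positivity)
      · rw [div_le_one (hq0 j)]
        have := hq1 j
        linarith
      · positivity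
    · rw [one_div ((2 * R : ℕ) : ℝ)]
      exact Real.rpow_inv_natCast_pow (by have := hq0 j; positivity) (by omega)
    · set τ : ℕ → ℝ := fun j => (1 / q j) ^ ((1 : ℝ) / (2 * R : ℕ)) with hτ
      have hτ0 : ∀ j, 0 < τ j := fun j => by
        have := hq0 j
        simp only [hτ]
        positivity
      have hτp : ∀ j, τ j ^ (2 * R) = 1 / q j := fun j => by
        simp only [hτ]
        rw [one_div ((2 * R : ℕ) : ℝ)]
        exact Real.rpow_inv_natCast_pow (by have := hq0 j; positivity) (by omega)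
      have h1 : Tendsto (fun j => (n j : ℝ) * R * τ j) atTop (𝓝 0) := by
        have h2 : Tendsto (fun j => ((n j : ℝ) * R * τ j) ^ (2 * R)) atTop (𝓝 0) := by
          have h3 := (hpow (2 * R)).const_mul ((R : ℝ) ^ (2 * R))
          rw [mul_zero] at h3
          refine h3.congr ?_
          intro j
          rw [mul_pow, mul_pow, hτp]
          ring
        rw [Metric.tendsto_atTop] at h2 ⊢
        intro ε hε
        obtain ⟨N, hN⟩ := h2 (ε ^ (2 * R)) (by positivity)
        refine ⟨N, fun j hj => ?_⟩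
        have h3 := hN j hj
        rw [Real.dist_eq, sub_zero] at h3 ⊢
        have h4 : 0 ≤ (n j : ℝ) * R * τ j := by have := hτ0 j; positivity
        rw [abs_of_nonneg h4]
        rw [abs_of_nonneg (by positivity)] at h3
        exact lt_of_pow_lt_pow_left₀ (2 * R) hε.le h3
      have h5 : Tendsto (fun j => Real.exp ((n j : ℝ) * R * τ j) - 1) atTop (𝓝 0) := by
        have := (Real.continuous_exp.tendsto 0).comp h1
        rw [Real.exp_zero] at this
        simpa using this.sub_const 1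
      apply squeeze_zero (fun j => ?_) (fun j => ?_) h5
      · have : 1 ≤ (1 + τ j) ^ (n j * R) := one_le_pow₀ (by have := hτ0 j; linarith)
        linarith
      · have h6 : (1 + τ j) ≤ Real.exp (τ j) := by
          have := Real.add_one_le_exp (τ j)
          linarith
        have h7 : (1 + τ j) ^ (n j * R) ≤ Real.exp (τ j) ^ (n j * R) :=
          pow_le_pow_left₀ (by have := hτ0 j; linarith) h6 _
        have h8 : Real.exp (τ j) ^ (n j * R) = Real.exp ((n j : ℝ) * R * τ j) := by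
          rw [← Real.exp_nat_mul]
          congr 1
          push_cast
          ring
        rw [h8] at h7
        linarith
  -- conclusion
  rw [Metric.tendsto_atTop]
  intro ε hε
  -- choose R
  have hexp : Tendsto (fun R : ℕ => ∑ r ∈ Finset.range (R + 1),
      (-1) ^ r * (lam ^ r / (r.factorial : ℝ))) atTop (𝓝 (Real.exp (-lam))) := by
    have h1 : HasSum (fun r : ℕ => (-lam) ^ r / (r.factorial : ℝ)) (Real.exp (-lam)) := by
      rw [Real.exp_eq_exp_ℝ]
      exact NormedSpace.expSeries_div_hasSum_exp (-lam)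
    have h2 := h1.tendsto_sum_nat.comp (tendsto_add_atTop_nat 1)
    refine h2.congr ?_
    intro R
    apply Finset.sum_congr rfl
    intro r _
    rw [neg_pow]
    ring
  have hfac : Tendsto (fun R : ℕ => (2 : ℝ) ^ (R + 1) * (1 * (lam ^ (R + 1) /
      ((R + 1).factorial : ℝ)))) atTop (𝓝 0) := by
    have h1 := FloorSemiring.tendsto_pow_div_factorial_atTop (2 * lam)
    have h2 := h1.comp (tendsto_add_atTop_nat 1)
    refine h2.congr ?_
    intro R
    simp only [Function.comp]
    rw [mul_pow]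
    ring
  obtain ⟨R, hR1, hR2, hR3⟩ : ∃ R : ℕ, 1 ≤ R ∧
      |∑ r ∈ Finset.range (R + 1), (-1) ^ r * (lam ^ r / (r.factorial : ℝ)) -
        Real.exp (-lam)| < ε / 3 ∧
      (2 : ℝ) ^ (R + 1) * (1 * (lam ^ (R + 1) / ((R + 1).factorial : ℝ))) < ε / 6 := by
    have e1 := (Metric.tendsto_nhds.1 hexp) (ε / 3) (by positivity)
    have e2 := (Metric.tendsto_nhds.1 hfac) (ε / 6) (by positivity)
    obtain ⟨R, h1, h2, h3⟩ := ((eventually_ge_atTop 1).and (e1.and e2)).exists
    refine ⟨R, h1, by rwa [Real.dist_eq] at h2, ?_⟩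
    rw [Real.dist_eq, sub_zero] at h3
    exact (le_abs_self _).trans_lt h3
  obtain ⟨τ, hτ, hτlim⟩ := htau R hR1
  -- limits of the pieces
  have hS : Tendsto (fun j => ∑ r ∈ Finset.range (R + 1),
      (-1) ^ r * (al (F j) (k j) r * mu (F j) (n j) (k j) ^ r / (r.factorial : ℝ))) atTop
      (𝓝 (∑ r ∈ Finset.range (R + 1), (-1) ^ r * (lam ^ r / (r.factorial : ℝ)))) :=
    tendsto_finsetSum _ fun r _ => (hterm r).const_mul _
  have hE : Tendsto (fun j => 2 ^ (R + 1) * (al (F j) (k j) (R + 1) *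
      mu (F j) (n j) (k j) ^ (R + 1) / ((R + 1).factorial : ℝ)) +
      ∑ ρ ∈ Finset.range (R + 1), 2 ^ ρ * (Lam (F j) (n j) (k j) *
        ((1 + τ j) ^ (n j * R) - 1) * (Lam (F j) (n j) (k j) + 1) ^ ρ)) atTop
      (𝓝 (2 ^ (R + 1) * (1 * (lam ^ (R + 1) / ((R + 1).factorial : ℝ))))) := by
    have h1 : Tendsto (fun j => ∑ ρ ∈ Finset.range (R + 1), 2 ^ ρ * (Lam (F j) (n j) (k j) *
        ((1 + τ j) ^ (n j * R) - 1) * (Lam (F j) (n j) (k j) + 1) ^ ρ)) atTop (𝓝 0) := by
      have h2 : Tendsto (fun j => ∑ ρ ∈ Finset.range (R + 1),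
          (2 : ℝ) ^ ρ * (Lam (F j) (n j) (k j) *
          ((1 + τ j) ^ (n j * R) - 1) * (Lam (F j) (n j) (k j) + 1) ^ ρ)) atTop
          (𝓝 (∑ ρ ∈ Finset.range (R + 1), (2 : ℝ) ^ ρ * (lam * 0 * (lam + 1) ^ ρ))) :=
        tendsto_finsetSum _ fun ρ _ =>
          (((hLam.mul hτlim).mul ((hLam.add_const 1).pow ρ))).const_mul _
      simpa using h2
    have h3 := ((hterm (R + 1)).const_mul ((2 : ℝ) ^ (R + 1))).add h1
    simpa using h3
  have e1 := (Metric.tendsto_nhds.1 hS) (ε / 3) (by positivity)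
  have e2 : ∀ᶠ j in atTop, 2 ^ (R + 1) * (al (F j) (k j) (R + 1) *
      mu (F j) (n j) (k j) ^ (R + 1) / ((R + 1).factorial : ℝ)) +
      ∑ ρ ∈ Finset.range (R + 1), 2 ^ ρ * (Lam (F j) (n j) (k j) *
        ((1 + τ j) ^ (n j * R) - 1) * (Lam (F j) (n j) (k j) + 1) ^ ρ) < ε / 6 :=
    hE.eventually_lt_const hR3
  rw [← eventually_atTop]
  filter_upwards [e1, e2, hm.eventually_ge_atTop 1] with j hj1 hj2 hj3
  rw [le_min_iff] at hj3
  have h1 := avg_ineq (F := F j) (n := n j) (k := k j) hj3.1 (by omega) (R := R)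
    (hτ j).1 (hτ j).2.1 (hτ j).2.2
  rw [Real.dist_eq] at hj1 ⊢
  have h2 := h1.trans_lt hj2
  rw [abs_lt] at h2 hj1 hR2 ⊢
  constructor <;> linarith

end Pool.Agent.R143.MDS
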