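import Pool.Agent.R143.MDS.Count

/-! Counting configurations with a dependent extra codeword. -/

namespace Pool.Agent.R143.MDS

open Finset Submodule Module

variable {F : Type} [Field F] [Fintype F] [DecidableEq F] {n k : ℕ}

/-- The bad property of a table `B` and coefficients `w`. -/
def Qp (k : ℕ) {n ρ : ℕ} (B : Fin n → Fin ρ → F) (w : Fin ρ → F) : Prop :=
  ∃ S : Fin ρ → Finset (Fin n), ∃ U : Finset (Fin n), (∀ i, (S i).card = k) ∧ U.card = k ∧
    (∀ i, ∀ x ∈ S i, B x i = 0) ∧ (∀ x ∈ U, ∑ i, w i * B x i = 0) ∧ ∃ i, w i ≠ 0 ∧ ¬ U ⊆ S i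

lemma card_determined {ρ : ℕ} (K : Finset (Fin ρ)) (D : Finset (Fin ρ → F))
    (h : ∀ b ∈ D, ∀ b' ∈ D, (∀ i, i ∉ K → b i = b' i) → b = b') :
    (D.card : ℝ) ≤ (Fintype.card F : ℝ) ^ ρ * (1 / (Fintype.card F : ℝ)) ^ K.card := by
  classical
  have h1 : D.card ≤ Fintype.card ({i : Fin ρ // i ∉ K} → F) := by
    rw [← Finset.card_univ]
    apply Finset.card_le_card_of_injOn (fun b => fun i : {i : Fin ρ // i ∉ K} => b i.1)
      (fun _ _ => Finset.mem_coe.2 (Finset.mem_univ _))
    intro b hb b' hb' hbb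
    apply h b hb b' hb'
    intro i hi
    exact congrFun hbb ⟨i, hi⟩
  have h2 : Fintype.card ({i : Fin ρ // i ∉ K} → F) = (Fintype.card F) ^ (ρ - K.card) := by
    rw [Fintype.card_fun]
    congr 1
    rw [Fintype.card_subtype_compl]
    simp
  have hK : K.card ≤ ρ := by
    have := Finset.card_le_univ K
    simpa using this
  have hq : (0 : ℝ) < (Fintype.card F : ℝ) := by
    have : 0 < Fintype.card F := Fintype.card_pos
    exact_mod_cast this
  have h3 : (D.card : ℝ) ≤ (Fintype.card F : ℝ) ^ (ρ - K.card) := by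
    rw [h2] at h1
    exact_mod_cast h1
  refine h3.trans (le_of_eq ?_)
  rw [one_div, inv_pow, ← div_eq_mul_inv, eq_div_iff (by positivity), ← pow_add]
  congr 1
  omega

open Classical in
/-- Number of tables for given zero sets. -/
lemma card_tables {ρ : ℕ} (w : Fin ρ → F) (S : Fin ρ → Finset (Fin n)) (U : Finset (Fin n))
    (hS : ∀ i, (S i).card = k) :
    ((Finset.univ.filter fun B : Fin n → Fin ρ → F =>
        (∀ i, ∀ x ∈ S i, B x i = 0) ∧ (∀ x ∈ U, ∑ i, w i * B x i = 0)).card : ℝ) ≤
      (Fintype.card F : ℝ) ^ (ρ * n) * (1 / (Fintype.card F : ℝ)) ^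
        (k * ρ + (U.filter fun x => ∃ i, w i ≠ 0 ∧ x ∉ S i).card) := by
  set D : Fin n → Finset (Fin ρ → F) := fun x => Finset.univ.filter fun b : Fin ρ → F =>
    (∀ i, x ∈ S i → b i = 0) ∧ (x ∈ U → ∑ i, w i * b i = 0) with hD
  have h1 : (Finset.univ.filter fun B : Fin n → Fin ρ → F =>
        (∀ i, ∀ x ∈ S i, B x i = 0) ∧ (∀ x ∈ U, ∑ i, w i * B x i = 0)) = Fintype.piFinset D := by
    ext B
    simp only [mem_filter, mem_univ, true_and, Fintype.mem_piFinset, hD]
    constructor
    · rintro ⟨h, h'⟩ x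
      exact ⟨fun i hx => h i x hx, fun hx => h' x hx⟩
    · intro h
      exact ⟨fun i x hx => (h x).1 i hx, fun x hx => (h x).2 hx⟩
  set κ : Fin n → ℕ := fun x => (Finset.univ.filter fun i => x ∈ S i).card +
    (if x ∈ U ∧ ∃ i, w i ≠ 0 ∧ x ∉ S i then 1 else 0) with hκ
  have hDx : ∀ x, ((D x).card : ℝ) ≤
      (Fintype.card F : ℝ) ^ ρ * (1 / (Fintype.card F : ℝ)) ^ κ x := by
    intro x
    by_cases hx : x ∈ U ∧ ∃ i, w i ≠ 0 ∧ x ∉ S i
    · obtain ⟨hxU, i0, hwi, hxi⟩ := hx
      have hκx : κ x = (insert i0 (Finset.univ.filter fun i => x ∈ S i)).card := by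
        rw [Finset.card_insert_of_notMem (by simpa using hxi)]
        simp only [hκ]
        rw [if_pos ⟨hxU, i0, hwi, hxi⟩]
      rw [hκx]
      apply card_determined
      intro b hb b' hb' hbb
      simp only [hD, mem_filter, mem_univ, true_and] at hb hb'
      have hother : ∀ i, i ≠ i0 → b i = b' i := by
        intro i hi
        by_cases hxi' : x ∈ S i
        · rw [hb.1 i hxi', hb'.1 i hxi']
        · apply hbb
          simp [hi, hxi']
      have hsum : ∑ i, w i * b i = ∑ i, w i * b' i := by rw [hb.2 hxU, hb'.2 hxU]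
      have h0 : b i0 = b' i0 := by
        rw [Fintype.sum_eq_add_sum_compl i0, Fintype.sum_eq_add_sum_compl i0] at hsum
        have h2 : ∑ i ∈ {i0}ᶜ, w i * b i = ∑ i ∈ {i0}ᶜ, w i * b' i := by
          apply Finset.sum_congr rfl
          intro i hi
          rw [Finset.mem_compl, Finset.mem_singleton] at hi
          rw [hother i hi]
        rw [h2] at hsum
        exact mul_left_cancel₀ hwi (add_right_cancel hsum)
      funext i
      by_cases hi : i = i0
      · rw [hi]; exact h0
      · exact hother i hi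
    · have hκx : κ x = (Finset.univ.filter fun i => x ∈ S i).card := by
        simp only [hκ]
        rw [if_neg hx, add_zero]
      rw [hκx]
      apply card_determined
      intro b hb b' hb' hbb
      simp only [hD, mem_filter, mem_univ, true_and] at hb hb'
      funext i
      by_cases hxi' : x ∈ S i
      · rw [hb.1 i hxi', hb'.1 i hxi']
      · exact hbb i (by simpa using hxi')
  have hκsum : ∑ x, κ x = k * ρ + (U.filter fun x => ∃ i, w i ≠ 0 ∧ x ∉ S i).card := by
    simp only [hκ]
    rw [Finset.sum_add_distrib]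
    congr 1
    · have e1 : ∀ x : Fin n, (Finset.univ.filter fun i => x ∈ S i).card =
          ∑ i : Fin ρ, if x ∈ S i then 1 else 0 := fun x => by rw [Finset.card_filter]
      simp_rw [e1]
      rw [Finset.sum_comm]
      have e2 : ∀ i : Fin ρ, ∑ x : Fin n, (if x ∈ S i then 1 else 0) = k := by
        intro i
        rw [← Finset.card_filter, ← hS i]
        congr 1
        ext x; simp
      rw [Finset.sum_congr rfl (fun i _ => e2 i)]
      simp [mul_comm]
    · rw [← Finset.card_filter]
      congr 1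
      ext x; simp
  rw [h1, Fintype.card_piFinset]
  push_cast
  calc ∏ x, ((D x).card : ℝ) ≤ ∏ x : Fin n,
        ((Fintype.card F : ℝ) ^ ρ * (1 / (Fintype.card F : ℝ)) ^ κ x) :=
        Finset.prod_le_prod (fun _ _ => by positivity) (fun x _ => hDx x)
    _ = _ := by
        rw [Finset.prod_mul_distrib, Finset.prod_const, Finset.card_univ, Fintype.card_fin,
          ← pow_mul, Finset.prod_pow_eq_pow_sum, hκsum]

/-- Symmetric difference bound. -/
lemma tau_bound {ρ R : ℕ} (hρ : ρ ≤ R) (w : Fin ρ → F) (S : Fin ρ → Finset (Fin n))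
    (U : Finset (Fin n)) (hS : ∀ i, (S i).card = k) (hU : U.card = k) {τ : ℝ} (h0 : 0 < τ)
    (h1 : τ ≤ 1) (hτ : τ ^ (2 * R) = 1 / (Fintype.card F : ℝ)) :
    (1 / (Fintype.card F : ℝ)) ^ (U.filter fun x => ∃ i, w i ≠ 0 ∧ x ∉ S i).card ≤
      ∏ i, (if w i ≠ 0 then τ ^ (symmDiff U (S i)).card else 1) := by
  classical
  set t := (U.filter fun x => ∃ i, w i ≠ 0 ∧ x ∉ S i).card with ht
  rw [← hτ, ← pow_mul]
  have hi : ∀ i, w i ≠ 0 → (symmDiff U (S i)).card ≤ 2 * t := by
    intro i hwi
    have e1 : (symmDiff U (S i)).card = (U \ S i).card + (S i \ U).card := by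
      rw [symmDiff_def, Finset.sup_eq_union, Finset.card_union_of_disjoint]
      exact disjoint_sdiff_sdiff
    have e2 : (U \ S i).card = (S i \ U).card := by
      have a1 := Finset.card_sdiff_add_card_inter U (S i)
      have a2 := Finset.card_sdiff_add_card_inter (S i) U
      rw [Finset.inter_comm (S i) U] at a2
      have := hS i
      omega
    have e3 : (U \ S i).card ≤ t := by
      apply Finset.card_le_card
      intro x hx
      rw [Finset.mem_sdiff] at hx
      rw [Finset.mem_filter]
      exact ⟨hx.1, i, hwi, hx.2⟩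
    omega
  have hprod : ∏ i, (if w i ≠ 0 then τ ^ (symmDiff U (S i)).card else 1) =
      τ ^ (∑ i, if w i ≠ 0 then (symmDiff U (S i)).card else 0) := by
    rw [← Finset.prod_pow_eq_pow_sum]
    apply Finset.prod_congr rfl
    intro i _
    split_ifs <;> simp
  rw [hprod]
  apply pow_le_pow_of_le_one h0.le h1
  calc (∑ i, if w i ≠ 0 then (symmDiff U (S i)).card else 0) ≤ ∑ _i : Fin ρ, 2 * t := by
        apply Finset.sum_le_sum
        intro i _
        split_ifs with h
        · exact hi i h
        · exact Nat.zero_le _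
    _ = ρ * (2 * t) := by simp
    _ ≤ 2 * R * t := by nlinarith

/-- Sum over all subsets. -/
lemma sum_symmDiff (U : Finset (Fin n)) (τ : ℝ) (h0 : 0 ≤ τ) (k : ℕ) :
    ∑ S ∈ Finset.powersetCard k (Finset.univ : Finset (Fin n)), τ ^ (symmDiff U S).card ≤
      (1 + τ) ^ n := by
  classical
  calc ∑ S ∈ Finset.powersetCard k (Finset.univ : Finset (Fin n)), τ ^ (symmDiff U S).card
      ≤ ∑ S : Finset (Fin n), τ ^ (symmDiff U S).card :=
        Finset.sum_le_sum_of_subset_of_nonneg (Finset.subset_univ _) (fun _ _ _ => by positivity)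
    _ = ∑ S : Finset (Fin n), τ ^ S.card := by
        apply Fintype.sum_bijective (fun S => symmDiff U S)
        · exact (Function.Involutive.bijective fun S => by
            simp only [symmDiff_symmDiff_cancel_left])
        · intro S; rfl
    _ = (1 + τ) ^ n := by
        have h := Finset.sum_pow_mul_eq_add_pow τ 1 (Finset.univ : Finset (Fin n))
        simp only [one_pow, mul_one, Finset.powerset_univ, Finset.card_univ,
          Fintype.card_fin] at h
        rw [h, add_comm]

end Pool.Agent.R143.MDS
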