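import Pool.Agent.R143.MDS.WCount

/-! Expectation of the number of bad configurations. -/

namespace Pool.Agent.R143.MDS

open Finset Submodule Module

variable {F : Type} [Field F] [Fintype F] [DecidableEq F] {n k : ℕ}

open Classical in
/-- Sum over the zero sets for fixed coefficients. -/
lemma sum_sets {ρ R : ℕ} (hρ : ρ ≤ R) (w : Fin ρ → F) {τ : ℝ} (h0 : 0 < τ) :
    ∑ U ∈ Finset.powersetCard k (Finset.univ : Finset (Fin n)),
      ∑ S ∈ (Fintype.piFinset fun _ : Fin ρ =>
          Finset.powersetCard k (Finset.univ : Finset (Fin n))).filter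
            (fun S => ∃ i, w i ≠ 0 ∧ ¬ U ⊆ S i),
        ∏ i, (if w i ≠ 0 then τ ^ (symmDiff U (S i)).card else 1) ≤
      (n.choose k : ℝ) * ((1 + τ) ^ (n * R) - 1) *
        ∏ i, (if w i = 0 then (n.choose k : ℝ) else 1) := by
  set 𝒮 := Finset.powersetCard k (Finset.univ : Finset (Fin n)) with h𝒮
  have hcard : (𝒮.card : ℝ) = (n.choose k : ℝ) := by
    rw [h𝒮, Finset.card_powersetCard, Finset.card_univ, Fintype.card_fin]
  have key : ∀ U ∈ 𝒮, ∑ S ∈ (Fintype.piFinset fun _ : Fin ρ => 𝒮).filter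
            (fun S => ∃ i, w i ≠ 0 ∧ ¬ U ⊆ S i),
        ∏ i, (if w i ≠ 0 then τ ^ (symmDiff U (S i)).card else 1) ≤
      ((1 + τ) ^ (n * R) - 1) * ∏ i, (if w i = 0 then (n.choose k : ℝ) else 1) := by
    intro U hU
    rw [h𝒮, Finset.mem_powersetCard] at hU
    set Θ : ℝ := ∑ s ∈ 𝒮, τ ^ (symmDiff U s).card with hΘ
    have hΘ1 : Θ ≤ (1 + τ) ^ n := sum_symmDiff U τ h0.le k
    have htot : ∑ S ∈ Fintype.piFinset fun _ : Fin ρ => 𝒮,
        ∏ i, (if w i ≠ 0 then τ ^ (symmDiff U (S i)).card else 1) =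
        ∏ i, (if w i ≠ 0 then Θ else (n.choose k : ℝ)) := by
      rw [Finset.sum_prod_piFinset 𝒮
        (fun (i : Fin ρ) (s : Finset (Fin n)) => if w i ≠ 0 then τ ^ (symmDiff U s).card else 1)]
      apply Finset.prod_congr rfl
      intro i _
      by_cases hi : w i ≠ 0
      · simp [hi, hΘ]
      · simp only [hi, if_false, Finset.sum_const, nsmul_eq_mul, mul_one]
        exact hcard
    have hcomp : ∏ i, (if w i = 0 then (n.choose k : ℝ) else 1) ≤
        ∑ S ∈ (Fintype.piFinset fun _ : Fin ρ => 𝒮).filter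
            (fun S => ¬ ∃ i, w i ≠ 0 ∧ ¬ U ⊆ S i),
          ∏ i, (if w i ≠ 0 then τ ^ (symmDiff U (S i)).card else 1) := by
      have e1 : ∏ i, (if w i = 0 then (n.choose k : ℝ) else 1) =
          ∑ S ∈ Fintype.piFinset (fun i : Fin ρ => if w i ≠ 0 then {U} else 𝒮), (1 : ℝ) := by
        rw [Finset.sum_const, nsmul_eq_mul, mul_one, Fintype.card_piFinset]
        push_cast
        apply Finset.prod_congr rfl
        intro i _
        by_cases hi : w i = 0
        · simp only [hi, if_true, ne_eq, not_true_eq_false, if_false]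
          exact hcard.symm
        · simp [hi]
      rw [e1]
      have hsub : Fintype.piFinset (fun i : Fin ρ => if w i ≠ 0 then {U} else 𝒮) ⊆
          (Fintype.piFinset fun _ : Fin ρ => 𝒮).filter
            (fun S => ¬ ∃ i, w i ≠ 0 ∧ ¬ U ⊆ S i) := by
        intro S hS
        rw [Fintype.mem_piFinset] at hS
        rw [Finset.mem_filter, Fintype.mem_piFinset]
        constructor
        · intro i
          have := hS i
          by_cases hi : w i ≠ 0
          · rw [if_pos hi, Finset.mem_singleton] at this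
            rw [this, h𝒮, Finset.mem_powersetCard]
            exact hU
          · rw [if_neg hi] at this
            exact this
        · rintro ⟨i, hi, hUi⟩
          have := hS i
          rw [if_pos hi, Finset.mem_singleton] at this
          exact hUi (by rw [this])
      calc ∑ S ∈ Fintype.piFinset (fun i : Fin ρ => if w i ≠ 0 then {U} else 𝒮), (1 : ℝ) =
          ∑ S ∈ Fintype.piFinset (fun i : Fin ρ => if w i ≠ 0 then {U} else 𝒮),
            ∏ i, (if w i ≠ 0 then τ ^ (symmDiff U (S i)).card else 1) := by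
            apply Finset.sum_congr rfl
            intro S hS
            rw [Fintype.mem_piFinset] at hS
            symm
            apply Finset.prod_eq_one
            intro i _
            have := hS i
            by_cases hi : w i ≠ 0
            · rw [if_pos hi, Finset.mem_singleton] at this
              rw [if_pos hi, this]
              simp
            · rw [if_neg hi]
        _ ≤ _ := Finset.sum_le_sum_of_subset_of_nonneg hsub (fun S _ _ =>
            Finset.prod_nonneg fun i _ => by split_ifs <;> positivity)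
    have hsplit := Finset.sum_filter_add_sum_filter_not (Fintype.piFinset fun _ : Fin ρ => 𝒮)
      (fun S => ∃ i, w i ≠ 0 ∧ ¬ U ⊆ S i)
      (fun S => ∏ i, (if w i ≠ 0 then τ ^ (symmDiff U (S i)).card else 1))
    have hΘ0 : 0 ≤ Θ := Finset.sum_nonneg fun _ _ => by positivity
    have hM0 : (0 : ℝ) ≤ ∏ i, (if w i = 0 then (n.choose k : ℝ) else 1) :=
      Finset.prod_nonneg fun i _ => by split_ifs <;> positivity
    have hbase : 1 ≤ (1 + τ) ^ n := one_le_pow₀ (by linarith)
    have htot2 : ∏ i, (if w i ≠ 0 then Θ else (n.choose k : ℝ)) ≤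
        (1 + τ) ^ (n * R) * ∏ i, (if w i = 0 then (n.choose k : ℝ) else 1) := by
      calc ∏ i, (if w i ≠ 0 then Θ else (n.choose k : ℝ)) ≤
          ∏ i : Fin ρ, ((1 + τ) ^ n * (if w i = 0 then (n.choose k : ℝ) else 1)) := by
            apply Finset.prod_le_prod
            · intro i _; split_ifs <;> positivity
            · intro i _
              by_cases hi : w i = 0
              · simp only [hi, ne_eq, not_true_eq_false, if_false, if_true]
                have : (0 : ℝ) ≤ (n.choose k : ℝ) := by positivity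
                nlinarith
              · simp only [hi, ne_eq, not_false_eq_true, if_true, if_false, mul_one]
                exact hΘ1
        _ = ((1 + τ) ^ n) ^ ρ * ∏ i, (if w i = 0 then (n.choose k : ℝ) else 1) := by
            rw [Finset.prod_mul_distrib, Finset.prod_const, Finset.card_univ, Fintype.card_fin]
        _ ≤ _ := by
            apply mul_le_mul_of_nonneg_right _ hM0
            rw [pow_mul]
            exact pow_le_pow_right₀ hbase hρ
    rw [htot] at hsplit
    linarith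
  calc _ ≤ ∑ U ∈ 𝒮, ((1 + τ) ^ (n * R) - 1) *
        ∏ i, (if w i = 0 then (n.choose k : ℝ) else 1) := Finset.sum_le_sum key
    _ = _ := by rw [Finset.sum_const, nsmul_eq_mul, hcard]; ring

open Classical in
/-- Number of bad tables for fixed coefficients. -/
lemma card_Qp {ρ R : ℕ} (hρ : ρ ≤ R) (w : Fin ρ → F) {τ : ℝ} (h0 : 0 < τ)
    (h1 : τ ≤ 1) (hτ : τ ^ (2 * R) = 1 / (Fintype.card F : ℝ)) :
    ((Finset.univ.filter fun B : Fin n → Fin ρ → F => Qp k B w).card : ℝ) ≤
      (Fintype.card F : ℝ) ^ (ρ * n) * (1 / (Fintype.card F : ℝ)) ^ (k * ρ) *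
      ((n.choose k : ℝ) * ((1 + τ) ^ (n * R) - 1) *
        ∏ i, (if w i = 0 then (n.choose k : ℝ) else 1)) := by
  set 𝒮 := Finset.powersetCard k (Finset.univ : Finset (Fin n)) with h𝒮
  set q : ℝ := (Fintype.card F : ℝ) with hq
  have hq0 : 0 < q := by
    have : 0 < Fintype.card F := Fintype.card_pos
    rw [hq]; exact_mod_cast this
  have hsub : (Finset.univ.filter fun B : Fin n → Fin ρ → F => Qp k B w) ⊆
      𝒮.biUnion fun U => ((Fintype.piFinset fun _ : Fin ρ => 𝒮).filter
            (fun S => ∃ i, w i ≠ 0 ∧ ¬ U ⊆ S i)).biUnion fun S =>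
        Finset.univ.filter fun B : Fin n → Fin ρ → F =>
          (∀ i, ∀ x ∈ S i, B x i = 0) ∧ (∀ x ∈ U, ∑ i, w i * B x i = 0) := by
    intro B hB
    rw [Finset.mem_filter] at hB
    obtain ⟨S, U, hS, hU, hz, hz', hex⟩ := hB.2
    simp only [Finset.mem_biUnion, Finset.mem_filter, Fintype.mem_piFinset, Finset.mem_univ,
      true_and]
    refine ⟨U, by rw [h𝒮, Finset.mem_powersetCard]; exact ⟨Finset.subset_univ _, hU⟩, S,
      ⟨fun i => by rw [h𝒮, Finset.mem_powersetCard]; exact ⟨Finset.subset_univ _, hS i⟩, hex⟩,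
      hz, hz'⟩
  have hle : (Finset.univ.filter fun B : Fin n → Fin ρ → F => Qp k B w).card ≤
      ∑ U ∈ 𝒮, ∑ S ∈ (Fintype.piFinset fun _ : Fin ρ => 𝒮).filter
            (fun S => ∃ i, w i ≠ 0 ∧ ¬ U ⊆ S i),
        (Finset.univ.filter fun B : Fin n → Fin ρ → F =>
          (∀ i, ∀ x ∈ S i, B x i = 0) ∧ (∀ x ∈ U, ∑ i, w i * B x i = 0)).card := by
    refine (Finset.card_le_card hsub).trans (Finset.card_biUnion_le.trans ?_)
    exact Finset.sum_le_sum fun U _ => Finset.card_biUnion_le
  calc ((Finset.univ.filter fun B : Fin n → Fin ρ → F => Qp k B w).card : ℝ) ≤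
      ∑ U ∈ 𝒮, ∑ S ∈ (Fintype.piFinset fun _ : Fin ρ => 𝒮).filter
            (fun S => ∃ i, w i ≠ 0 ∧ ¬ U ⊆ S i),
        ((Finset.univ.filter fun B : Fin n → Fin ρ → F =>
          (∀ i, ∀ x ∈ S i, B x i = 0) ∧ (∀ x ∈ U, ∑ i, w i * B x i = 0)).card : ℝ) := by
        exact_mod_cast hle
    _ ≤ ∑ U ∈ 𝒮, ∑ S ∈ (Fintype.piFinset fun _ : Fin ρ => 𝒮).filter
            (fun S => ∃ i, w i ≠ 0 ∧ ¬ U ⊆ S i),
          (q ^ (ρ * n) * (1 / q) ^ (k * ρ)) *
            ∏ i, (if w i ≠ 0 then τ ^ (symmDiff U (S i)).card else 1) := by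
        apply Finset.sum_le_sum
        intro U hU
        apply Finset.sum_le_sum
        intro S hS
        rw [h𝒮, Finset.mem_powersetCard] at hU
        rw [Finset.mem_filter, Fintype.mem_piFinset] at hS
        have hSk : ∀ i, (S i).card = k := fun i => by
          have := hS.1 i
          rw [h𝒮, Finset.mem_powersetCard] at this
          exact this.2
        refine (card_tables w S U hSk).trans ?_
        rw [pow_add, ← mul_assoc]
        exact mul_le_mul_of_nonneg_left (tau_bound hρ w S U hSk hU.2 h0 h1 hτ) (by positivity)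
    _ = (q ^ (ρ * n) * (1 / q) ^ (k * ρ)) * ∑ U ∈ 𝒮,
          ∑ S ∈ (Fintype.piFinset fun _ : Fin ρ => 𝒮).filter
            (fun S => ∃ i, w i ≠ 0 ∧ ¬ U ⊆ S i),
            ∏ i, (if w i ≠ 0 then τ ^ (symmDiff U (S i)).card else 1) := by
        rw [Finset.mul_sum]
        apply Finset.sum_congr rfl
        intro U _
        rw [Finset.mul_sum]
    _ ≤ _ := mul_le_mul_of_nonneg_left (sum_sets hρ w h0) (by positivity)

open Classical in
/-- Number of bad configurations of a matrix. -/
noncomputable def Wc (A : Fin n → Fin k → F) (ρ : ℕ) : ℕ :=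
  (Finset.univ.filter fun p : (Fin ρ → Fin k → F) × (Fin ρ → F) =>
    LinearIndependent F p.1 ∧ Qp k (tab A p.1) p.2).card

lemma ci_le (r : ℕ) : (ci F k r : ℝ) ≤ (Fintype.card F : ℝ) ^ (k * r) := by
  classical
  have h : ci F k r ≤ (Fintype.card F) ^ (k * r) := by
    unfold ci
    refine (Finset.card_filter_le _ _).trans ?_
    rw [Finset.card_univ, Fintype.card_fun, Fintype.card_fun, Fintype.card_fin, Fintype.card_fin,
      ← pow_mul]
  exact_mod_cast h

/-- Sum of the coefficients' weights. -/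
lemma sum_weights (ρ : ℕ) (M : ℝ) :
    ∑ w : Fin ρ → F, ∏ i, (if w i = 0 then M else 1) = (M + ((Fintype.card F : ℝ) - 1)) ^ ρ := by
  classical
  have h := Finset.prod_univ_sum (fun _ : Fin ρ => (Finset.univ : Finset F))
    (fun (_ : Fin ρ) (c : F) => if c = 0 then M else (1 : ℝ))
  rw [Fintype.piFinset_univ] at h
  rw [← h, Finset.prod_const, Finset.card_univ, Fintype.card_fin]
  congr 1
  rw [Fintype.sum_eq_add_sum_compl (0 : F), if_pos rfl]
  congr 1
  rw [Finset.sum_congr rfl (g := fun _ => (1 : ℝ)) (fun c hc => by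
    rw [Finset.mem_compl, Finset.mem_singleton] at hc
    rw [if_neg hc]), Finset.sum_const, Finset.card_compl, Finset.card_singleton, nsmul_eq_mul,
    mul_one]
  rw [Nat.cast_sub Fintype.one_lt_card.le, Nat.cast_one]

open Classical in
/-- Expected number of bad configurations. -/
lemma sum_Wc {ρ R : ℕ} (hρ : ρ ≤ R) {τ : ℝ} (h0 : 0 < τ)
    (h1 : τ ≤ 1) (hτ : τ ^ (2 * R) = 1 / (Fintype.card F : ℝ)) :
    ∑ A : Fin n → Fin k → F, (Wc A ρ : ℝ) ≤
      (Fintype.card F : ℝ) ^ (n * k) * ((n.choose k : ℝ) * ((1 + τ) ^ (n * R) - 1) *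
        ((n.choose k : ℝ) + ((Fintype.card F : ℝ) - 1)) ^ ρ) := by
  set q : ℝ := (Fintype.card F : ℝ) with hq
  have hq0 : 0 < q := by
    have : 0 < Fintype.card F := Fintype.card_pos
    rw [hq]; exact_mod_cast this
  set LI : Finset (Fin ρ → Fin k → F) :=
    Finset.univ.filter fun u : Fin ρ → Fin k → F => LinearIndependent F u with hLI
  have e1 : ∑ A : Fin n → Fin k → F, (Wc A ρ : ℝ) =
      ∑ u ∈ LI, ∑ w : Fin ρ → F,
        ((Finset.univ.filter fun A : Fin n → Fin k → F => Qp k (tab A u) w).card : ℝ) := by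
    have e2 : ∀ A : Fin n → Fin k → F, (Wc A ρ : ℝ) =
        ∑ u ∈ LI, ∑ w : Fin ρ → F, if Qp k (tab A u) w then (1 : ℝ) else 0 := by
      intro A
      unfold Wc
      rw [Finset.card_filter]
      push_cast
      rw [Fintype.sum_prod_type, hLI, Finset.sum_filter]
      apply Finset.sum_congr rfl
      intro u _
      by_cases hu : LinearIndependent F u
      · simp [hu]
      · simp [hu]
    simp_rw [e2]
    rw [Finset.sum_comm]
    apply Finset.sum_congr rfl
    intro u _
    rw [Finset.sum_comm]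
    apply Finset.sum_congr rfl
    intro w _
    rw [Finset.card_filter]
    push_cast
    rfl
  rw [e1]
  have e3 : ∀ u ∈ LI, ∀ w : Fin ρ → F,
      ((Finset.univ.filter fun A : Fin n → Fin k → F => Qp k (tab A u) w).card : ℝ) ≤
        q ^ (n * k) * ((1 / q) ^ (k * ρ) * ((n.choose k : ℝ) * ((1 + τ) ^ (n * R) - 1) *
        ∏ i, (if w i = 0 then (n.choose k : ℝ) else 1))) := by
    intro u hu w
    rw [hLI, Finset.mem_filter] at hu
    have h2 := card_tab (n := n) hu.2 (fun B => Qp k B w)
    have h3 : ((Finset.univ.filter fun A : Fin n → Fin k → F => Qp k (tab A u) w).card : ℝ) *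
        q ^ (n * ρ) = q ^ (n * k) *
          ((Finset.univ.filter fun B : Fin n → Fin ρ → F => Qp k B w).card : ℝ) := by
      rw [hq]
      exact_mod_cast h2
    have h4 := card_Qp (n := n) (k := k) hρ w h0 h1 hτ
    have h5 : ((Finset.univ.filter fun A : Fin n → Fin k → F => Qp k (tab A u) w).card : ℝ) *
        q ^ (n * ρ) ≤ (q ^ (n * k) * ((1 / q) ^ (k * ρ) * ((n.choose k : ℝ) *
          ((1 + τ) ^ (n * R) - 1) * ∏ i, (if w i = 0 then (n.choose k : ℝ) else 1)))) *
          q ^ (n * ρ) := by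
      rw [h3]
      calc q ^ (n * k) * ((Finset.univ.filter fun B : Fin n → Fin ρ → F => Qp k B w).card : ℝ) ≤
          q ^ (n * k) * (q ^ (ρ * n) * (1 / q) ^ (k * ρ) *
            ((n.choose k : ℝ) * ((1 + τ) ^ (n * R) - 1) *
              ∏ i, (if w i = 0 then (n.choose k : ℝ) else 1))) := by gcongr
        _ = _ := by rw [mul_comm ρ n]; ring
    exact le_of_mul_le_mul_right h5 (by positivity)
  have hE0 : 0 ≤ (1 + τ) ^ (n * R) - 1 := by
    have : 1 ≤ (1 + τ) ^ (n * R) := one_le_pow₀ (by linarith)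
    linarith
  calc ∑ u ∈ LI, ∑ w : Fin ρ → F,
        ((Finset.univ.filter fun A : Fin n → Fin k → F => Qp k (tab A u) w).card : ℝ) ≤
      ∑ u ∈ LI, ∑ w : Fin ρ → F,
        q ^ (n * k) * ((1 / q) ^ (k * ρ) * ((n.choose k : ℝ) * ((1 + τ) ^ (n * R) - 1) *
        ∏ i, (if w i = 0 then (n.choose k : ℝ) else 1))) :=
        Finset.sum_le_sum fun u hu => Finset.sum_le_sum fun w _ => e3 u hu w
    _ = (ci F k ρ : ℝ) * (q ^ (n * k) * ((1 / q) ^ (k * ρ) * ((n.choose k : ℝ) *
          ((1 + τ) ^ (n * R) - 1) * ((n.choose k : ℝ) + (q - 1)) ^ ρ))) := by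
        rw [Finset.sum_const, nsmul_eq_mul, ← Finset.mul_sum, ← Finset.mul_sum, ← Finset.mul_sum,
          sum_weights]
        rfl
    _ ≤ q ^ (k * ρ) * (q ^ (n * k) * ((1 / q) ^ (k * ρ) * ((n.choose k : ℝ) *
          ((1 + τ) ^ (n * R) - 1) * ((n.choose k : ℝ) + (q - 1)) ^ ρ))) := by
        apply mul_le_mul_of_nonneg_right (ci_le ρ)
        have : 0 < q - 1 := q_sub_one_pos F
        positivity
    _ = _ := by
        have : q ^ (k * ρ) * (1 / q) ^ (k * ρ) = 1 := by
          rw [← mul_pow, mul_one_div_cancel hq0.ne', one_pow]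
        calc _ = (q ^ (k * ρ) * (1 / q) ^ (k * ρ)) * (q ^ (n * k) * ((n.choose k : ℝ) *
          ((1 + τ) ^ (n * R) - 1) * ((n.choose k : ℝ) + (q - 1)) ^ ρ)) := by ring
          _ = _ := by rw [this, one_mul]

end Pool.Agent.R143.MDS
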